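import Pool.Agent.Work.MP_50f8f6_al.Proj

/-!
# Interface: the statements of the blocks (as `Prop`s).
A block is finished when `theorem xxx : XxxStmt` compiles.
-/

namespace FrobP
open GMet

/-- BLOCK D (Bowditch's guessing geodesics criterion). -/
def BowditchStmt : Prop := ∀ h : ℕ, ∃ s D : ℕ, ∀ (W : Type) [GMet W] (L : W → W → Set W),
  (∀ v w, v ∈ L v w ∧
    Relation.ReflTransGen (fun a b => a ∈ L v w ∧ b ∈ L v w ∧ d a b ≤ h) v w) →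
  (∀ v w u, ∀ z ∈ L v w, ∃ z', (z' ∈ L v u ∨ z' ∈ L u w) ∧ d z z' ≤ h) →
  (∀ v w, d v w ≤ 1 → ∀ z ∈ L v w, d v z ≤ h) →
  Slim W s ∧ ∀ v w, ∀ z ∈ L v w, ∃ q, Bt v q w ∧ d z q ≤ D

/-- BLOCK S1: the cone-off is slim with an absolute constant, and apices with a large angle are
on every geodesic. -/
def S1Stmt : Prop := ∃ s K K0 : ℕ, ∀ (V ι : Type) [GMet V] (C : ConeData V ι) (θ : ℕ),
  Fam C θ → K * θ ≤ C.R → Slim (Cone C) s ∧ E2 C K0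

/-- BLOCK S2: windmills. -/
def S2Stmt : Prop := ∃ K2 : ℕ, ∀ (G V ι : Type) [Group G] [GMet V] [MulAction G V]
  [MulAction G ι] [IsomAct G V] (C : ConeData V ι) [ConeAct G C] (H : ι → Subgroup G) (θ T : ℕ),
  Rot G C H θ T → K2 * θ ≤ T → AllRed C H (T / 4)

section S3
variable {G V ι : Type} [Group G] [GMet V] [MulAction G V] [MulAction G ι] [IsomAct G V]

/-- BLOCK S3a: slimness of the quotient -/
def S3aStmt : Prop := ∀ (G V ι : Type) [Group G] [GMet V] [MulAction G V]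
  [MulAction G ι] [IsomAct G V] (C : ConeData V ι) [ConeAct G C] (H : ι → Subgroup G)
  (θ T τ s K0 : ℕ), Rot G C H θ T → AllRed C H τ → E2 C K0 → Slim (Cone C) s →
  4 * (K0 * (2 ^ C.ρ * C.R)) < τ → Slim (QM (NN H) (Cone C)) s

/-- BLOCK S3b: stabilizers -/
def S3bStmt : Prop := ∀ (G V ι : Type) [Group G] [GMet V] [MulAction G V]
  [MulAction G ι] [IsomAct G V] (C : ConeData V ι) [ConeAct G C] (H : ι → Subgroup G)
  (θ T τ : ℕ), Rot G C H θ T → AllRed C H τ → θ < τ →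
  ∀ n ∈ NN H, ∀ i : ι, n • i = i → n ∈ H i

/-- BLOCK S3c: large displacement -/
def S3cStmt : Prop := ∀ (G V ι : Type) [Group G] [GMet V] [MulAction G V]
  [MulAction G ι] [IsomAct G V] (C : ConeData V ι) [ConeAct G C] (H : ι → Subgroup G)
  (θ T τ : ℕ), Rot G C H θ T → AllRed C H τ →
  ∀ n ∈ NN H, n ≠ 1 → ∀ x : V, τ ≤ d x (n • x) + 16 * θ

/-- BLOCK S3d: if all angles between `x` and `y` are small, the quotient distance is the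
distance in the cone-off -/
def S3dStmt : Prop := ∀ (G V ι : Type) [Group G] [GMet V] [MulAction G V]
  [MulAction G ι] [IsomAct G V] (C : ConeData V ι) [ConeAct G C] (H : ι → Subgroup G)
  (θ T τ K0 : ℕ), Rot G C H θ T → AllRed C H τ → E2 C K0 →
  ∀ x y : V, (∀ i, prd (C.Y i) x y + K0 * (2 ^ C.ρ * C.R) < τ) →
  ∀ n ∈ NN H, d (Cone.base C x) (Cone.base C y) ≤ d (Cone.base C x) (Cone.base C (n • y))

end S3

/-- BLOCK I1: consequences of `Good` (coboundedness, commutation, cyclic centralizers). -/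
def ClassStmt : Prop := ∃ c : ℕ, ∀ (δ ℓ A r p : ℕ) (G V : Type) [Group G] [GMet V]
  [MulAction G V] [IsomAct G V], 1 ≤ δ → 200 * δ ≤ ℓ → δ ≤ A → p.Prime → 3 ≤ p →
  Good δ ℓ A r p G V →
  (∀ (D : ℕ) (g : G), g ≠ 1 → ∀ x y : V, d x (g • x) ≤ D → d y (g • y) ≤ D →
    ∃ k : ℤ, d (g ^ k • x) y ≤ c * (D + A)) ∧
  (∀ (D : ℕ) (g h : G), g ≠ 1 → h ≠ 1 → ∀ x y : V, d x (g • x) ≤ D → d y (g • y) ≤ D →
    d x (h • x) ≤ D → d y (h • y) ≤ D → c * (D + A) ≤ d x y → g * h = h * g) ∧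
  (∀ g : G, g ≠ 1 → IsCyclic (Subgroup.centralizer {g}))

/-- BLOCK I2: the axes of short loxodromic elements form a family. -/
def AxesStmt : Prop := ∃ c : ℕ, ∀ (δ ℓ A r p : ℕ) (G V : Type) [Group G] [GMet V]
  [MulAction G V] [IsomAct G V], 1 ≤ δ → 200 * δ ≤ ℓ → δ ≤ A → p.Prime → 3 ≤ p →
  Good δ ℓ A r p G V →
  (∀ (ρ R : ℕ) (hρ : 1 ≤ ρ) (hR : 1 ≤ R), Fam (axCone G V δ ρ R hρ hR) (c * A)) ∧
  (∀ (D : ℕ) (E : Ax G V δ) (e : G), e ∈ E.1 → e ≠ 1 → ∀ u : V, d u (e • u) ≤ D →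
    ∃ y ∈ YAx δ E, d u y ≤ c * (D + A)) ∧
  (∀ g : G, g ^ p ≠ 1 → (∃ x : V, d x (g • x) ≤ 100 * δ) → ∃ E : Ax G V δ, g ∈ E.1) ∧
  (∀ (E : Ax G V δ) (e : G), e ∈ E.1 → e ≠ 1 → Subgroup.centralizer {e} = E.1) ∧
  (∀ (g : G) (E : Ax G V δ), g • E = E ↔ g ∈ E.1) ∧
  (∀ (E : Ax G V δ) (h : G), h ∈ HAx p δ E ↔ ∃ e ∈ E.1, h = e ^ p) ∧
  (∀ (T : ℕ) (E : Ax G V δ) (h : G), r * T ≤ p → h ∈ HAx p δ E → h ≠ 1 →
    ∀ x : V, T ≤ d x (h • x))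

/-- BLOCK J (final assembly of S1, S2, S3, I): the step theorem. -/
def StepStmt : Prop := ∃ δ ℓ A r p0 : ℕ, 1 ≤ δ ∧ 1 ≤ r ∧ 4 * ℓ + 4 ≤ A ∧ 4 ≤ ℓ ∧
  ∀ p : ℕ, p.Prime → p0 ≤ p → ∀ (G V : Type) [Group G] [GMet V] [MulAction G V],
  Good δ ℓ A r p G V →
  ∃ (G' V' : Type) (_ : Group G') (_ : GMet V') (_ : MulAction G' V') (π : G →* G') (f : V → V'),
    Function.Surjective π ∧ Good δ ℓ A r p G' V' ∧ (∀ (g : G) (x : V), f (g • x) = π g • f x) ∧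
    (∀ x y : V, 2 * d (f x) (f y) ≤ d x y + 1) ∧
    (∀ g : G, π g = 1 → g ≠ 1 → ∀ x : V, 5 ≤ d x (g • x)) ∧
    (∀ (g : G) (x : V), d x (g • x) ≤ 1 → π g ^ p = 1) ∧
    (∀ g : G, π g = 1 → g ∈ Subgroup.closure (Set.range fun x : G => x ^ p))

/-- BLOCK K: iteration of the step theorem. -/
def BBStmt : Prop := ∃ δ ℓ A r p0 : ℕ, 1 ≤ r ∧ 4 * ℓ + 4 ≤ A ∧ 3 ≤ p0 ∧
  ∀ p : ℕ, p.Prime → p0 ≤ p → ∀ (K V : Type) [Group K] [GMet V] [MulAction K V],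
  Good δ ℓ A r p K V →
  ∃ (L : Type) (_ : Group L) (π : K →* L), Function.Surjective π ∧ (∀ x : L, x ^ p = 1) ∧
    (∀ x y : L, x ≠ 1 → x * y = y * x → y ∈ Subgroup.zpowers x) ∧
    (∀ g : K, π g = 1 → (∃ x : V, d x (g • x) ≤ 4) → g = 1) ∧
    (∀ g : K, π g = 1 → g ∈ Subgroup.closure (Set.range fun x : K => x ^ p))

/-- BLOCK L1: nice actions on trees are `Good`. -/
def TreeGoodStmt : Prop := ∀ (K V : Type) [Group K] [GMet V] [MulAction K V] (p : ℕ),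
  p.Prime → 3 ≤ p → Nonempty V → (∀ (g : K) (x y : V), d (g • x) (g • y) = d x y) → Hyp V 0 →
  (∀ x y z : V, Even (d x y + d y z + d z x)) →
  (∀ (g : K) (x : V), d x (g • x) = 1 → g • g • x ≠ x) →
  (∀ (g : K) (x y : V), g ≠ 1 → g • x = x → g • y = y → d x y ≤ 1) →
  (∀ (g : K) (x : V), g • x = x → g ^ p = 1) →
  (∀ (g h : K) (x : V), g ≠ 1 → g • x = x → h • x = x → g * h = h * g →
    h ∈ Subgroup.zpowers g) →
  ∀ δ ℓ A r : ℕ, 1 ≤ r → 4 * ℓ + 4 ≤ A → Good δ ℓ A r p K V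

/-- BLOCK L2: the Bass–Serre tree of an HNN extension (with the hypotheses that make the action
nice). -/
def HNNTreeStmt : Prop := ∀ (G : Type) [Group G] (A B : Subgroup G) (φ : A ≃* B) (p : ℕ),
  p.Prime → 3 ≤ p → (∀ g : G, g ^ p = 1) →
  (∀ x y : G, x ≠ 1 → x * y = y * x → y ∈ Subgroup.zpowers x) →
  (∀ g a : G, a ∈ A → a ≠ 1 → g * a * g⁻¹ ∈ A → g ∈ A) →
  (∀ g b : G, b ∈ B → b ≠ 1 → g * b * g⁻¹ ∈ B → g ∈ B) →
  (∀ g a : G, a ∈ A → g * a * g⁻¹ ∈ B → a = 1) →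
  ∃ (V : Type) (_ : GMet V) (_ : MulAction (HNNExtension G A B φ) V) (x0 : V),
    (∀ δ ℓ A' r : ℕ, 1 ≤ r → 4 * ℓ + 4 ≤ A' → Good δ ℓ A' r p (HNNExtension G A B φ) V) ∧
    (∀ g : G, (HNNExtension.of g : HNNExtension G A B φ) • x0 = x0) ∧
    d x0 ((HNNExtension.t : HNNExtension G A B φ) • x0) ≤ 1

/-- countable groups of exponent `p` in which nontrivial elements have centralizer of order `p`,
with a retraction-like homomorphism `r` to the cyclic group of order `p`. -/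
structure KGrp (p : ℕ) where
  G : Type
  [grp : Group G]
  cnt : Countable G
  expo : ∀ g : G, g ^ p = 1
  cen : ∀ x y : G, x ≠ 1 → x * y = y * x → y ∈ Subgroup.zpowers x
  r : G →* Multiplicative (ZMod p)
  h : G
  rh : r h = Multiplicative.ofAdd 1

attribute [instance] KGrp.grp

/-- embeddings of `KGrp`s -/
structure KHom {p : ℕ} (X Y : KGrp p) where
  f : X.G →* Y.G
  inj : Function.Injective f
  hr : ∀ g, Y.r (f g) = X.r g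
  hh : f X.h = Y.h

/-- BLOCK M1: one HNN step. -/
def OneStepStmt : Prop := ∃ p0 : ℕ, ∀ p : ℕ, p.Prime → p0 ≤ p →
  (∀ (X : KGrp p) (g : X.G), X.r g = Multiplicative.ofAdd 1 →
    ∃ (Y : KGrp p) (φ : KHom X Y), ∃ u : Y.G, u * φ.f g * u⁻¹ = Y.h) ∧
  (∃ (X : KGrp p) (g : X.G), X.r g = 1 ∧ g ≠ 1)

/-- BLOCK M2: the final group. -/
def FinalStmt : Prop := ∃ p : ℕ, p.Prime ∧ ∃ (X : KGrp p),
  (∃ g : X.G, X.r g = 1 ∧ g ≠ 1) ∧
  (∀ g : X.G, X.r g = Multiplicative.ofAdd 1 → ∃ u : X.G, u * g * u⁻¹ = X.h)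

end FrobP
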