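import Pool.Agent.Work.MP_50f8f6_al.Toolkit
import Pool.Agent.Work.MP_50f8f6_al.Interface

/-!
# Block I1: consequences of `Good`
-/

namespace FrobP
open GMet Subgroup

section alg

variable {G : Type} [Group G]

theorem mem_cent {a c : G} : a ∈ centralizer {c} ↔ a * c = c * a := by
  rw [mem_centralizer_singleton_iff]

theorem comm_of_cyclic {H : Subgroup G} (h : IsCyclic H) {a b : G} (ha : a ∈ H) (hb : b ∈ H) :
    a * b = b * a := by
  obtain ⟨e, rfl⟩ := (Subgroup.isCyclic_iff_exists_zpowers_eq_top H).1 h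
  obtain ⟨i, rfl⟩ := ha
  obtain ⟨j, rfl⟩ := hb
  change e ^ i * e ^ j = e ^ j * e ^ i
  rw [← zpow_add, ← zpow_add, add_comm]

/-- a nontrivial element `c` with cyclic centralizer commuting with its conjugate `g c g⁻¹` (also
with cyclic centralizer) commutes with `g`. -/
theorem norm_aux {p : ℕ} (hp : p.Prime) (hp3 : 3 ≤ p)
    (FO : ∀ g : G, IsOfFinOrder g → g ^ p = 1) {c g : G} (hc : c ≠ 1)
    (h1 : IsCyclic (centralizer {c})) (h2 : IsCyclic (centralizer {g * c * g⁻¹}))
    (h3 : c * (g * c * g⁻¹) = g * c * g⁻¹ * c) : g ∈ centralizer {c} := by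
  have hcc : c ∈ centralizer {c} := mem_cent.2 rfl
  have hgc : g * c * g⁻¹ ∈ centralizer {c} := mem_cent.2 h3.symm
  have heq : centralizer {c} = centralizer {g * c * g⁻¹} := by
    apply le_antisymm
    · intro a ha
      exact mem_cent.2 (comm_of_cyclic h1 ha hgc)
    · intro a ha
      exact mem_cent.2 (comm_of_cyclic h2 ha (mem_cent.2 h3))
  obtain ⟨e, he⟩ := (Subgroup.isCyclic_iff_exists_zpowers_eq_top (centralizer {c})).1 h1
  have hee : e ∈ centralizer {c} := by rw [← he]; exact mem_zpowers e
  -- conjugation by `g` preserves the centralizer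
  have hconj : ∀ a, a ∈ centralizer {c} ↔ g * a * g⁻¹ ∈ centralizer {c} := by
    intro a
    conv_rhs => rw [heq]
    rw [mem_cent, mem_cent]
    constructor
    · intro h
      calc g * a * g⁻¹ * (g * c * g⁻¹) = g * (a * c) * g⁻¹ := by group
        _ = g * (c * a) * g⁻¹ := by rw [h]
        _ = g * c * g⁻¹ * (g * a * g⁻¹) := by group
    · intro h
      calc a * c = g⁻¹ * (g * a * g⁻¹ * (g * c * g⁻¹)) * g := by group
        _ = g⁻¹ * (g * c * g⁻¹ * (g * a * g⁻¹)) * g := by rw [h]
        _ = c * a := by group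
  obtain ⟨u, hu⟩ : ∃ u : ℤ, e ^ u = g * e * g⁻¹ := by
    have := (hconj e).1 hee
    rw [← he] at this
    exact this
  obtain ⟨w, hw⟩ : ∃ w : ℤ, e ^ w = g⁻¹ * e * g := by
    have h4 : g⁻¹ * e * g ∈ centralizer {c} := by
      rw [hconj]
      have : g * (g⁻¹ * e * g) * g⁻¹ = e := by group
      rw [this]; exact hee
    rw [← he] at h4
    exact h4
  have huw : e ^ (u * w) = e := by
    rw [zpow_mul, hu, conj_zpow, hw]; group
  have comm_of : ∀ a : G, a * e = e * a → a ∈ centralizer {c} := by
    intro a ha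
    rw [mem_cent]
    rw [← he] at hcc
    obtain ⟨i, rfl⟩ := hcc
    exact (Commute.zpow_right (show Commute a e from ha) i).eq
  have hpow : ∀ k : ℕ, g ^ k * e * (g ^ k)⁻¹ = e ^ (u ^ k) := by
    intro k
    induction k with
    | zero => simp
    | succ k ih =>
      have h5 : g ^ (k + 1) * e * (g ^ (k + 1))⁻¹ = g * (g ^ k * e * (g ^ k)⁻¹) * g⁻¹ := by
        rw [pow_succ']; group
      rw [h5, ih, ← conj_zpow, ← hu, ← zpow_mul, pow_succ, mul_comm]
  by_cases hfin : IsOfFinOrder e
  · have hep : e ^ p = 1 := FO e hfin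
    have he1 : e ≠ 1 := by
      rintro rfl
      apply hc
      rw [← he] at hcc
      obtain ⟨i, hi⟩ := hcc
      rw [← hi]
      exact one_zpow i
    have hord : orderOf e = p := by
      have := Fact.mk hp
      exact orderOf_eq_prime hep he1
    have hmod : (p : ℤ) ∣ u * w - 1 := by
      rw [← hord, orderOf_dvd_iff_zpow_eq_one, zpow_sub, huw, zpow_one, mul_inv_cancel]
    have hcop : IsCoprime u (p : ℤ) := by
      obtain ⟨t, ht⟩ := hmod
      exact ⟨w, -t, by linear_combination ht⟩
    have hfer : (p : ℤ) ∣ u ^ (p - 1) - 1 := by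
      have h6 := Int.ModEq.pow_card_sub_one_eq_one hp hcop
      exact h6.symm.dvd
    have hfix : e ^ (u ^ (p - 1)) = e := by
      have hfer' : ((orderOf e : ℕ) : ℤ) ∣ u ^ (p - 1) - 1 := by rw [hord]; exact hfer
      rw [orderOf_dvd_iff_zpow_eq_one, zpow_sub, zpow_one] at hfer'
      exact mul_inv_eq_one.1 hfer'
    have hgp : g ^ (p - 1) ∈ centralizer {c} := by
      apply comm_of
      have h7 := hpow (p - 1)
      rw [hfix] at h7
      exact mul_inv_eq_iff_eq_mul.1 h7
    have hfg : (g ^ (p - 1)) ^ p = 1 := by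
      rw [← he] at hgp
      obtain ⟨i, hi⟩ := hgp
      rw [← hi]
      change (e ^ i) ^ p = 1
      rw [← zpow_natCast, ← zpow_mul, mul_comm, zpow_mul, zpow_natCast, hep, one_zpow]
    have hg1 : g ^ p = 1 := by
      apply FO
      rw [isOfFinOrder_iff_pow_eq_one]
      refine ⟨(p - 1) * p, Nat.mul_pos (by omega) (by omega), ?_⟩
      rw [pow_mul]; exact hfg
    have h8 : g = (g ^ (p - 1))⁻¹ * g ^ p := by
      rw [eq_inv_mul_iff_mul_eq, ← pow_succ]
      congr 1
      omega
    rw [h8, hg1, mul_one]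
    exact (centralizer {c}).inv_mem hgp
  · have hinj : ∀ i j : ℤ, e ^ i = e ^ j → i = j := fun i j h =>
      injective_zpow_iff_not_isOfFinOrder.2 hfin h
    have huw1 : u * w = 1 := hinj _ _ (by rw [huw, zpow_one])
    rcases Int.eq_one_or_neg_one_of_mul_eq_one huw1 with h | h
    · apply comm_of
      rw [h, zpow_one] at hu
      exact (mul_inv_eq_iff_eq_mul.1 hu.symm)
    · have hg2 : g ^ 2 ∈ centralizer {c} := by
        apply comm_of
        have h7 := hpow 2
        rw [h] at h7
        norm_num at h7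
        exact mul_inv_eq_iff_eq_mul.1 h7
      rw [← he] at hg2
      obtain ⟨j, hj⟩ := hg2
      have hj' : e ^ j = g ^ 2 := hj
      have h8 : e ^ j = e ^ (-j) := by
        have h9 : g * e ^ j * g⁻¹ = e ^ j := by rw [hj']; group
        rw [← conj_zpow, ← hu, h, ← zpow_mul] at h9
        rw [← h9]
        congr 1
        ring
      have h9 := hinj _ _ h8
      have h10 : j = 0 := by omega
      rw [h10, zpow_zero] at hj'
      have hg1 : g ^ p = 1 := FO g (isOfFinOrder_iff_pow_eq_one.2 ⟨2, by omega, hj'.symm⟩)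
      have hodd : Odd p := hp.odd_of_ne_two (by omega)
      obtain ⟨t, ht⟩ := hodd
      have h11 : g = 1 := by
        rw [ht, pow_succ, pow_mul, ← hj', one_pow, one_mul] at hg1
        exact hg1
      rw [h11]
      exact (centralizer {c}).one_mem

end alg

section good

variable {δ ℓ A r p : ℕ} {G V : Type} [Group G] [GMet V] [MulAction G V]

/-- elements of finite order have order dividing `p` -/
theorem Good.fo (h : Good δ ℓ A r p G V) (g : G) (hg : IsOfFinOrder g) : g ^ p = 1 := by
  rcases h.dich g with h1 | h1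
  · exact h1.1
  · exfalso
    obtain ⟨x⟩ := h.ne
    obtain ⟨n, hn, hn'⟩ := isOfFinOrder_iff_pow_eq_one.1 hg
    have := h1 x n
    rw [hn', one_smul, d_self] at this
    omega

variable [IsomAct G V]

/-- coboundedness for arbitrary displacement -/
theorem Good.cbgen (h : Good δ ℓ A r p G V) (hδ : 1 ≤ δ) (hℓ : 200 * δ ≤ ℓ) {D : ℕ} {g : G}
    (hg : g ≠ 1) {x y : V} (hx : d x (g • x) ≤ D) (hy : d y (g • y) ≤ D) :
    ∃ k : ℤ, d (g ^ k • x) y ≤ 3 * D + 100 * δ + A := by
  by_cases hfar : d x y ≤ 2 * (D + 13 * δ)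
  · refine ⟨0, ?_⟩
    rw [zpow_zero, one_smul]; omega
  · obtain ⟨z, hz, hxz⟩ := exists_bt x y (k := D + 13 * δ) (by omega)
    obtain ⟨w, hw, hwy⟩ := exists_bt' x y (k := D + 13 * δ) (by omega)
    have hz' := hz
    have hw' := hw
    unfold Bt at hz' hw'
    have dz := h.hyp.l8md hx hy hz (by omega) (by omega)
    have dw := h.hyp.l8md hx hy hw (by omega) (by omega)
    have hmd := md_le (V := V) g x
    have key : ∀ k : ℤ, d (g ^ k • x) y ≤ d (g ^ k • z) w + 2 * (D + 13 * δ) := by
      intro k
      have t1 := tri (g ^ k • x) (g ^ k • z) y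
      have t2 := tri (g ^ k • z) w y
      have e1 := FrobP.isom (g ^ k) x z
      omega
    by_cases hm : md V g ≤ 100 * δ
    · obtain ⟨k, hk⟩ := h.cb g hg z w (by omega) (by omega)
      exact ⟨k, by have := key k; omega⟩
    · obtain ⟨k, hk⟩ := h.hyp.l6md (g := g) (x := z) (y := w) (by omega) (by omega) (by omega)
        (by omega)
      exact ⟨k, by have := key k; omega⟩

/-- commutation for arbitrary displacement -/
theorem Good.gac (h : Good δ ℓ A r p G V) (hp : p.Prime) (hp3 : 3 ≤ p)
    (hℓ : 200 * δ ≤ ℓ) {D : ℕ} {g k : G} {x y : V} (hgx : d x (g • x) ≤ D)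
    (hgy : d y (g • y) ≤ D) (hkx : d x (k • x) ≤ D) (hky : d y (k • y) ≤ D)
    (hd : 10 * D + 20 * δ + A ≤ d x y) : g * k = k * g := by
  obtain ⟨z, hz, hxz⟩ := exists_bt x y (k := 5 * D + 10 * δ) (by omega)
  obtain ⟨w, hw, hwy⟩ := exists_bt' x y (k := 5 * D + 10 * δ) (by omega)
  have hz' := hz
  have hw' := hw
  unfold Bt at hz' hw'
  have hzw : A ≤ d z w := by
    have := tri x z y
    have := tri z w y
    omega
  obtain ⟨z1, z2, z3⟩ := h.hyp.com hgx hgy hkx hky hz (by omega) (by omega)
  obtain ⟨w1, w2, w3⟩ := h.hyp.com hgx hgy hkx hky hw (by omega) (by omega)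
  set c := g * k * g⁻¹ * k⁻¹ with hc
  by_cases hc1 : c = 1
  · rw [hc, mul_inv_eq_one, mul_inv_eq_iff_eq_mul] at hc1
    exact hc1
  · have hcen : IsCyclic (centralizer {c}) := h.cen c hc1 ⟨z, by omega⟩
    have hne : ∀ a : G, a * c * a⁻¹ ≠ 1 := by
      intro a ha
      apply hc1
      rw [mul_inv_eq_one] at ha
      exact mul_eq_left.1 ha
    have key : ∀ a : G, d z ((a * c * a⁻¹) • z) ≤ 26 * δ → d w ((a * c * a⁻¹) • w) ≤ 26 * δ →
        a ∈ centralizer {c} := by
      intro a ha hb
      have hcomm := h.ac c (a * c * a⁻¹) hc1 (hne a) z w (by omega) (by omega) (by omega)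
        (by omega) hzw
      exact norm_aux hp hp3 (fun b hb => h.fo b hb) hc1 hcen (h.cen _ (hne a) ⟨z, by omega⟩) hcomm
    exact comm_of_cyclic hcen (key g z2 w2) (key k z3 w3)

/-- all centralizers of nontrivial elements are cyclic -/
theorem Good.cenall (h : Good δ ℓ A r p G V) (hp : p.Prime) (hp3 : 3 ≤ p) (hδ : 1 ≤ δ)
    (hℓ : 200 * δ ≤ ℓ) (g : G) (hg : g ≠ 1) : IsCyclic (centralizer {g}) := by
  have hne := h.ne
  -- induction on the displacement
  have key : ∀ n : ℕ, ∀ g : G, g ≠ 1 → (∃ x : V, d x (g • x) ≤ n) →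
      IsCyclic (centralizer {g}) := by
    intro n
    induction n with
    | zero =>
      intro g hg ⟨x, hx⟩
      exact h.cen g hg ⟨x, by omega⟩
    | succ n ih =>
      intro g hg ⟨x0, hx0⟩
      by_cases hsmall : ∃ x : V, d x (g • x) ≤ ℓ
      · exact h.cen g hg hsmall
      · push Not at hsmall
        obtain ⟨x, hx⟩ := exists_md (V := V) g
        have hm : ℓ < md V g := by rw [← hx]; exact hsmall x
        have hmn : md V g ≤ n + 1 := (md_le g x0).trans hx0
        -- the centralizer is abelian
        have hab : ∀ u ∈ centralizer {g}, ∀ v ∈ centralizer {g}, u * v = v * u := by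
          intro u hu v hv
          rw [mem_cent] at hu hv
          set D := d x (u • x) + d x (v • x) with hD
          set m := 10 * D + 20 * δ + A with hmdef
          have h4 := h.hyp.l4 (g := g) (by omega) x m
          have h5 : m * 1 ≤ m * (md V g - 6 * δ) := Nat.mul_le_mul_left m (by omega)
          have e1 : d (g ^ m • x) (u • g ^ m • x) = d x (u • x) :=
            disp_comm ((show Commute g u from hu.symm).pow_left m).eq x
          have e2 : d (g ^ m • x) (v • g ^ m • x) = d x (v • x) :=
            disp_comm ((show Commute g v from hv.symm).pow_left m).eq x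
          exact h.gac hp hp3 hℓ (D := D) (x := x) (y := g ^ m • x) (by omega) (by omega)
            (by omega) (by omega) (by omega)
        by_cases hall : ∀ u ∈ centralizer {g}, u ∈ zpowers g
        · have heq : zpowers g = centralizer {g} := by
            apply le_antisymm
            · rw [zpowers_le]; exact mem_cent.2 rfl
            · exact hall
          exact (Subgroup.isCyclic_iff_exists_zpowers_eq_top (centralizer {g})).2 ⟨g, heq⟩
        · push Not at hall
          obtain ⟨u, hu, hun⟩ := hall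
          have huc := mem_cent.1 hu
          have hux : d (u • x) (g • u • x) = d x (g • x) := disp_comm huc x
          obtain ⟨k, hk⟩ := h.hyp.l6md (g := g) (x := u • x) (y := x) (by omega) (by omega)
            (by omega) (by omega)
          set w := g ^ k * u with hw
          have hwc : w ∈ centralizer {g} :=
            (centralizer {g}).mul_mem ((centralizer {g}).zpow_mem (mem_cent.2 rfl) k) hu
          have hw1 : w ≠ 1 := by
            intro hw1
            apply hun
            rw [hw, mul_eq_one_iff_inv_eq] at hw1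
            rw [← hw1]
            exact (zpowers g).inv_mem (zpow_mem (mem_zpowers g) k)
          have hdw : d x (w • x) ≤ n := by
            rw [hw, mul_smul, GMet.symm]
            omega
          have hcw := ih w hw1 ⟨x, hdw⟩
          have hle : centralizer {g} ≤ centralizer {w} := by
            intro a ha
            exact mem_cent.2 (hab a ha w hwc)
          exact isCyclic_of_injective (inclusion hle) (inclusion_injective hle)
  obtain ⟨x⟩ := h.ne
  exact key _ g hg ⟨x, le_rfl⟩

end good

/-- BLOCK I1 -/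
theorem class_stmt : ClassStmt := by
  refine ⟨200, ?_⟩
  intro δ ℓ A r p G V _ _ _ _ hδ hℓ hA hp hp3 h
  refine ⟨?_, ?_, ?_⟩
  · intro D g hg x y hx hy
    obtain ⟨k, hk⟩ := h.cbgen hδ hℓ hg hx hy
    exact ⟨k, by omega⟩
  · intro D g k _ _ x y h1 h2 h3 h4 h5
    exact h.gac hp hp3 hℓ h1 h2 h3 h4 (by omega)
  · exact h.cenall hp hp3 hδ hℓ

end FrobP
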