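import Pool.Agent.Work.MP_50f8f6_al.S1Defs

/-!
# Block S1: B1a (thin triangles, arch points), from F1, F2 and B1b
-/

namespace FrobP
open GMet

namespace S1
variable {V ι : Type} [GMet V] (C : ConeData V ι)

theorem vlA_zero (i : ι) (y : V) (hy : y ∈ C.Y i) : vl C i y hy 0 = Cone.base C y := by
  simp [vl]

theorem vlA_lev (i : ι) (y : V) (hy : y ∈ C.Y i) {k : ℕ} (h1 : 1 ≤ k) (h2 : k ≤ C.ρ) :
    vl C i y hy k = Cone.lev C i y k hy h1 h2 := by
  have h0 : k ≠ 0 := by omega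
  simp [vl, h0, h2]

theorem vlA_apex (i : ι) (y : V) (hy : y ∈ C.Y i) {k : ℕ} (h1 : C.ρ < k) :
    vl C i y hy k = Cone.apex C i := by
  have h0 : k ≠ 0 := by omega
  have h2 : ¬ k ≤ C.ρ := by omega
  simp [vl, h0, h2]

theorem d_vl_succ (i : ι) (y : V) (hy : y ∈ C.Y i) (k : ℕ) :
    d (vl C i y hy k) (vl C i y hy (k + 1)) ≤ 1 := by
  have hρ := C.hρ
  rcases Nat.eq_zero_or_pos k with hk | hk
  · subst hk
    rw [vlA_zero, vlA_lev C i y hy (k := 0 + 1) (by omega) (by omega)]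
    exact Cone.d_le_one_of_edge (CV.Edge.up0 i y)
  · rcases Nat.lt_trichotomy k C.ρ with h | h | h
    · rw [vlA_lev C i y hy hk (by omega), vlA_lev C i y hy (k := k + 1) (by omega) (by omega)]
      exact Cone.d_le_one_of_edge (CV.Edge.up i y k)
    · rw [vlA_lev C i y hy hk (by omega), vlA_apex C i y hy (k := k + 1) (by omega)]
      subst h
      exact Cone.d_le_one_of_edge (CV.Edge.top i y)
    · rw [vlA_apex C i y hy h, vlA_apex C i y hy (k := k + 1) (by omega), d_self]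
      omega

theorem d_vl_hor (i : ι) {y z : V} (hy : y ∈ C.Y i) (hz : z ∈ C.Y i) {k : ℕ}
    (h : d y z ≤ 2 ^ k * C.R) : d (vl C i y hy k) (vl C i z hz k) ≤ 1 := by
  rcases Nat.eq_zero_or_pos k with hk | hk
  · subst hk
    rw [vlA_zero, vlA_zero]
    exact Cone.d_le_one_of_edge (CV.Edge.base y z (by simpa using h))
  · by_cases hk2 : k ≤ C.ρ
    · rw [vlA_lev C i y hy hk hk2, vlA_lev C i z hz hk hk2]
      exact Cone.d_le_one_of_edge (CV.Edge.hor i y z k h)
    · rw [vlA_apex C i y hy (by omega), vlA_apex C i z hz (by omega), d_self]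
      omega

theorem mem_LL_left {v w : Cone C} {i : ι} {k : ℕ} (h : InArch C i v w k) (hk : lv C i v ≤ k) :
    vl C i (av C i v) (av_mem C i v) k ∈ LL C v w := Or.inr (Or.inl ⟨i, k, h, hk, rfl⟩)

theorem mem_LL_right {v w : Cone C} {i : ι} {k : ℕ} (h : InArch C i v w k) (hk : lv C i w ≤ k) :
    vl C i (av C i w) (av_mem C i w) k ∈ LL C v w := Or.inr (Or.inr ⟨i, k, h, hk, rfl⟩)

theorem mem_LL_base {v w : Cone C} {z : V} (h : Vis C v w z) : Cone.base C z ∈ LL C v w :=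
  Or.inl ⟨z, h, rfl⟩

/-- a visible point near `a_v`, if the angle is between `R` and `2R` and both levels are zero -/
theorem exists_vis (F1 : F1Stmt) {K θ : ℕ} (hF : Fam C θ) (hR : 200 * θ ≤ C.R)
    (hK : K * θ ≤ C.R)
    (F2 : ∀ (V ι : Type) [GMet V] (C : ConeData V ι) (θ : ℕ), Fam C θ →
      K * θ ≤ C.R → ∀ (i j : ι) (v w : Cone C) (z z' : V), Bt (S1.be C v) z (S1.be C w) →
      Bt (S1.be C v) z' (S1.be C w) → d z z' ≤ 1 → ¬ S1.VisI C i v w z →
      ¬ S1.VisI C j v w z' → i = j)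
    (i : ι) (v w : Cone C) (h0v : lv C i v = 0) (h0w : lv C i w = 0)
    (h1 : C.R < d (av C i v) (av C i w)) (h2 : d (av C i v) (av C i w) ≤ 2 * C.R) :
    ∃ z, Vis C v w z ∧ d z (av C i v) ≤ 3 * C.R := by
  classical
  have hθ := hF.one_le
  have hV := hF.hyp
  have hQ := hF.qc i
  have pv : Pr (C.Y i) (be C v) (av C i v) := pj_spec C i _
  have pw : Pr (C.Y i) (be C w) (av C i w) := pj_spec C i _
  obtain ⟨z1, hz1, hz1a⟩ := pv.p5 hV hθ hQ pw (by omega)
  have p1 : Pr (C.Y i) z1 (pj C i z1) := pj_spec C i z1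
  have q1 := p1.2 _ pv.1
  have t1 := tri (pj C i z1) z1 (av C i v)
  have s1 := GMet.symm (pj C i z1) z1
  have t2 := tri (av C i v) (pj C i z1) (av C i w)
  have s2 := GMet.symm (av C i v) (pj C i z1)
  have s3 := GMet.symm (av C i w) (pj C i z1)
  obtain ⟨z2, hz2, hz2a⟩ := pw.p5 hV hθ hQ p1 (by omega)
  have hz2' := hz2.symm'
  have hz12 := hz1.trans_right hz2'
  have p2 : Pr (C.Y i) z2 (pj C i z2) := pj_spec C i z2
  have q2 := p2.2 _ pw.1
  have t3 := tri (pj C i z2) z2 (av C i w)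
  have s4 := GMet.symm (pj C i z2) z2
  -- distance
  have t4 := tri z1 (av C i v) z2
  have t5 := tri (av C i v) (av C i w) z2
  have s5 := GMet.symm (av C i w) z2
  have hd12 : d z1 z2 ≤ 2 * C.R + 36 * θ := by omega
  -- every point of [z1,z2] lies in [βv,βw]
  have hmem : ∀ z, Bt z1 z z2 → Bt (be C v) z (be C w) := by
    intro z hz
    have e1 := hz2'.trans_left hz
    exact (hz1.trans_right e1.1).1
  by_contra hno
  push Not at hno
  -- nonvisible points
  have hsh : ∀ z, Bt z1 z z2 → ∃ j, j ≠ i ∧ ¬ VisI C j v w z := by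
    intro z hz
    have hz' := hz
    unfold Bt at hz'
    have hnv : ¬ Vis C v w z := by
      intro hv
      have := hno z hv
      have t := tri z z1 (av C i v)
      have s := GMet.symm z z1
      omega
    have hex : ∃ j, ¬ VisI C j v w z := by
      by_contra hcon
      push Not at hcon
      exact hnv ⟨hmem z hz, fun j _ => hcon j⟩
    obtain ⟨j, hj⟩ := hex
    refine ⟨j, ?_, hj⟩
    rintro rfl
    apply hj
    have pz : Pr (C.Y j) z (pj C j z) := pj_spec C j z
    have l1 := pz.p4 hV hθ hQ p1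
    have l2 := pz.p4 hV hθ hQ p2
    have s := GMet.symm z z1
    have ta := tri (pj C j z) (pj C j z1) (av C j v)
    have tb := tri (pj C j z) (pj C j z2) (av C j w)
    by_cases hc : d z1 z ≤ C.R + 20 * θ
    · exact Or.inl ⟨h0v, by omega⟩
    · exact Or.inr ⟨h0w, by omega⟩
  obtain ⟨j0, hj0i, hj0⟩ := hsh z1 (Bt.left _ _)
  have hall : ¬ VisI C j0 v w z2 := by
    intro hvis
    obtain ⟨j, hji, hj⟩ := hsh z2 (Bt.right _ _)
    have hne : j ≠ j0 := by rintro rfl; exact hj hvis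
    obtain ⟨a, b, ha, hb, hPa, ⟨j', hj'0, hj'⟩, hab⟩ := exists_switch (x := z1) (y := z2)
      (fun z => ¬ VisI C j0 v w z) (fun z => ∃ j, j ≠ j0 ∧ ¬ VisI C j v w z) hj0 ⟨j, hne, hj⟩
      (fun z hz => by
        obtain ⟨j', _, hj'⟩ := hsh z hz
        by_cases hc : j' = j0
        · subst hc; exact Or.inl hj'
        · exact Or.inr ⟨j', hc, hj'⟩)
    exact hj'0 (F2 V ι C θ hF hK j0 j' v w a b (hmem a ha) (hmem b (ha.trans_right hb).1) hab
      hPa hj').symm
  -- both ends are close to `Y j0`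
  have f1 := F1 V ι C θ hF (by omega) j0 v w z1 (hmem z1 (Bt.left _ _)) hj0
  have f2 := F1 V ι C θ hF (by omega) j0 v w z2 (hmem z2 (Bt.right _ _)) hall
  have m1 : pj C j0 z1 ∈ C.Y j0 := pj_mem C j0 z1
  have m2 : pj C j0 z2 ∈ C.Y j0 := pj_mem C j0 z2
  have hs := hF.small i j0 hj0i.symm _ m1 _ m2
  have r1 : Pr (C.Y i) (pj C j0 z1) (pj C i (pj C j0 z1)) := pj_spec C i _
  have r2 : Pr (C.Y i) (pj C j0 z2) (pj C i (pj C j0 z2)) := pj_spec C i _
  have g1 := le_prd r1 r2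
  have g2 := p1.p4 hV hθ hQ r1
  have g3 := r2.p4 hV hθ hQ p2
  have s6 := GMet.symm (pj C j0 z2) z2
  have t6 := tri (av C i v) (pj C i z1) (pj C i (pj C j0 z1))
  have t7 := tri (av C i v) (pj C i (pj C j0 z1)) (pj C i (pj C j0 z2))
  have t8 := tri (av C i v) (pj C i (pj C j0 z2)) (pj C i z2)
  have t9 := tri (av C i v) (pj C i z2) (av C i w)
  omega

end S1

theorem S1.b1a (F1 : S1.F1Stmt) (F2 : S1.F2Stmt) (B1b : S1.B1bStmt) : S1.B1aStmt := by
  obtain ⟨K, F2⟩ := F2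
  obtain ⟨Kb, hb, B1b⟩ := B1b
  refine ⟨K + Kb + 200, hb + 10, ?_⟩
  intro V ι _ C θ hF hR v w u i k hA hkv
  have e1 : K * θ ≤ C.R := le_trans (Nat.mul_le_mul_right _ (by omega)) hR
  have e2 : Kb * θ ≤ C.R := le_trans (Nat.mul_le_mul_right _ (by omega)) hR
  have e3 : 200 * θ ≤ C.R := le_trans (Nat.mul_le_mul_right _ (by omega)) hR
  by_cases hvu : S1.InArch C i v u k
  · exact ⟨_, Or.inl (S1.mem_LL_left C hvu hkv), by rw [d_self]; omega⟩
  obtain ⟨hk1, hk2, hA3⟩ := hA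
  have hvu' : ¬ k ≤ S1.lv C i v ∧ ¬ k ≤ S1.lv C i u ∧
      d (S1.av C i v) (S1.av C i u) ≤ 2 ^ (k - 1) * C.R := by
    refine ⟨fun h => hvu ⟨hk1, hk2, Or.inl h⟩, fun h => hvu ⟨hk1, hk2, Or.inr (Or.inl h)⟩, ?_⟩
    by_contra h
    push Not at h
    exact hvu ⟨hk1, hk2, Or.inr (Or.inr h)⟩
  obtain ⟨n1, n2, n3⟩ := hvu'
  have hpow : 2 ^ (k - 1) * C.R ≤ 2 ^ k * C.R :=
    Nat.mul_le_mul_right _ (Nat.pow_le_pow_right (by omega) (by omega))
  by_cases hkw : k ≤ S1.lv C i w
  · refine ⟨_, Or.inr (S1.mem_LL_left C (v := u) (w := w) (i := i) (k := k)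
      ⟨hk1, hk2, Or.inr (Or.inl hkw)⟩ (by omega)), ?_⟩
    have := S1.d_vl_hor C i (S1.av_mem C i v) (S1.av_mem C i u) (k := k) (by omega)
    omega
  have hvw : 2 ^ (k - 1) * C.R < d (S1.av C i v) (S1.av C i w) := by
    rcases hA3 with h | h | h
    · exact absurd h n1
    · exact absurd h hkw
    · exact h
  have tvuw := tri (S1.av C i v) (S1.av C i u) (S1.av C i w)
  by_cases hk : k = 1
  · subst hk
    have hp : (2:ℕ) ^ (1 - 1) * C.R = C.R := by norm_num
    rw [hp] at hvw n3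
    by_cases huw : S1.InArch C i u w 1
    · refine ⟨_, Or.inr (S1.mem_LL_left C (v := u) (w := w) (i := i) (k := 1) huw (by omega)), ?_⟩
      have := S1.d_vl_hor C i (S1.av_mem C i v) (S1.av_mem C i u) (k := 1) (by omega)
      omega
    · have huw' : d (S1.av C i u) (S1.av C i w) ≤ C.R := by
        by_contra h
        push Not at h
        exact huw ⟨hk1, hk2, Or.inr (Or.inr (by rw [hp]; exact h))⟩
      obtain ⟨z, hz, hzd⟩ := S1.exists_vis C F1 hF e3 e1 F2 i v w (by omega) (by omega) hvw (by omega)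
      obtain ⟨z', hz', hd⟩ := B1b V ι C θ hF e2 v w u z hz
      refine ⟨z', hz', ?_⟩
      have c1 := Cone.base_le C 3 z (S1.av C i v) hzd
      have c2 : d (Cone.base C (S1.av C i v))
          (S1.vl C i (S1.av C i v) (S1.av_mem C i v) 1) ≤ 1 := by
        have c2 := S1.d_vl_succ C i (S1.av C i v) (S1.av_mem C i v) 0
        rw [S1.vlA_zero] at c2
        exact c2
      have t1 := tri (S1.vl C i (S1.av C i v) (S1.av_mem C i v) 1) (Cone.base C (S1.av C i v)) z'
      have t2 := tri (Cone.base C (S1.av C i v)) (Cone.base C z) z'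
      have s1 := GMet.symm (S1.vl C i (S1.av C i v) (S1.av_mem C i v) 1)
        (Cone.base C (S1.av C i v))
      have s2 := GMet.symm (Cone.base C (S1.av C i v)) (Cone.base C z)
      omega
  · obtain ⟨m, rfl⟩ : ∃ m, k = m + 2 := ⟨k - 2, by omega⟩
    have c1 : d (S1.vl C i (S1.av C i v) (S1.av_mem C i v) (m + 2))
        (S1.vl C i (S1.av C i v) (S1.av_mem C i v) (m + 1)) ≤ 1 := by
      rw [GMet.symm]
      exact S1.d_vl_succ C i (S1.av C i v) (S1.av_mem C i v) (m + 1)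
    by_cases hvu1 : S1.InArch C i v u (m + 1)
    · exact ⟨_, Or.inl (S1.mem_LL_left C hvu1 (by omega)), by omega⟩
    · have g : d (S1.av C i v) (S1.av C i u) ≤ 2 ^ m * C.R := by
        by_contra h
        push Not at h
        exact hvu1 ⟨by omega, by omega, Or.inr (Or.inr (by simpa using h))⟩
      have hl : S1.lv C i u ≤ m := by
        by_contra h
        push Not at h
        exact hvu1 ⟨by omega, by omega, Or.inr (Or.inl (by omega))⟩
      have hp1 : (2:ℕ) ^ (m + 2 - 1) * C.R = 2 * (2 ^ m * C.R) := by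
        have : m + 2 - 1 = m + 1 := by omega
        rw [this, pow_succ]; ring
      rw [hp1] at hvw
      have hp2 : (2:ℕ) ^ (m + 1) * C.R = 2 * (2 ^ m * C.R) := by rw [pow_succ]; ring
      refine ⟨_, Or.inr (S1.mem_LL_left C (v := u) (w := w) (i := i) (k := m + 1)
        ⟨by omega, by omega, Or.inr (Or.inr ?_)⟩ (by omega)), ?_⟩
      · have : m + 1 - 1 = m := by omega
        rw [this]
        omega
      · have c2 := S1.d_vl_hor C i (S1.av_mem C i v) (S1.av_mem C i u) (k := m + 1) (by omega)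
        have t1 := tri (S1.vl C i (S1.av C i v) (S1.av_mem C i v) (m + 2))
          (S1.vl C i (S1.av C i v) (S1.av_mem C i v) (m + 1))
          (S1.vl C i (S1.av C i u) (S1.av_mem C i u) (m + 1))
        omega

end FrobP
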