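import Pool.Agent.Work.MP_50f8f6_al.S1Main
import Pool.Agent.Work.MP_50f8f6_al.S1B1a
import Pool.Agent.Work.MP_50f8f6_al_helper35.F12B0
import Pool.Agent.Work.MP_50f8f6_al_helper43.B1b
import Pool.Agent.Work.MP_50f8f6_al_helper22.B2
import Pool.Agent.Work.MP_50f8f6_al_helper22.E2

/-!
# Block S1: final
-/

namespace FrobP

theorem s1 : S1Stmt :=
  s1_of S1.s1_b0 (S1.b1a S1.s1_f1 S1.s1_f2 (stmt_B1b S1.s1_f1)) (stmt_B1b S1.s1_f1) s1B2 s1E2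

end FrobP
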