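import Pool.Agent.Work.MP_50f8f6_al.Defs

/-!
# Block A: basic lemmas in integer hyperbolic spaces
-/

namespace FrobP
open GMet

variable {V : Type} [GMet V] {δ : ℕ}

theorem Bt.symm' {x z y : V} (h : Bt x z y) : Bt y z x := by
  unfold Bt at *
  rw [GMet.symm y z, GMet.symm z x, GMet.symm y x]; omega

theorem Bt.left (x y : V) : Bt x x y := by unfold Bt; rw [d_self]; omega
theorem Bt.right (x y : V) : Bt x y y := by unfold Bt; rw [d_self]; omega

theorem exists_bt (x y : V) {k : ℕ} (hk : k ≤ d x y) : ∃ z, Bt x z y ∧ d x z = k := by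
  obtain ⟨z, h1, h2⟩ := geo x y k hk
  exact ⟨z, by unfold Bt; omega, h1⟩

theorem exists_bt' (x y : V) {k : ℕ} (hk : k ≤ d x y) : ∃ z, Bt x z y ∧ d z y = k := by
  obtain ⟨z, h1, h2⟩ := geo x y (d x y - k) (by omega)
  exact ⟨z, by unfold Bt; omega, by omega⟩

theorem Bt.d_left_le {x z y : V} (h : Bt x z y) : d x z ≤ d x y := by unfold Bt at h; omega
theorem Bt.d_right_le {x z y : V} (h : Bt x z y) : d z y ≤ d x y := by unfold Bt at h; omega

/-- `z` between `x,y` and `u` between `x,z`: then `u` between `x,y` and `z` between `u,y`. -/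
theorem Bt.trans_left {x u z y : V} (h : Bt x z y) (h' : Bt x u z) : Bt x u y ∧ Bt u z y := by
  unfold Bt at *
  have h1 := tri u z y
  have h2 := tri x u y
  omega

theorem Bt.trans_right {x u z y : V} (h : Bt x z y) (h' : Bt z u y) : Bt x u y ∧ Bt x z u := by
  unfold Bt at *
  have h1 := tri x z u
  have h2 := tri x u y
  omega

/-- (H1) distance to a point of an interval -/
theorem Hyp.h1 (h : Hyp V δ) {x z y : V} (_hz : Bt x z y) (w : V) :
    d w z + d x y ≤ max (d w x + d z y) (d w y + d x z) + 2 * δ := by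
  have := h w z x y
  rw [GMet.symm z x] at this
  exact this

/-- two points almost on the interval `[x,y]` -/
theorem Hyp.pp (h : Hyp V δ) (x y w w' : V) :
    d w w' + d x y ≤ max (d x w + d w' y) (d w y + d x w') + 2 * δ := by
  have := h w w' x y
  rw [GMet.symm w x, GMet.symm w' x] at this
  exact this

/-- (H2) intervals are `4δ`-slim -/
theorem Hyp.slim (h : Hyp V δ) : Slim V (4 * δ) := by
  intro x y w z hz
  have hz' := hz
  unfold Bt at hz
  by_cases hc : 2 * d x z + d w y ≤ d x y + d x w
  · -- choose u on [x,w] with d x u = d x z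
    have hle : d x z ≤ d x w := by
      have := tri x w y
      have := tri w x y
      have := tri x z w
      have := tri w z y
      rw [GMet.symm w x] at *
      omega
    obtain ⟨u, hu, hxu⟩ := exists_bt x w hle
    refine ⟨u, Or.inl hu, ?_⟩
    have e1 := h.h1 hz' u
    have e2 := h.h1 hu y
    unfold Bt at hu
    rw [GMet.symm u z, GMet.symm u x] at e1
    rw [GMet.symm y u, GMet.symm y x, GMet.symm y w] at e2
    omega
  · -- choose u on [w,y] with d u y = d z y
    have hle : d z y ≤ d w y := by
      have := tri w z y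
      have := tri x w y
      have := tri w x y
      rw [GMet.symm w x] at *
      omega
    obtain ⟨u, hu, hxu⟩ := exists_bt' w y hle
    refine ⟨u, Or.inr hu, ?_⟩
    have e1 := h.h1 hz' u
    have e2 := h.h1 hu x
    unfold Bt at hu
    rw [GMet.symm u z, GMet.symm u x] at e1
    omega

/-- discrete intermediate step along an interval: if `P` holds at `x` and `Q` at `y` and every
point satisfies `P` or `Q`, there are adjacent points. -/
theorem exists_switch {x y : V} (P Q : V → Prop) (hx : P x) (hy : Q y)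
    (hPQ : ∀ z, Bt x z y → P z ∨ Q z) :
    ∃ u v, Bt x u y ∧ Bt u v y ∧ P u ∧ Q v ∧ d u v ≤ 1 := by
  classical
  -- induct on the distance
  have key : ∀ n : ℕ, ∀ u, Bt x u y → P u → d u y = n →
      ∃ u v, Bt x u y ∧ Bt u v y ∧ P u ∧ Q v ∧ d u v ≤ 1 := by
    intro n
    induction n with
    | zero =>
      intro u hu hPu hd
      have : u = y := eq_of_d _ _ hd
      subst this
      exact ⟨u, u, hu, Bt.left _ _, hPu, hy, by rw [d_self]; omega⟩
    | succ n ih =>
      intro u hu hPu hd
      obtain ⟨v, hv, huv⟩ := exists_bt u y (k := 1) (by omega)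
      have hxv := hu.trans_right hv
      rcases hPQ v hxv.1 with h | h
      · exact ih v hxv.1 h (by unfold Bt at hv; omega)
      · exact ⟨u, v, hu, hv, hPu, h, by omega⟩
  exact key _ x (Bt.left _ _) hx rfl

/-- (H3) slim intervals imply the four point condition -/
theorem Slim.hyp {s : ℕ} (h : Slim V s) : Hyp V (3 * s + 1) := by
  -- key: for all w x z there is u on [x,z] with 2 d(w,u) ≤ d w x + d w z - d x z + 4 s + 2
  have key : ∀ w x z : V, ∃ u, Bt x u z ∧ 2 * d w u + d x z ≤ d w x + d w z + 4 * s + 2 := by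
    intro w x z
    obtain ⟨u, v, hu, hv, ⟨u1, hu1, hu1'⟩, ⟨v1, hv1, hv1'⟩, huv⟩ := exists_switch (x := x) (y := z)
      (fun a => ∃ b, Bt x b w ∧ d a b ≤ s) (fun a => ∃ b, Bt w b z ∧ d a b ≤ s)
      ⟨x, Bt.left _ _, by rw [d_self]; omega⟩ ⟨z, Bt.right _ _, by rw [d_self]; omega⟩
      (fun a ha => by
        obtain ⟨b, hb, hb'⟩ := h x z w a ha
        rcases hb with hb | hb
        · exact Or.inl ⟨b, hb, hb'⟩
        · exact Or.inr ⟨b, hb, hb'⟩)
    refine ⟨u, hu, ?_⟩
    unfold Bt at *
    have t1 := tri w u1 u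
    have t2 := tri x u1 u
    have t3 := tri w v1 u
    have t4 := tri v1 v u
    have t5 := tri u v1 z
    have t6 := tri u v z
    have t7 := tri v v1 z
    rw [GMet.symm u1 u] at t1 t2
    rw [GMet.symm v1 v, GMet.symm v u] at t4
    rw [GMet.symm w x, GMet.symm u1 w] at *
    omega
  intro x y z w
  -- 4PC: d x y + d z w ≤ max (d x z + d y w) (d x w + d y z) + ...
  -- base point w, points x, y and z
  obtain ⟨u, hu, hd⟩ := key w x y
  obtain ⟨v, hv, hv'⟩ := h x y z u hu
  have t1 := tri w u v
  have t2 := tri w v z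
  have t3 := tri w v x
  have t4 := tri w v y
  have s1 := GMet.symm w z
  have s2 := GMet.symm w x
  have s3 := GMet.symm w y
  have s4 := GMet.symm v x
  have s5 := GMet.symm z v
  have s6 := GMet.symm z y
  rcases hv with hv | hv <;> unfold Bt at * <;> omega

end FrobP
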