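import Pool.Agent.Work.MP_50f8f6_al.Interface

/-!
# Block E: elementary geometry of the cone-off
-/

namespace FrobP
open GMet

/-- geodesic sequences -/
theorem exists_path {W : Type} [GMet W] : ∀ (n : ℕ) (v w : W), d v w = n →
    ∃ z : ℕ → W, z 0 = v ∧ z n = w ∧ ∀ i j, i ≤ j → j ≤ n → d (z i) (z j) = j - i := by
  intro n
  induction n with
  | zero =>
    intro v w h
    refine ⟨fun _ => v, rfl, eq_of_d v w h, fun i j hij hj => ?_⟩
    rw [d_self]; omega
  | succ n ih =>
    intro v w h
    obtain ⟨u, hu, hvu⟩ := exists_bt v w (k := 1) (by omega)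
    have huw : d u w = n := by unfold Bt at hu; omega
    obtain ⟨z, hz0, hzn, hz⟩ := ih u w huw
    refine ⟨fun i => if i = 0 then v else z (i - 1), by simp, by simp [hzn], ?_⟩
    intro i j hij hj
    by_cases hi : i = 0
    · by_cases hj0 : j = 0
      · simp only [hi, hj0, if_true]; rw [d_self]
      · simp only [hi, hj0, if_true, if_false]
        have h1 := hz 0 (j - 1) (by omega) (by omega)
        have h2 := hz (j - 1) n (by omega) le_rfl
        rw [hz0] at h1
        rw [hzn] at h2
        have t1 := tri v u (z (j - 1))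
        have t2 := tri v (z (j - 1)) w
        omega
    · have hj0 : j ≠ 0 := by omega
      simp only [hi, hj0, if_false]
      have := hz (i - 1) (j - 1) (by omega) (by omega)
      omega

namespace Cone
variable {V ι : Type} [GMet V] (C : ConeData V ι)

theorem base_le : ∀ (k : ℕ) (x y : V), d x y ≤ k * C.R → d (base C x) (base C y) ≤ k := by
  intro k
  induction k with
  | zero =>
    intro x y h
    have : x = y := eq_of_d x y (by omega)
    subst this; rw [d_self]
  | succ k ih =>
    intro x y h
    by_cases hR : d x y ≤ C.R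
    · have := d_le_one_of_edge (C := C) (v := base C x) (w := base C y) (CV.Edge.base x y hR)
      omega
    · obtain ⟨z, hz, hxz⟩ := exists_bt x y (k := C.R) (by omega)
      have h1 := d_le_one_of_edge (C := C) (v := base C x) (w := base C z)
        (CV.Edge.base x z (by omega))
      have h2 := ih z y (by unfold Bt at hz; rw [add_mul, one_mul] at h; omega)
      have := tri (base C x) (base C z) (base C y)
      omega

theorem base_lev : ∀ (k : ℕ) (i : ι) (y : V) (hy : y ∈ C.Y i) (h1 : 1 ≤ k) (h2 : k ≤ C.ρ),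
    d (base C y) (lev C i y k hy h1 h2) ≤ k := by
  intro k
  induction k with
  | zero => intro i y hy h1; omega
  | succ k ih =>
    intro i y hy h1 h2
    rcases Nat.eq_zero_or_pos k with hk | hk
    · subst hk
      exact d_le_one_of_edge (CV.Edge.up0 i y)
    · have e1 := ih i y hy hk (by omega)
      have e2 := d_le_one_of_edge (C := C) (v := lev C i y k hy hk (by omega))
        (w := lev C i y (k + 1) hy h1 h2) (CV.Edge.up i y k)
      have := tri (base C y) (lev C i y k hy hk (by omega)) (lev C i y (k + 1) hy h1 h2)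
      omega

theorem lev_apex : ∀ (m k : ℕ) (i : ι) (y : V) (hy : y ∈ C.Y i) (h1 : 1 ≤ k) (h2 : k ≤ C.ρ),
    k + m = C.ρ → d (lev C i y k hy h1 h2) (apex C i) ≤ m + 1 := by
  intro m
  induction m with
  | zero =>
    intro k i y hy h1 h2 h
    have hk : k = C.ρ := by omega
    subst hk
    exact d_le_one_of_edge (CV.Edge.top i y)
  | succ m ih =>
    intro k i y hy h1 h2 h
    have e1 := ih (k + 1) i y hy (by omega) (by omega) (by omega)
    have e2 := d_le_one_of_edge (C := C) (v := lev C i y k hy h1 h2)
      (w := lev C i y (k + 1) hy (by omega) (by omega)) (CV.Edge.up i y k)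
    have := tri (lev C i y k hy h1 h2) (lev C i y (k + 1) hy (by omega) (by omega)) (apex C i)
    omega

theorem base_apex {i : ι} {y : V} (hy : y ∈ C.Y i) : d (base C y) (apex C i) ≤ C.ρ + 1 := by
  have e1 := base_lev C 1 i y hy le_rfl C.hρ
  have hρ := C.hρ
  have e2 := lev_apex C (C.ρ - 1) 1 i y hy le_rfl C.hρ (by omega)
  have := tri (base C y) (lev C i y 1 hy le_rfl C.hρ) (apex C i)
  omega

/-- a vertex which is not an apex is within `ρ` of its base point -/
theorem d_base_le {v : Cone C} (hv : ∀ i, v ≠ apex C i) {x : V} (hx : x ∈ v.Bs) :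
    d v (base C x) ≤ C.ρ := by
  obtain ⟨v, hval⟩ := v
  cases v with
  | base y =>
    have : x = y := hx
    subst this
    have e : d (base C x) (base C x) = 0 := d_self _
    exact e.le.trans (Nat.zero_le _)
  | lev i y k =>
    have : x = y := hx
    subst this
    have e : d (lev C i x k hval.1 hval.2.1 hval.2.2) (base C x) ≤ k := by
      rw [GMet.symm]; exact base_lev C k i x hval.1 hval.2.1 hval.2.2
    exact e.trans hval.2.2
  | apex i => exact absurd rfl (hv i)

theorem bs_nonempty (v : Cone C) : v.Bs.Nonempty := by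
  obtain ⟨v, hval⟩ := v
  cases v with
  | base y => exact ⟨y, rfl⟩
  | lev i y k => exact ⟨y, rfl⟩
  | apex i => exact C.hY i

open Classical in
/-- the height function for lower bounds of the distance to apex `i` -/
noncomputable def ht (i : ι) : CV V ι → ℕ
  | .base _ => C.ρ + 1
  | .lev j _ k => if j = i then C.ρ + 1 - k else C.ρ + 1 + k
  | .apex j => if j = i then 0 else 2 * C.ρ + 2

theorem ht_edge (i : ι) {v w : CV V ι} (hv : v.Valid C) (hw : w.Valid C) (h : CV.Edge C v w) :
    ht C i v ≤ ht C i w + 1 := by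
  classical
  cases h with
  | base x y h => simp [ht]
  | up0 j y => simp only [ht]; split_ifs <;> omega
  | dn0 j y => simp only [ht]; split_ifs <;> omega
  | hor j y z k h => simp only [ht]; omega
  | up j y k => simp only [ht]; split_ifs <;> omega
  | dn j y k =>
    have := hv.2.2
    simp only [ht]; split_ifs <;> omega
  | top j y => simp only [ht]; split_ifs <;> omega
  | top' j y => simp only [ht]; split_ifs <;> omega

theorem ht_le (i : ι) : ∀ (n : ℕ) (v w : Cone C), d v w = n → ht C i v.1 ≤ ht C i w.1 + n := by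
  intro n
  induction n with
  | zero => intro v w h; rw [eq_of_d v w h]; omega
  | succ n ih =>
    intro v w h
    obtain ⟨u, hu, hvu⟩ := exists_bt v w (k := 1) (by omega)
    have e1 := ht_edge C i v.2 u.2 (edge_of_d_eq_one hvu)
    have e2 := ih u w (by unfold Bt at hu; omega)
    omega

theorem ht_le_apex (i : ι) (v : Cone C) : ht C i v.1 ≤ d v (apex C i) := by
  have := ht_le C i _ v (apex C i) rfl
  simpa [ht, apex] using this

theorem apex_apex {i j : ι} (hij : i ≠ j) : 2 * C.ρ + 2 ≤ d (apex C i) (apex C j) := by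
  have := ht_le_apex C j (apex C i)
  simpa [ht, apex, hij] using this

theorem apex_inj {i j : ι} (h : apex C i = apex C j) : i = j := by
  have : (apex C i).1 = (apex C j).1 := by rw [h]
  simpa [apex] using this

theorem d_base_apex (i : ι) (x : V) : C.ρ + 1 ≤ d (base C x) (apex C i) := by
  have := ht_le_apex C i (base C x)
  simpa [ht, base] using this

/-- vertices close to an apex lie in the cone -/
theorem near_apex {i : ι} {v : Cone C} (h : d v (apex C i) ≤ C.ρ) :
    v = apex C i ∨ ∃ y k, ∃ hy : y ∈ C.Y i, ∃ h1 : 1 ≤ k, ∃ h2 : k ≤ C.ρ,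
      v = lev C i y k hy h1 h2 ∧ d v (apex C i) = C.ρ + 1 - k := by
  classical
  have h' := ht_le_apex C i v
  obtain ⟨v, hval⟩ := v
  cases v with
  | base y => simp only [ht] at h'; omega
  | lev j y k =>
    simp only [ht] at h'
    by_cases hji : j = i
    · subst hji
      rw [if_pos rfl] at h'
      right
      have := lev_apex C (C.ρ - k) k j y hval.1 hval.2.1 hval.2.2 (by have := hval.2.2; omega)
      have h3 := hval.2.2
      have h5 : d (lev C j y k hval.1 hval.2.1 hval.2.2) (apex C j) = C.ρ + 1 - k := by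
        have h6 : C.ρ + 1 - k ≤ d (lev C j y k hval.1 hval.2.1 hval.2.2) (apex C j) := h'
        omega
      exact ⟨y, k, hval.1, hval.2.1, hval.2.2, rfl, h5⟩
    · rw [if_neg hji] at h'; omega
  | apex j =>
    simp only [ht] at h'
    by_cases hji : j = i
    · subst hji; left; rfl
    · rw [if_neg hji] at h'; omega

/-- edges between vertices that are not apices move the base point by at most `2^ρ R` -/
theorem edge_bs {v w : Cone C} (hv : ∀ i, v ≠ apex C i) (hw : ∀ i, w ≠ apex C i)
    (h : CV.Edge C v.1 w.1) {x y : V} (hx : x ∈ v.Bs) (hy : y ∈ w.Bs) :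
    d x y ≤ 2 ^ C.ρ * C.R := by
  obtain ⟨v, hvv⟩ := v
  obtain ⟨w, hww⟩ := w
  have h2 : 1 ≤ 2 ^ C.ρ := Nat.one_le_two_pow
  cases h with
  | base a b h =>
    have : x = a := hx
    have : y = b := hy
    subst x y
    calc d a b ≤ 1 * C.R := by omega
      _ ≤ _ := Nat.mul_le_mul_right _ h2
  | up0 j a =>
    have h3 : x = a := hx
    have h4 : y = a := hy
    rw [h3, h4, d_self]; omega
  | dn0 j a =>
    have h3 : x = a := hx
    have h4 : y = a := hy
    rw [h3, h4, d_self]; omega
  | hor j a b k h =>
    have h3 : x = a := hx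
    have h4 : y = b := hy
    rw [h3, h4]
    exact h.trans (Nat.mul_le_mul_right _ (Nat.pow_le_pow_right (by omega) hvv.2.2))
  | up j a k =>
    have h3 : x = a := hx
    have h4 : y = a := hy
    rw [h3, h4, d_self]; omega
  | dn j a k =>
    have h3 : x = a := hx
    have h4 : y = a := hy
    rw [h3, h4, d_self]; omega
  | top j a => exact absurd rfl (hw j)
  | top' j a => exact absurd rfl (hv j)

/-- paths avoiding all apices -/
theorem avoid' : ∀ (n : ℕ) (v w : Cone C), d v w = n → (∀ u, Bt v u w → ∀ j, u ≠ apex C j) →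
    ∀ x ∈ v.Bs, ∀ y ∈ w.Bs, d x y ≤ n * (2 ^ C.ρ * C.R) := by
  intro n
  induction n with
  | zero =>
    intro v w h hav x hx y hy
    have : v = w := eq_of_d v w h
    subst this
    have hv := hav v (Bt.left _ _)
    obtain ⟨v, hvv⟩ := v
    cases v with
    | base a =>
      have h3 : x = a := hx
      have h4 : y = a := hy
      rw [h3, h4, d_self]; omega
    | lev i a k =>
      have h3 : x = a := hx
      have h4 : y = a := hy
      rw [h3, h4, d_self]; omega
    | apex i => exact absurd rfl (hv i)
  | succ n ih =>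
    intro v w h hav x hx y hy
    obtain ⟨u, hu, hvu⟩ := exists_bt v w (k := 1) (by omega)
    obtain ⟨z, hz⟩ := bs_nonempty C u
    have e1 := edge_bs C (hav v (Bt.left _ _)) (hav u hu) (edge_of_d_eq_one hvu) hx hz
    have e2 := ih u w (by unfold Bt at hu; omega)
      (fun a ha => hav a (hu.trans_right ha).1) z hz y hy
    have := tri x z y
    rw [add_mul, one_mul]
    omega

theorem avoid {n : ℕ} {v w : Cone C} (h : d v w ≤ n) (hav : ∀ j, n < d v (apex C j)) {x y : V}
    (hx : x ∈ v.Bs) (hy : y ∈ w.Bs) : d x y ≤ n * (2 ^ C.ρ * C.R) := by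
  have h1 := avoid' C _ v w rfl (fun u hu j hj => by
    have := hav j
    rw [← hj] at this
    have := hu.d_left_le
    omega) x hx y hy
  exact h1.trans (Nat.mul_le_mul_right _ h)

/-- edges not touching apex `i` change the angle at `i` by at most `2^ρ R` -/
theorem edge_angle {θ : ℕ} (hF : Fam C θ) (hR : 16 * θ ≤ C.R) {i : ι} {v w : Cone C}
    (hv : v ≠ apex C i) (hw : w ≠ apex C i) (h : CV.Edge C v.1 w.1) {x y : V} (hx : x ∈ v.Bs)
    (hy : y ∈ w.Bs) : prd (C.Y i) x y ≤ 2 ^ C.ρ * C.R := by
  have h2 : 2 ^ 1 ≤ 2 ^ C.ρ := Nat.pow_le_pow_right (by omega) C.hρ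
  have h2R : 2 * C.R ≤ 2 ^ C.ρ * C.R := Nat.mul_le_mul_right _ h2
  have hθ : 7 * θ ≤ C.R := by omega
  obtain ⟨v, hvv⟩ := v
  obtain ⟨w, hww⟩ := w
  cases h with
  | base a b h =>
    have h3 : x = a := hx
    have h4 : y = b := hy
    rw [h3, h4]
    have := hF.prd_lip i a b
    omega
  | up0 j a =>
    have h3 : x = a := hx
    have h4 : y = a := hy
    rw [h3, h4]
    have := hF.prd_self i a
    omega
  | dn0 j a =>
    have h3 : x = a := hx
    have h4 : y = a := hy
    rw [h3, h4]
    have := hF.prd_self i a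
    omega
  | hor j a b k h =>
    have h3 : x = a := hx
    have h4 : y = b := hy
    rw [h3, h4]
    by_cases hij : i = j
    · subst hij
      rw [prd_mem hvv.1 hww.1]
      exact h.trans (Nat.mul_le_mul_right _ (Nat.pow_le_pow_right (by omega) hvv.2.2))
    · have := hF.small i j hij a hvv.1 b hww.1
      omega
  | up j a k =>
    have h3 : x = a := hx
    have h4 : y = a := hy
    rw [h3, h4]
    have := hF.prd_self i a
    omega
  | dn j a k =>
    have h3 : x = a := hx
    have h4 : y = a := hy
    rw [h3, h4]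
    have := hF.prd_self i a
    omega
  | top j a =>
    have hij : i ≠ j := by rintro rfl; exact hw rfl
    have h3 : x = a := hx
    have h4 : y ∈ C.Y j := hy
    rw [h3]
    have := hF.small i j hij a hvv.1 y h4
    omega
  | top' j a =>
    have hij : i ≠ j := by rintro rfl; exact hv rfl
    have h3 : y = a := hy
    have h4 : x ∈ C.Y j := hx
    rw [h3]
    have := hF.small i j hij x h4 a hww.1
    omega

/-- angle along a geodesic avoiding apex `i` -/
theorem path_angle {θ : ℕ} (hF : Fam C θ) (hR : 16 * θ ≤ C.R) {i : ι} : ∀ (n : ℕ) (v w : Cone C),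
    d v w = n → (∀ u, Bt v u w → u ≠ apex C i) → ∀ x ∈ v.Bs, ∀ y ∈ w.Bs,
    prd (C.Y i) x y ≤ (n + 1) * (2 ^ C.ρ * C.R) := by
  have h2 : 2 ^ 1 ≤ 2 ^ C.ρ := Nat.pow_le_pow_right (by omega) C.hρ
  have h2R : 2 * C.R ≤ 2 ^ C.ρ * C.R := Nat.mul_le_mul_right _ h2
  intro n
  induction n with
  | zero =>
    intro v w h hav x hx y hy
    have : v = w := eq_of_d v w h
    subst this
    have hv := hav v (Bt.left _ _)
    obtain ⟨v, hvv⟩ := v
    cases v with
    | base a =>
      have h3 : x = a := hx
      have h4 : y = a := hy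
      rw [h3, h4]
      have := hF.prd_self i a
      omega
    | lev j a k =>
      have h3 : x = a := hx
      have h4 : y = a := hy
      rw [h3, h4]
      have := hF.prd_self i a
      omega
    | apex j =>
      have hij : i ≠ j := by rintro rfl; exact hv rfl
      have h3 : x ∈ C.Y j := hx
      have h4 : y ∈ C.Y j := hy
      have := hF.small i j hij x h3 y h4
      omega
  | succ n ih =>
    intro v w h hav x hx y hy
    obtain ⟨u, hu, hvu⟩ := exists_bt v w (k := 1) (by omega)
    obtain ⟨z, hz⟩ := bs_nonempty C u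
    have e1 := edge_angle C hF hR (hav v (Bt.left _ _)) (hav u hu) (edge_of_d_eq_one hvu) hx hz
    have e2 := ih u w (by unfold Bt at hu; omega)
      (fun a ha => hav a (hu.trans_right ha).1) z hz y hy
    have := hF.prd_tri i x z y
    have e3 : (n + 1 + 1) * (2 ^ C.ρ * C.R) = (n + 1) * (2 ^ C.ρ * C.R) + 2 ^ C.ρ * C.R := by ring
    omega

end Cone

end FrobP
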