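import Pool.Agent.Work.MP_50f8f6_al.Basic

/-!
# Block C: nearest point projections to quasiconvex sets, Behrstock inequality
-/

namespace FrobP
open GMet

variable {V : Type} [GMet V] {θ : ℕ} {Y : Set V}

theorem exists_pr (hY : Y.Nonempty) (x : V) : ∃ a, Pr Y x a := by
  classical
  have hne : {n | ∃ b ∈ Y, d x b = n}.Nonempty := by
    obtain ⟨b, hb⟩ := hY
    exact ⟨_, b, hb, rfl⟩
  obtain ⟨a, ha, hd⟩ := Nat.sInf_mem hne
  refine ⟨a, ha, fun b hb => ?_⟩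
  rw [hd]
  exact Nat.sInf_le ⟨b, hb, rfl⟩

theorem Pr.mem {x a : V} (h : Pr Y x a) : a ∈ Y := h.1
theorem Pr.le {x a b : V} (h : Pr Y x a) (hb : b ∈ Y) : d x a ≤ d x b := h.2 b hb

theorem Pr.eq_of_mem {x a : V} (h : Pr Y x a) (hx : x ∈ Y) : a = x := by
  have := h.2 x hx
  rw [d_self] at this
  exact (eq_of_d x a (by omega)).symm

theorem pr_self {x : V} (hx : x ∈ Y) : Pr Y x x := ⟨hx, fun b _ => by rw [d_self]; omega⟩

theorem Pr.d_eq {x a b : V} (h : Pr Y x a) (h' : Pr Y x b) : d x a = d x b :=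
  le_antisymm (h.2 b h'.1) (h'.2 a h.1)

/-- a nearest point stays nearest along the geodesic to it -/
theorem Pr.of_bt {x z a : V} (h : Pr Y x a) (hz : Bt x z a) : Pr Y z a := by
  refine ⟨h.1, fun b hb => ?_⟩
  have h1 := h.2 b hb
  have h2 := tri x z b
  unfold Bt at hz
  omega

/-- (P1) -/
theorem Pr.p1 (hV : Hyp V θ) (h1 : 1 ≤ θ) (hY : QC θ Y) {x a y : V} (ha : Pr Y x a) (hy : y ∈ Y) :
    d x a + d a y ≤ d x y + 7 * θ := by
  by_cases hlt : d a y < 3 * θ + 1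
  · have := ha.2 y hy
    omega
  · obtain ⟨z, hz, hd⟩ := exists_bt a y (k := 3 * θ + 1) (by omega)
    obtain ⟨w, hw, hzw⟩ := hY a ha.1 y hy z hz
    have e := hV.h1 hz x
    have t := tri x z w
    have := ha.2 w hw
    unfold Bt at hz
    omega

/-- (P2) nearest points are unique up to `7θ` -/
theorem Pr.p2 (hV : Hyp V θ) (h1 : 1 ≤ θ) (hY : QC θ Y) {x a b : V} (ha : Pr Y x a)
    (hb : Pr Y x b) : d a b ≤ 7 * θ := by
  have := ha.p1 hV h1 hY hb.1
  have := ha.d_eq hb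
  omega

/-- (P3) -/
theorem Pr.p3 (hV : Hyp V θ) (h1 : 1 ≤ θ) (hY : QC θ Y) {x y a b : V} (ha : Pr Y x a)
    (hb : Pr Y y b) (hab : 8 * θ < d a b) : d x a + d a b + d b y ≤ d x y + 16 * θ := by
  have e1 := ha.p1 hV h1 hY hb.1
  have e2 := hb.p1 hV h1 hY ha.1
  have e3 := hV x b a y
  have s1 := GMet.symm b a
  have s2 := GMet.symm y b
  have s3 := GMet.symm y a
  omega

/-- (P4) coarse Lipschitz -/
theorem Pr.p4 (hV : Hyp V θ) (h1 : 1 ≤ θ) (hY : QC θ Y) {x y a b : V} (ha : Pr Y x a)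
    (hb : Pr Y y b) : d a b ≤ d x y + 16 * θ := by
  by_cases hab : 8 * θ < d a b
  · have := ha.p3 hV h1 hY hb hab
    omega
  · omega

/-- (P5) the interval passes near the projection -/
theorem Pr.p5 (hV : Hyp V θ) (h1 : 1 ≤ θ) (hY : QC θ Y) {x y a b : V} (ha : Pr Y x a)
    (hb : Pr Y y b) (hab : 8 * θ < d a b) : ∃ z, Bt x z y ∧ d z a ≤ 18 * θ := by
  have e1 := ha.p3 hV h1 hY hb hab
  by_cases hle : d x a ≤ d x y
  · obtain ⟨z, hz, hd⟩ := exists_bt x y hle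
    refine ⟨z, hz, ?_⟩
    have e2 := hV.h1 hz a
    have t1 := tri a b y
    have s1 := GMet.symm a z
    have s2 := GMet.symm a x
    unfold Bt at hz
    omega
  · refine ⟨y, Bt.right _ _, ?_⟩
    have t1 := tri a b y
    have s1 := GMet.symm a y
    omega

/-- (P6) a point of the interval projecting far from both ends is near `Y` -/
theorem Pr.p6 (hV : Hyp V θ) (h1 : 1 ≤ θ) (hY : QC θ Y) {x y z a b c : V} (hz : Bt x z y)
    (ha : Pr Y x a) (hb : Pr Y y b) (hc : Pr Y z c) (hac : x ∈ Y ∨ 8 * θ < d a c)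
    (hcb : y ∈ Y ∨ 8 * θ < d c b) :
    d z c ≤ 16 * θ ∧ d a c + d c b ≤ d a b + 32 * θ := by
  have e1 : d x a + d a c + d c z ≤ d x z + 16 * θ := by
    rcases hac with h | h
    · have := hc.p1 hV h1 hY h
      have := ha.eq_of_mem h
      subst this
      rw [d_self]
      have s1 := GMet.symm a c
      have s2 := GMet.symm a z
      have s3 := GMet.symm c z
      omega
    · exact ha.p3 hV h1 hY hc h
  have e2 : d z c + d c b + d b y ≤ d z y + 16 * θ := by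
    rcases hcb with h | h
    · have := hc.p1 hV h1 hY h
      have := hb.eq_of_mem h
      subst this
      rw [d_self]
      omega
    · exact hc.p3 hV h1 hY hb h
  have t1 := tri x a y
  have t2 := tri a b y
  have s1 := GMet.symm c z
  unfold Bt at hz
  constructor
  · have t3 := tri a c b
    omega
  · omega

/-! ### the function `prd` -/

theorem prd_bdd (x y : V) : BddAbove {n | ∃ a b, Pr Y x a ∧ Pr Y y b ∧ d a b = n} := by
  by_cases hY : Y.Nonempty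
  · obtain ⟨c, hc⟩ := hY
    refine ⟨d x c + d x y + d y c, ?_⟩
    rintro n ⟨a, b, ha, hb, rfl⟩
    have := ha.2 c hc
    have := hb.2 c hc
    have t1 := tri a x b
    have t2 := tri x y b
    have s1 := GMet.symm a x
    omega
  · refine ⟨0, ?_⟩
    rintro n ⟨a, b, ha, hb, rfl⟩
    exact absurd ⟨a, ha.1⟩ hY

theorem le_prd {x y a b : V} (ha : Pr Y x a) (hb : Pr Y y b) : d a b ≤ prd Y x y :=
  le_csSup (prd_bdd x y) ⟨a, b, ha, hb, rfl⟩

theorem exists_prd (hY : Y.Nonempty) (x y : V) :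
    ∃ a b, Pr Y x a ∧ Pr Y y b ∧ d a b = prd Y x y := by
  obtain ⟨a, ha⟩ := exists_pr hY x
  obtain ⟨b, hb⟩ := exists_pr hY y
  have hne : {n | ∃ a b, Pr Y x a ∧ Pr Y y b ∧ d a b = n}.Nonempty := ⟨_, a, b, ha, hb, rfl⟩
  exact Nat.sSup_mem hne (prd_bdd x y)

theorem prd_le {x y : V} {D : ℕ} (h : ∀ a b, Pr Y x a → Pr Y y b → d a b ≤ D) :
    prd Y x y ≤ D := by
  by_cases hY : Y.Nonempty
  · obtain ⟨a, b, ha, hb, hd⟩ := exists_prd hY x y
    rw [← hd]; exact h a b ha hb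
  · unfold prd
    have : {n | ∃ a b, Pr Y x a ∧ Pr Y y b ∧ d a b = n} = ∅ := by
      ext n
      simp only [Set.mem_ofPred_eq, Set.mem_empty_iff_false, iff_false]
      rintro ⟨a, b, ha, hb, -⟩
      exact hY ⟨a, ha.1⟩
    rw [this]
    simp

theorem prd_symm (x y : V) : prd Y x y = prd Y y x := by
  apply le_antisymm <;> apply prd_le <;> intro a b ha hb <;> rw [GMet.symm] <;>
    exact le_prd hb ha

theorem prd_tri (hY : Y.Nonempty) (x y z : V) : prd Y x z ≤ prd Y x y + prd Y y z := by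
  apply prd_le
  intro a c ha hc
  obtain ⟨b, hb⟩ := exists_pr hY y
  have := le_prd ha hb
  have := le_prd hb hc
  have := tri a b c
  omega

theorem prd_self (hV : Hyp V θ) (h1 : 1 ≤ θ) (hY : QC θ Y) (x : V) : prd Y x x ≤ 7 * θ :=
  prd_le fun _ _ ha hb => ha.p2 hV h1 hY hb

theorem prd_lip (hV : Hyp V θ) (h1 : 1 ≤ θ) (hY : QC θ Y) (x y : V) :
    prd Y x y ≤ d x y + 16 * θ := prd_le fun _ _ ha hb => ha.p4 hV h1 hY hb

theorem prd_mem {x y : V} (hx : x ∈ Y) (hy : y ∈ Y) : prd Y x y = d x y := by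
  apply le_antisymm
  · apply prd_le
    intro a b ha hb
    rw [ha.eq_of_mem hx, hb.eq_of_mem hy]
  · exact le_prd (pr_self hx) (pr_self hy)

/-- (P7) Behrstock inequality -/
theorem behr (hV : Hyp V θ) (h1 : 1 ≤ θ) {Z : Set V} (hY : QC θ Y) (hZ : QC θ Z)
    (hYn : Y.Nonempty) (hZn : Z.Nonempty)
    (hYZ : ∀ x ∈ Z, ∀ y ∈ Z, prd Y x y ≤ θ) (hZY : ∀ x ∈ Y, ∀ y ∈ Y, prd Z x y ≤ θ)
    {x z : V} (hz : z ∈ Z) (hlarge : 9 * θ < prd Y x z) {y : V} (hy : y ∈ Y) :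
    prd Z x y ≤ 35 * θ := by
  apply prd_le
  intro b c hb hc
  -- `b` nearest to `x` in `Z`
  obtain ⟨a, c', ha, hc', hac⟩ := exists_prd hYn x z
  obtain ⟨e, he⟩ := exists_pr hYn b
  have h2 : d c' e ≤ θ := (le_prd hc' he).trans (hYZ z hz b hb.1)
  have h3 : 8 * θ < d a e := by
    have t := tri a e c'
    have s := GMet.symm e c'
    omega
  obtain ⟨u, hu, hua⟩ := ha.p5 hV h1 hY he h3
  have hub : Pr Z u b := hb.of_bt hu
  obtain ⟨f, hf⟩ := exists_pr hZn a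
  have h4 : d b f ≤ d u a + 16 * θ := hub.p4 hV h1 hZ hf
  have h5 : d f c ≤ θ := (le_prd hf hc).trans (hZY a ha.1 y hy)
  have t := tri b f c
  omega

/-! ### equivariance -/

section equiv
variable {G : Type} [Group G] [MulAction G V] [IsomAct G V]

theorem Pr.smul {Z : Set V} (g : G) (h1 : ∀ y ∈ Y, g • y ∈ Z) (h2 : ∀ z ∈ Z, g⁻¹ • z ∈ Y)
    {x a : V} (h : Pr Y x a) : Pr Z (g • x) (g • a) := by
  refine ⟨h1 a h.1, fun b hb => ?_⟩
  rw [IsomAct.isom]
  have := h.2 _ (h2 b hb)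
  have e := IsomAct.isom g x (g⁻¹ • b)
  rw [smul_inv_smul] at e
  omega

theorem prd_smul {Z : Set V} (g : G) (h1 : ∀ y ∈ Y, g • y ∈ Z) (h2 : ∀ z ∈ Z, g⁻¹ • z ∈ Y)
    (x y : V) : prd Z (g • x) (g • y) = prd Y x y := by
  have key : ∀ {Y Z : Set V} (g : G), (∀ y ∈ Y, g • y ∈ Z) → (∀ z ∈ Z, g⁻¹ • z ∈ Y) →
      ∀ x y : V, prd Y x y ≤ prd Z (g • x) (g • y) := by
    intro Y Z g h1 h2 x y
    apply prd_le
    intro a b ha hb
    rw [← IsomAct.isom g a b]
    exact le_prd (ha.smul g h1 h2) (hb.smul g h1 h2)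
  apply le_antisymm
  · have := key (Y := Z) (Z := Y) g⁻¹ h2 (fun y hy => by rw [inv_inv]; exact h1 y hy) (g • x) (g • y)
    rwa [inv_smul_smul, inv_smul_smul] at this
  · exact key g h1 h2 x y

variable {ι : Type} [MulAction G ι] (C : ConeData V ι) [ConeAct G C]

omit [IsomAct G V] in
theorem ConeAct.inv_mem (g : G) (i : ι) (z : V) (hz : z ∈ C.Y (g • i)) : g⁻¹ • z ∈ C.Y i := by
  have := ConeAct.mem (C := C) g⁻¹ (g • i) z hz
  rwa [inv_smul_smul] at this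

theorem Pr.smulC (g : G) (i : ι) {x a : V} (h : Pr (C.Y i) x a) :
    Pr (C.Y (g • i)) (g • x) (g • a) :=
  h.smul g (fun y hy => ConeAct.mem g i y hy) (fun z hz => ConeAct.inv_mem C g i z hz)

theorem prd_smulC (g : G) (i : ι) (x y : V) :
    prd (C.Y (g • i)) (g • x) (g • y) = prd (C.Y i) x y :=
  prd_smul g (fun y hy => ConeAct.mem g i y hy) (fun z hz => ConeAct.inv_mem C g i z hz) x y

end equiv

/-! ### versions for families -/

section fam
variable {ι : Type} {C : ConeData V ι}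

theorem Fam.prd_tri (_ : Fam C θ) (i : ι) (x y z : V) :
    prd (C.Y i) x z ≤ prd (C.Y i) x y + prd (C.Y i) y z := FrobP.prd_tri (C.hY i) x y z

theorem Fam.prd_self (h : Fam C θ) (i : ι) (x : V) : prd (C.Y i) x x ≤ 7 * θ :=
  FrobP.prd_self h.hyp h.one_le (h.qc i) x

theorem Fam.prd_lip (h : Fam C θ) (i : ι) (x y : V) : prd (C.Y i) x y ≤ d x y + 16 * θ :=
  FrobP.prd_lip h.hyp h.one_le (h.qc i) x y

/-- Behrstock inequality for a family -/
theorem Fam.behr (h : Fam C θ) {i j : ι} (hij : i ≠ j) {x z : V} (hz : z ∈ C.Y j)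
    (hl : 9 * θ < prd (C.Y i) x z) {y : V} (hy : y ∈ C.Y i) : prd (C.Y j) x y ≤ 35 * θ :=
  FrobP.behr h.hyp h.one_le (h.qc i) (h.qc j) (C.hY i) (C.hY j) (h.small i j hij)
    (h.small j i hij.symm) hz hl hy

end fam

end FrobP
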