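import Pool.Agent.Work.MP_50f8f6_al.Step
import Pool.Agent.Work.MP_50f8f6_al.S1Final
import Pool.Agent.Work.MP_50f8f6_al.Class
import Pool.Agent.Work.MP_50f8f6_al_helper59.S2
import Pool.Agent.Work.MP_50f8f6_al_helper63.S3
import Pool.Agent.Work.MP_50f8f6_al_helper63.M1
import Pool.Agent.Work.MP_50f8f6_al_helper35.I2
import Pool.Agent.Work.MP_50f8f6_al_helper43.K
import Pool.Agent.Work.MP_50f8f6_al_helper43.M3
import Pool.Agent.Work.MP_50f8f6_al_helper22.L1
import Pool.Agent.Work.MP_50f8f6_al_helper22.L2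

/-!
# MP_50f8f6_al: assembly
-/

namespace FrobP
open GMet

theorem axesStmt : AxesStmt := by
  refine axes_of ?_ ?_ ?_ class_stmt
  · intro G V _ _ _ _ δ hV g x y z D hx hy hz
    exact hV.l3 hx hy hz
  · intro G V _ _ _ _ δ hV g hm j y
    exact hV.l4 hm y j
  · intro G V _ _ _ _ δ hV g x y z D hx hy hz h1 h2 u
    exact hV.l8 hx hy hz h1 h2 u

theorem stepStmt : StepStmt := step_of s1 s2Stmt s3a s3b s3c s3d class_stmt axesStmt

theorem bbStmt : BBStmt := stmt_K stepStmt

theorem hnnTreeStmt : HNNTreeStmt := hnnTree treeGood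

theorem finalStmt : FinalStmt := stmt_M2 (oneStep bbStmt hnnTreeStmt)

end FrobP
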