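import Pool.Agent.Work.MP_50f8f6_al.ConeGeo

/-!
# Block E2: lower bound for distances in the cone-off when all angles are small
-/

namespace FrobP
open GMet

namespace Cone
variable {V ι : Type} [GMet V] (C : ConeData V ι)

theorem edge_apex {i : ι} {v : Cone C} (h : CV.Edge C v.1 (apex C i).1) :
    ∃ y, ∃ hy : y ∈ C.Y i, v = lev C i y C.ρ hy C.hρ le_rfl := by
  obtain ⟨v, hv⟩ := v
  cases v with
  | base x => cases h
  | lev j y k =>
    cases h with
    | top _ _ => exact ⟨y, hv.1, rfl⟩
  | apex j => cases h

/-- if all angles between `x` and `y` are at most `Θ`, the distance in `V` is at most linear in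
the distance in the cone-off -/
theorem d_le_of_angles {K0 Θ : ℕ} (hE : E2 C K0) (x y : V)
    (hΘ : ∀ i, prd (C.Y i) x y ≤ Θ) : ∀ (t : ℕ) (u : Cone C), (∀ i, u ≠ apex C i) →
    Bt (base C x) u (base C y) → d (base C x) u = t → ∀ a ∈ u.Bs,
    d x a ≤ t * (Θ + 2 * (K0 * (2 ^ C.ρ * C.R)) + 2 ^ C.ρ * C.R) := by
  intro t
  induction t using Nat.strong_induction_on with
  | _ t ih =>
    intro u hu hbt ht a ha
    rcases Nat.eq_zero_or_pos t with h0 | hpos
    · have : base C x = u := eq_of_d _ _ (by omega)
      subst this
      have : a = x := ha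
      subst this
      rw [d_self]; omega
    · obtain ⟨u', hu', hd'⟩ := exists_bt' (base C x) u (k := 1) (by omega)
      have hx' : d (base C x) u' = t - 1 := by unfold Bt at hu'; omega
      have hbt' := hbt.trans_left hu'
      by_cases hap : ∀ i, u' ≠ apex C i
      · obtain ⟨b, hb⟩ := bs_nonempty C u'
        have e1 := ih (t - 1) (by omega) u' hap hbt'.1 hx' b hb
        have e2 := edge_bs C hap hu (edge_of_d_eq_one hd') hb ha
        have t1 := tri x b a
        obtain ⟨s, rfl⟩ : ∃ s, t = s + 1 := ⟨t - 1, by omega⟩
        rw [Nat.add_sub_cancel] at e1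
        rw [add_mul s, one_mul]
        omega
      · push Not at hap
        obtain ⟨i, hi⟩ := hap
        subst hi
        -- `u` is a neighbour of the apex
        have hd'' : d u (apex C i) = 1 := by rw [GMet.symm]; exact hd'
        obtain ⟨b, hb, hub⟩ := edge_apex C (edge_of_d_eq_one hd'')
        have hab : a = b := by subst hub; exact ha
        subst hab
        have ht2 : 2 ≤ t := by
          have := d_base_apex C i x
          have := C.hρ
          omega
        obtain ⟨w, hw, hdw⟩ := exists_bt' (base C x) (apex C i) (k := 1) (by omega)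
        obtain ⟨e, he, hwe⟩ := edge_apex C (edge_of_d_eq_one hdw)
        have hxw : d (base C x) w = t - 2 := by unfold Bt at hw; omega
        have hwna : ∀ j, w ≠ apex C j := by
          intro j hj
          rw [hwe] at hj
          have := congrArg Subtype.val hj
          simp [lev, apex] at this
        have hbw := hbt'.1.trans_left hw
        have hew : e ∈ w.Bs := by rw [hwe]; rfl
        have e1 := ih (t - 2) (by omega) w hwna hbw.1 hxw e hew
        have e3 : prd (C.Y i) x e ≤ K0 * (2 ^ C.ρ * C.R) := by
          refine hE i (base C x) w (fun h => ?_) (hwna i) (fun h => ?_) x rfl e hew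
          · have := congrArg Subtype.val h
            simp [base, apex] at this
          · unfold Bt at h
            rw [GMet.symm (apex C i) w] at h
            omega
        have e4 : prd (C.Y i) a y ≤ K0 * (2 ^ C.ρ * C.R) := by
          refine hE i u (base C y) (hu i) (fun h => ?_) (fun h => ?_) a ha y rfl
          · have := congrArg Subtype.val h
            simp [base, apex] at this
          · have h5 := hbt'.1
            unfold Bt at h h5 hbt
            omega
        have e5 := hΘ i
        have e6 : d e a = prd (C.Y i) e a := (prd_mem he hb).symm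
        have t1 := prd_tri (C.hY i) e x a
        have t2 := prd_tri (C.hY i) x y a
        have s1 := prd_symm (Y := C.Y i) e x
        have s2 := prd_symm (Y := C.Y i) y a
        have t3 := tri x e a
        obtain ⟨s, rfl⟩ : ∃ s, t = s + 2 := ⟨t - 2, by omega⟩
        rw [Nat.add_sub_cancel] at e1
        have e7 : (s + 2) * (Θ + 2 * (K0 * (2 ^ C.ρ * C.R)) + 2 ^ C.ρ * C.R) =
          s * (Θ + 2 * (K0 * (2 ^ C.ρ * C.R)) + 2 ^ C.ρ * C.R) +
          2 * (Θ + 2 * (K0 * (2 ^ C.ρ * C.R)) + 2 ^ C.ρ * C.R) := by ring
        omega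

/-- final form -/
theorem d_le_of_angles' {K0 Θ : ℕ} (hE : E2 C K0) (x y : V)
    (hΘ : ∀ i, prd (C.Y i) x y ≤ Θ) :
    d x y ≤ d (base C x) (base C y) * (Θ + 2 * (K0 * (2 ^ C.ρ * C.R)) + 2 ^ C.ρ * C.R) := by
  refine d_le_of_angles C hE x y hΘ _ (base C y) (fun i h => ?_) (Bt.right _ _) rfl y rfl
  have := congrArg Subtype.val h
  simp [base, apex] at this

end Cone

end FrobP
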