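import Pool.Agent.Work.MP_50f8f6_al.Basic

/-!
# Block B: toolkit on displacements in hyperbolic spaces

`G` acts isometrically on `V`, which satisfies `Hyp V δ` (`δ` may be `0`).
-/

namespace FrobP
open GMet

section disp

variable {G V : Type} [Group G] [GMet V] [MulAction G V] [IsomAct G V]

theorem isom (g : G) (x y : V) : d (g • x) (g • y) = d x y := IsomAct.isom g x y

/-- displacement of the inverse -/
theorem disp_inv (g : G) (x : V) : d x (g⁻¹ • x) = d x (g • x) := by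
  rw [← isom g x (g⁻¹ • x), smul_inv_smul, GMet.symm]

theorem d_inv_smul (g : G) (x y : V) : d (g⁻¹ • x) y = d x (g • y) := by
  rw [← isom g (g⁻¹ • x) y, smul_inv_smul]

/-- displacement of a translate -/
theorem disp_smul (a g : G) (x : V) : d (a • x) (g • a • x) = d x ((a⁻¹ * g * a) • x) := by
  rw [← isom a x ((a⁻¹ * g * a) • x), ← mul_smul, ← mul_smul]
  congr 2
  group

/-- displacement of a conjugate -/
theorem disp_conj (a g : G) (x : V) : d x ((a * g * a⁻¹) • x) = d (a⁻¹ • x) (g • a⁻¹ • x) := by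
  rw [disp_smul, inv_inv]

theorem disp_comm {a g : G} (h : a * g = g * a) (x : V) : d (a • x) (g • a • x) = d x (g • x) := by
  rw [← mul_smul, ← h, mul_smul, isom]

theorem disp_lip (g : G) (z z' : V) : d z (g • z) ≤ 2 * d z z' + d z' (g • z') := by
  have h1 := tri z z' (g • z)
  have h2 := tri z' (g • z') (g • z)
  have h3 := isom g z' z
  rw [GMet.symm z' z] at h3
  omega

theorem disp_mul (g h : G) (x : V) : d x ((g * h) • x) ≤ d x (g • x) + d x (h • x) := by
  rw [mul_smul]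
  have h1 := tri x (g • x) (g • h • x)
  have h2 := isom g x (h • x)
  omega

theorem disp_pow (g : G) (x : V) (k : ℕ) : d x (g ^ k • x) ≤ k * d x (g • x) := by
  induction k with
  | zero => rw [pow_zero, one_smul, d_self]; omega
  | succ k ih =>
    rw [pow_succ]
    have := disp_mul (g ^ k) g x
    rw [Nat.add_mul, one_mul]; omega

theorem disp_zpow (g : G) (x : V) (k : ℤ) : d x (g ^ k • x) ≤ k.natAbs * d x (g • x) := by
  cases k with
  | ofNat k => simpa using disp_pow g x k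
  | negSucc k =>
    rw [zpow_negSucc, disp_inv]
    simpa using disp_pow g x (k + 1)

omit [IsomAct G V] in
theorem md_le (g : G) (x : V) : md V g ≤ d x (g • x) := Nat.sInf_le ⟨x, rfl⟩

omit [IsomAct G V] in
theorem exists_md [hV : Nonempty V] (g : G) : ∃ x : V, d x (g • x) = md V g :=
  Nat.sInf_mem (s := {n | ∃ x : V, d x (g • x) = n}) ⟨_, hV.some, rfl⟩

theorem md_conj (a g : G) : md V (a * g * a⁻¹) = md V g := by
  rcases isEmpty_or_nonempty V with h | h
  · unfold md
    congr 1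
    ext n
    constructor <;> rintro ⟨x, _⟩ <;> exact h.elim x
  · apply le_antisymm
    · obtain ⟨x, hx⟩ := exists_md (V := V) g
      have h1 := md_le (a * g * a⁻¹) (a • x)
      rw [disp_conj, inv_smul_smul] at h1
      omega
    · obtain ⟨x, hx⟩ := exists_md (V := V) (a * g * a⁻¹)
      rw [disp_conj] at hx
      have h1 := md_le g (a⁻¹ • x)
      omega

theorem md_inv (g : G) : md V g⁻¹ = md V g := by
  unfold md
  congr 1
  ext n
  simp only [Set.mem_ofPred_eq, disp_inv]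

end disp

section hyp

variable {G V : Type} [Group G] [GMet V] [MulAction G V] [IsomAct G V] {δ : ℕ}

theorem Bt.smul (g : G) {x z y : V} (h : Bt x z y) : Bt (g • x) (g • z) (g • y) := by
  unfold Bt at *
  rw [isom, isom, isom]; exact h

/-- (L3) convexity of the displacement -/
theorem Hyp.l3 (hV : Hyp V δ) {g : G} {x y z : V} {D : ℕ} (hx : d x (g • x) ≤ D)
    (hy : d y (g • y) ≤ D) (hz : Bt x z y) : d z (g • z) ≤ D + 2 * δ := by
  have h1 := hV.h1 (hz.smul g) z
  have e1 := isom g x y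
  have e2 := isom g z y
  have e3 := isom g x z
  have t1 := tri z x (g • x)
  have t2 := tri z y (g • y)
  rw [GMet.symm z x] at t1
  unfold Bt at hz
  omega

/-- the point `z` on `[x,u]` in the middle: first half of (L8) -/
theorem Hyp.l8_aux (hV : Hyp V δ) {g : G} {x z u : V} {D : ℕ} (hx : d x (g • x) ≤ D)
    (hz : Bt x z u) (h1 : D + 9 * δ ≤ d x z) : d z (g • z) ≤ d u (g • u) + 18 * δ := by
  -- main estimate if `z` is close to `[gx, gu]`
  have main : ∀ b, Bt (g • x) b (g • u) → d z b ≤ 8 * δ → d z (g • z) ≤ d u (g • u) + 18 * δ := by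
    intro b hb hzb
    have q := hV.h1 (hz.smul g) z
    have e1 := isom g x u
    have e2 := isom g z u
    have e3 := isom g x z
    have t1 := tri z b (g • x)
    have t2 := tri z b (g • u)
    have t3 := tri z (g • u) u
    have t4 := tri z u (g • u)
    have s1 := GMet.symm b (g • x)
    have s2 := GMet.symm (g • u) u
    unfold Bt at hz hb
    omega
  obtain ⟨a, ha, hza⟩ := hV.slim x u (g • u) z hz
  rcases ha with ha | ha
  · obtain ⟨b, hb, hab⟩ := hV.slim x (g • u) (g • x) a ha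
    have hzb : d z b ≤ 8 * δ := by
      have := tri z a b
      omega
    rcases hb with hb | hb
    · -- `b ∈ [x, gx]`
      have t1 := tri x b z
      rw [GMet.symm b z] at t1
      have hb' := hb
      unfold Bt at hb'
      -- then `δ = 0` and `b = gx`
      have h0 : d b (g • x) = 0 := by omega
      have h2 := eq_of_d _ _ h0
      subst h2
      exact main _ (Bt.left _ _) hzb
    · exact main b hb hzb
  · -- `a ∈ [gu, u]`
    have l := disp_lip g z a
    have t1 := tri a (g • u) (g • a)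
    have e1 := isom g u a
    have s1 := GMet.symm (g • u) a
    have s2 := GMet.symm (g • u) u
    have s3 := GMet.symm u a
    unfold Bt at ha
    omega

/-- (L8) middle points of `[x,y]` are displaced almost minimally -/
theorem Hyp.l8 (hV : Hyp V δ) {g : G} {x y z : V} {D : ℕ} (hx : d x (g • x) ≤ D)
    (hy : d y (g • y) ≤ D) (hz : Bt x z y) (h1 : D + 13 * δ ≤ d x z) (h2 : D + 13 * δ ≤ d z y)
    (u : V) : d z (g • z) ≤ d u (g • u) + 26 * δ := by
  obtain ⟨w, hw, hzw⟩ := hV.slim x y u z hz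
  have l := disp_lip g z w
  rcases hw with hw | hw
  · have t := tri x w z
    rw [GMet.symm w z] at t
    have := hV.l8_aux (g := g) hx hw (by omega)
    omega
  · have t := tri z w y
    have s := GMet.symm w y
    have := hV.l8_aux (g := g) hy hw.symm' (by omega)
    omega

/-- (L8) for the minimal displacement -/
theorem Hyp.l8md (hV : Hyp V δ) {g : G} {x y z : V} {D : ℕ} (hx : d x (g • x) ≤ D)
    (hy : d y (g • y) ≤ D) (hz : Bt x z y) (h1 : D + 13 * δ ≤ d x z) (h2 : D + 13 * δ ≤ d z y) :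
    d z (g • z) ≤ md V g + 26 * δ := by
  have : Nonempty V := ⟨x⟩
  obtain ⟨u, hu⟩ := exists_md (V := V) g
  have := hV.l8 hx hy hz h1 h2 u
  omega

/-- a point of minimal displacement `m ≥ 3δ+2`: `d(x, g²x) ≥ 2m - 4δ` -/
theorem Hyp.l4_two (hV : Hyp V δ) {g : G} {x : V} (hx : d x (g • x) = md V g)
    (hm : 3 * δ + 2 ≤ md V g) : 2 * md V g ≤ d x (g • g • x) + 4 * δ := by
  obtain ⟨z, hz, hxz⟩ := exists_bt x (g • x) (k := δ + 1) (by omega)
  have e1 := isom g x (g • x)
  have e2 := isom g z (g • x)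
  have e3 := isom g x z
  have q1 := hV.h1 (hz.smul g) z
  have q2 := hV.h1 hz (g • g • x)
  have m1 := md_le g z
  have s1 := GMet.symm (g • g • x) z
  have s2 := GMet.symm (g • g • x) x
  have s3 := GMet.symm (g • g • x) (g • x)
  unfold Bt at hz
  omega

/-- broken path: the displacement of the powers at a point -/
theorem Hyp.l4_path (hV : Hyp V δ) {g : G} {x : V} {m : ℕ} (hx : d x (g • x) = m)
    (h2 : 2 * m ≤ d x (g • g • x) + 4 * δ) (hm : 6 * δ < m) (k : ℕ) :
    k * (m - 6 * δ) ≤ d x (g ^ k • x) ∧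
      d x (g ^ k • x) + (m - 6 * δ) ≤ d x (g ^ (k + 1) • x) := by
  induction k with
  | zero =>
    rw [pow_zero, one_smul, d_self, zero_add, pow_one]
    omega
  | succ k ih =>
    obtain ⟨ih1, ih2⟩ := ih
    refine ⟨?_, ?_⟩
    · rw [Nat.add_mul, one_mul]; omega
    · have q := hV x (g ^ (k + 1) • x) (g ^ k • x) (g ^ (k + 1 + 1) • x)
      have e1 : d (g ^ k • x) (g ^ (k + 1 + 1) • x) = d x (g • g • x) := by
        rw [pow_succ, pow_succ, mul_smul, mul_smul, isom]
      have e2 : d (g ^ (k + 1) • x) (g ^ (k + 1 + 1) • x) = m := by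
        rw [pow_succ (n := k + 1), mul_smul, isom, hx]
      have e3 : d (g ^ (k + 1) • x) (g ^ k • x) = m := by
        rw [GMet.symm, pow_succ, mul_smul, isom, hx]
      rw [e1, e2, e3] at q
      omega

/-- (L4) powers of elements with large minimal displacement -/
theorem Hyp.l4 (hV : Hyp V δ) {g : G} (hm : 6 * δ + 2 ≤ md V g) (y : V) (j : ℕ) :
    j * (md V g - 6 * δ) ≤ d y (g ^ j • y) := by
  have : Nonempty V := ⟨y⟩
  obtain ⟨x, hx⟩ := exists_md (V := V) g
  have h2 := hV.l4_two hx (by omega)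
  by_contra hlt
  push Not at hlt
  -- take the power `k = 2 d(x,y) + 1`
  set n := d y (g ^ j • y) with hn
  set k := 2 * d x y + 1 with hk
  have h3 := (hV.l4_path hx h2 (by omega) (j * k)).1
  have h4 := disp_pow (g ^ j) y k
  rw [← pow_mul] at h4
  have h5 := disp_lip (g ^ (j * k)) x y
  have h6 : k * (n + 1) ≤ k * (j * (md V g - 6 * δ)) := Nat.mul_le_mul_left k hlt
  have h7 : j * k * (md V g - 6 * δ) = k * (j * (md V g - 6 * δ)) := by ring
  have h8 : k * (n + 1) = k * n + k := by ring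
  rw [← hn] at h4
  omega

/-- (L6) two points with almost minimal displacement: one orbit of `⟨g⟩` is coarsely dense. -/
theorem Hyp.l6 (hV : Hyp V δ) {g : G} {m : ℕ} (hm1 : 1 ≤ m) (hm : 100 * δ ≤ m)
    (h2 : ∀ w : V, 2 * m ≤ d w (g • g • w) + 12 * δ) {x y : V} (hx : d x (g • x) ≤ m + 34 * δ)
    (hy : d y (g • y) ≤ m + 34 * δ) : ∃ k : ℤ, 2 * d (g ^ k • x) y ≤ m + 118 * δ := by
  classical
  have hne : {n | ∃ k : ℤ, d (g ^ k • x) y = n}.Nonempty := ⟨_, 0, rfl⟩
  obtain ⟨k, hk⟩ := Nat.sInf_mem hne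
  have hmin : ∀ j : ℤ, d (g ^ k • x) y ≤ d (g ^ j • x) y := by
    intro j
    rw [hk]
    exact Nat.sInf_le ⟨j, rfl⟩
  refine ⟨k, ?_⟩
  set w := g ^ k • x with hw
  have hgw : g • w = g ^ (k + 1) • x := by
    rw [hw, ← mul_smul, zpow_add_one, (Commute.refl g).zpow_right k |>.eq]
  have hgw' : g⁻¹ • w = g ^ (k - 1) • x := by
    rw [hw, ← mul_smul, zpow_sub_one, ((Commute.refl g).inv_left.zpow_right k).eq]
  have m1 := hmin (k + 1)
  have m2 := hmin (k - 1)
  rw [← hgw] at m1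
  rw [← hgw'] at m2
  have hxw : d w (g • w) = d x (g • x) := disp_comm ((Commute.refl g).zpow_left k).eq x
  have q1 := hV y w (g • w) (g⁻¹ • w)
  have q2 := hV y (g • w) w (g • y)
  have e1 : d (g • w) (g⁻¹ • w) = d w (g • g • w) := by
    rw [GMet.symm, d_inv_smul]
  have e2 : d w (g⁻¹ • w) = d w (g • w) := disp_inv g w
  have e3 : d (g⁻¹ • w) y = d w (g • y) := d_inv_smul g w y
  have e4 : d (g • w) (g • y) = d w y := isom g w y
  have h2' := h2 w
  have s1 := GMet.symm y (g⁻¹ • w)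
  have s2 := GMet.symm y (g • w)
  have s3 := GMet.symm y w
  have s4 := GMet.symm (g • w) w
  omega

/-- (L6) with the hypothesis on the minimal displacement -/
theorem Hyp.l6md (hV : Hyp V δ) {g : G} (hm1 : 2 ≤ md V g) (hm : 100 * δ ≤ md V g)
    {x y : V} (hx : d x (g • x) ≤ md V g + 34 * δ) (hy : d y (g • y) ≤ md V g + 34 * δ) :
    ∃ k : ℤ, 2 * d (g ^ k • x) y ≤ md V g + 118 * δ := by
  refine hV.l6 (by omega) hm ?_ hx hy
  intro w
  have h := hV.l4 (g := g) (by omega) w 2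
  rw [pow_two, mul_smul] at h
  omega

end hyp

/-! ### the commutator lemma -/

section com

variable {G V : Type} [Group G] [GMet V] [MulAction G V] [IsomAct G V] {δ : ℕ}

/-- `g` shifts points near `[x,y]` by a constant: -/
theorem Hyp.shift (hV : Hyp V δ) {g : G} {x y w w' : V} {D e : ℕ} (hx : d x (g • x) ≤ D)
    (he : d x w + d w y ≤ d x y + e) (he' : d x w' + d w' y ≤ d x y + e)
    (hw : 2 * D + e + 2 * δ ≤ 2 * d x w) (hw' : 2 * D + e + 2 * δ ≤ 2 * d x w') :
    d x (g • w) + d x w' ≤ d x (g • w') + d x w + 2 * δ := by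
  have q := hV (g⁻¹ • x) w x w'
  have p := hV.pp x y w w'
  have e1 := d_inv_smul g x w
  have e2 := d_inv_smul g x w'
  have e3 : d (g⁻¹ • x) x = d x (g • x) := d_inv_smul g x x
  have t1 := tri x (g • x) (g • w')
  have t2 := isom g x w'
  have t3 := tri (g • x) x (g • w')
  have s1 := GMet.symm w x
  have s3 := GMet.symm (g • x) x
  omega

/-- points near `[x,y]` stay near `[x,y]` -/
theorem Hyp.excess (hV : Hyp V δ) {g : G} {x y w : V} {D e : ℕ} (hx : d x (g • x) ≤ D)
    (hy : d y (g • y) ≤ D) (he : d x w + d w y ≤ d x y + e)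
    (hw : 2 * D + e ≤ 2 * d x w) (hw' : 2 * D + e ≤ 2 * d w y) :
    d x (g • w) + d (g • w) y ≤ d x y + (e + 4 * δ) := by
  have q1 := hV (g⁻¹ • x) w x y
  have q2 := hV w (g⁻¹ • y) (g⁻¹ • x) y
  have e1 : d (g⁻¹ • x) w = d x (g • w) := d_inv_smul g x w
  have e2 : d (g⁻¹ • y) w = d y (g • w) := d_inv_smul g y w
  have e3 : d (g⁻¹ • x) x = d x (g • x) := d_inv_smul g x x
  have e4 : d (g⁻¹ • y) y = d y (g • y) := d_inv_smul g y y
  have e5 : d (g⁻¹ • y) (g⁻¹ • x) = d y x := isom g⁻¹ y x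
  have t1 := tri (g⁻¹ • x) x w
  have t2 := tri x (g⁻¹ • x) y
  have s0 := GMet.symm x (g⁻¹ • x)
  have s1 := GMet.symm w (g⁻¹ • y)
  have s2 := GMet.symm w (g⁻¹ • x)
  have s3 := GMet.symm w x
  have s4 := GMet.symm y x
  have s5 := GMet.symm (g • w) y
  omega

/-- margins of translates -/
theorem margin (g : G) {x w : V} {D : ℕ} (hx : d x (g • x) ≤ D) : d x w ≤ d x (g • w) + D := by
  have t := tri (g • x) x (g • w)
  have e := isom g x w
  have s := GMet.symm (g • x) x
  omega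

/-- (COM) the commutator of `g` and `h` displaces the middle points of `[x,y]` (and points near
them) little. -/
theorem Hyp.com_aux (hV : Hyp V δ) {g h : G} {x y u : V} {D e : ℕ} (hgx : d x (g • x) ≤ D)
    (hgy : d y (g • y) ≤ D) (hhx : d x (h • x) ≤ D) (hhy : d y (h • y) ≤ D)
    (he : d x u + d u y ≤ d x y + e) (h1 : 8 * D + e + 14 * δ ≤ 2 * d x u)
    (h2 : 8 * D + e + 14 * δ ≤ 2 * d u y) :
    d u ((g * h * g⁻¹ * h⁻¹) • u) ≤ e + 22 * δ := by
  have hgx' : d x (g⁻¹ • x) ≤ D := by rw [disp_inv]; exact hgx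
  have hgy' : d y (g⁻¹ • y) ≤ D := by rw [disp_inv]; exact hgy
  have hhx' : d x (h⁻¹ • x) ≤ D := by rw [disp_inv]; exact hhx
  have hhy' : d y (h⁻¹ • y) ≤ D := by rw [disp_inv]; exact hhy
  -- the points `w1 = h⁻¹u`, `z = g⁻¹ h⁻¹ u`, `w2 = h z`, `w3 = g h z`
  set w1 := h⁻¹ • u with hw1
  set z := g⁻¹ • w1 with hz
  set w2 := h • z with hw2
  set w3 := g • w2 with hw3
  have hgz : g • z = w1 := by rw [hz, smul_inv_smul]
  have hhw1 : h • w1 = u := by rw [hw1, smul_inv_smul]
  have m1 := margin (w := u) h⁻¹ hhx'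
  have m1' := margin (w := u) h⁻¹ hhy'
  have m2 := margin (w := w1) g⁻¹ hgx'
  have m2' := margin (w := w1) g⁻¹ hgy'
  have m3 := margin (w := z) h hhx
  have m3' := margin (w := z) h hhy
  rw [← hw1] at m1 m1'
  rw [← hz] at m2 m2'
  rw [← hw2] at m3 m3'
  have s1 := GMet.symm u y
  have s2 := GMet.symm w1 y
  have s3 := GMet.symm z y
  have s4 := GMet.symm w2 y
  have s5 := GMet.symm w3 y
  have E1 := hV.excess (w := u) hhx' hhy' he (by omega) (by omega)
  rw [← hw1] at E1
  have E2 := hV.excess (w := w1) hgx' hgy' E1 (by omega) (by omega)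
  rw [← hz] at E2
  have E3 := hV.excess (w := z) hhx hhy E2 (by omega) (by omega)
  rw [← hw2] at E3
  have E4 := hV.excess (w := w2) hgx hgy E3 (by omega) (by omega)
  rw [← hw3] at E4
  -- shifts: `s_g(w2) - s_g(z)` and `s_h(z) - s_h(w1)`
  have a1 := hV.shift (y := y) (w := w2) (w' := z) (e := e + 12 * δ) hgx (by omega) (by omega) (by omega)
    (by omega)
  have a2 := hV.shift (y := y) (w := z) (w' := w2) (e := e + 12 * δ) hgx (by omega) (by omega) (by omega)
    (by omega)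
  have b1 := hV.shift (y := y) (w := w1) (w' := z) (e := e + 12 * δ) hhx (by omega) (by omega) (by omega)
    (by omega)
  have b2 := hV.shift (y := y) (w := z) (w' := w1) (e := e + 12 * δ) hhx (by omega) (by omega) (by omega)
    (by omega)
  rw [hgz, ← hw3] at a1 a2
  rw [hhw1, ← hw2] at b1 b2
  have p := hV.pp x y u w3
  have e1 : (g * h * g⁻¹ * h⁻¹) • u = w3 := by
    rw [hw3, hw2, hz, hw1, mul_smul, mul_smul, mul_smul]
  rw [e1]
  omega

/-- (COM) the commutator `c = ghg⁻¹h⁻¹` and its conjugates by `g` and `h` displace the points in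
the middle of `[x,y]` by at most `26δ`. -/
theorem Hyp.com (hV : Hyp V δ) {g h : G} {x y : V} {D : ℕ} (hgx : d x (g • x) ≤ D)
    (hgy : d y (g • y) ≤ D) (hhx : d x (h • x) ≤ D) (hhy : d y (h • y) ≤ D) {u : V}
    (hu : Bt x u y) (h1 : 5 * D + 10 * δ ≤ d x u) (h2 : 5 * D + 10 * δ ≤ d u y) :
    d u ((g * h * g⁻¹ * h⁻¹) • u) ≤ 22 * δ ∧
    d u ((g * (g * h * g⁻¹ * h⁻¹) * g⁻¹) • u) ≤ 26 * δ ∧
    d u ((h * (g * h * g⁻¹ * h⁻¹) * h⁻¹) • u) ≤ 26 * δ := by
  unfold Bt at hu
  have hgx' : d x (g⁻¹ • x) ≤ D := by rw [disp_inv]; exact hgx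
  have hgy' : d y (g⁻¹ • y) ≤ D := by rw [disp_inv]; exact hgy
  have hhx' : d x (h⁻¹ • x) ≤ D := by rw [disp_inv]; exact hhx
  have hhy' : d y (h⁻¹ • y) ≤ D := by rw [disp_inv]; exact hhy
  have s1 := GMet.symm u y
  refine ⟨?_, ?_, ?_⟩
  · have := hV.com_aux (e := 0) hgx hgy hhx hhy (u := u) (by omega) (by omega) (by omega)
    omega
  · rw [disp_conj]
    have m1 := margin (w := u) g⁻¹ hgx'
    have m1' := margin (w := u) g⁻¹ hgy'
    have s2 := GMet.symm (g⁻¹ • u) y
    have E1 := hV.excess (e := 0) (w := u) hgx' hgy' (by omega) (by omega) (by omega)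
    have := hV.com_aux (e := 4 * δ) hgx hgy hhx hhy (u := g⁻¹ • u) (by omega) (by omega) (by omega)
    omega
  · rw [disp_conj]
    have m1 := margin (w := u) h⁻¹ hhx'
    have m1' := margin (w := u) h⁻¹ hhy'
    have s2 := GMet.symm (h⁻¹ • u) y
    have E1 := hV.excess (e := 0) (w := u) hhx' hhy' (by omega) (by omega) (by omega)
    have := hV.com_aux (e := 4 * δ) hgx hgy hhx hhy (u := h⁻¹ • u) (by omega) (by omega) (by omega)
    omega

end com

/-! ### the same statements in the form used by the blueprint -/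

section forms

variable {G V : Type} [Group G] [GMet V] [MulAction G V] [IsomAct G V] {δ : ℕ}

/-- (L3) -/
theorem disp_bt (hV : Hyp V δ) {g : G} {x y z : V} {D : ℕ} (hz : Bt x z y)
    (hx : d x (g • x) ≤ D) (hy : d y (g • y) ≤ D) : d z (g • z) ≤ D + 2 * δ := hV.l3 hx hy hz

/-- (L8) -/
theorem disp_mid (hV : Hyp V δ) {g : G} {x y z : V} {D : ℕ} (hz : Bt x z y)
    (hx : d x (g • x) ≤ D) (hy : d y (g • y) ≤ D) (h1 : D + 13 * δ ≤ d x z)
    (h2 : D + 13 * δ ≤ d z y) (u : V) : d z (g • z) ≤ d u (g • u) + 26 * δ :=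
  hV.l8 hx hy hz h1 h2 u

omit [IsomAct G V] in
theorem md_eq_of_min {g : G} {x : V} (h : ∀ y : V, d x (g • x) ≤ d y (g • y)) :
    md V g = d x (g • x) := by
  have : Nonempty V := ⟨x⟩
  obtain ⟨y, hy⟩ := exists_md (V := V) g
  have h1 := h y
  have h2 := md_le g x
  omega

/-- (L4) -/
theorem lox_pow (hV : Hyp V δ) {g : G} {x : V} (h : ∀ y : V, d x (g • x) ≤ d y (g • y))
    (hm : 6 * δ + 2 ≤ d x (g • x)) (y : V) (j : ℕ) :
    j * (d x (g • x) - 6 * δ) ≤ d y (g ^ j • y) := by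
  have h1 := md_eq_of_min h
  have := hV.l4 (g := g) (by omega) y j
  rwa [h1] at this

/-- asymptotic displacement: a linear lower bound along one orbit up to a constant gives the exact
linear lower bound for all points. -/
theorem stable {g : G} {a b c : ℕ} {x : V} (h : ∀ M : ℕ, M * a ≤ b * d x (g ^ M • x) + c) (y : V)
    (j : ℕ) : j * a ≤ b * d y (g ^ j • y) := by
  by_contra hlt
  push Not at hlt
  set n := d y (g ^ j • y) with hn
  set k := b * (2 * d x y) + c + 1 with hk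
  have h3 := h (j * k)
  have h4 := disp_pow (g ^ j) y k
  rw [← pow_mul, ← hn] at h4
  have h5 := disp_lip (g ^ (j * k)) x y
  have h6 : k * (b * n + 1) ≤ k * (j * a) := Nat.mul_le_mul_left k hlt
  have h7 : j * k * a = k * (j * a) := by ring
  have h8 : k * (b * n + 1) = b * (k * n) + k := by ring
  have h9 : b * d x (g ^ (j * k) • x) ≤ b * (2 * d x y + k * n) :=
    Nat.mul_le_mul_left b (by omega)
  have h10 : b * (2 * d x y + k * n) = b * (2 * d x y) + b * (k * n) := by ring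
  omega

/-- (L6) -/
theorem axis_near (hV : Hyp V δ) {g : G} {m : ℕ} (hm1 : 1 ≤ m) (hm : 100 * δ ≤ m)
    (hlin : ∀ w : V, 2 * m ≤ d w (g ^ 2 • w) + 12 * δ) {x y : V} (hx : d x (g • x) ≤ m + 34 * δ)
    (hy : d y (g • y) ≤ m + 34 * δ) : ∃ k : ℤ, 2 * d (g ^ k • x) y ≤ m + 118 * δ := by
  refine hV.l6 hm1 hm (fun w => ?_) hx hy
  have := hlin w
  rwa [pow_two, mul_smul] at this

/-- (COM) -/
theorem comm_mid (hV : Hyp V δ) {g h : G} {x y u : V} {D : ℕ} (hgx : d x (g • x) ≤ D)
    (hgy : d y (g • y) ≤ D) (hhx : d x (h • x) ≤ D) (hhy : d y (h • y) ≤ D)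
    (hu : Bt x u y) (h1 : 5 * D + 10 * δ ≤ d x u) (h2 : 5 * D + 10 * δ ≤ d u y) :
    d u ((g * h * g⁻¹ * h⁻¹) • u) ≤ 22 * δ ∧
    d u ((g * (g * h * g⁻¹ * h⁻¹) * g⁻¹) • u) ≤ 26 * δ ∧
    d u ((h * (g * h * g⁻¹ * h⁻¹) * h⁻¹) • u) ≤ 26 * δ := hV.com hgx hgy hhx hhy hu h1 h2

end forms

end FrobP
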