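import Pool.Agent.Work.MP_50f8f6_al.Interface

/-!
# Block D: Bowditch's guessing geodesics criterion
-/

namespace FrobP
open GMet

namespace Bow

theorem sq_le_two_pow (k : ℕ) (hk : 4 ≤ k) : k ^ 2 ≤ 2 ^ k := by
  induction k, hk using Nat.le_induction with
  | base => norm_num
  | succ n hn ih =>
    have h2 : (2:ℕ) ^ (n + 1) = 2 * 2 ^ n := by rw [pow_succ]; ring
    have h3 : (n + 1) ^ 2 ≤ 2 * n ^ 2 := by nlinarith
    omega

theorem exists_k0 (h : ℕ) : ∃ k0, ∀ k, k0 ≤ k → 4 * ((k + 4) * h) + 4 * h + 2 ≤ 2 ^ k := by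
  refine ⟨4 * h + 22, fun k hk => ?_⟩
  have h1 := sq_le_two_pow k (by omega)
  have h2 : 4 * ((k + 4) * h) + 4 * h + 2 ≤ k ^ 2 := by nlinarith
  omega

variable {W : Type} [GMet W] {L : W → W → Set W} {h : ℕ}

/-- (i) -/
theorem near_log
    (H2 : ∀ v w u, ∀ z ∈ L v w, ∃ z', (z' ∈ L v u ∨ z' ∈ L u w) ∧ d z z' ≤ h)
    (H3 : ∀ v w, d v w ≤ 1 → ∀ z ∈ L v w, d v z ≤ h) :
    ∀ (k : ℕ) (x y : W), d x y ≤ 2 ^ k → ∀ z ∈ L x y, ∃ q, Bt x q y ∧ d z q ≤ (k + 1) * h := by
  intro k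
  induction k with
  | zero =>
    intro x y hxy z hz
    refine ⟨x, Bt.left _ _, ?_⟩
    have := H3 x y (by simpa using hxy) z hz
    rw [GMet.symm z x]; omega
  | succ k ih =>
    intro x y hxy z hz
    obtain ⟨m, hm, hxm⟩ := exists_bt x y (k := d x y / 2) (by omega)
    have hp : (2:ℕ) ^ (k + 1) = 2 * 2 ^ k := by rw [pow_succ]; ring
    rw [hp] at hxy
    obtain ⟨z', hz', hzz⟩ := H2 x y m z hz
    have hm' := hm
    unfold Bt at hm'
    have e : (k + 1 + 1) * h = (k + 1) * h + h := by ring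
    rcases hz' with hz' | hz'
    · obtain ⟨q, hq, hd⟩ := ih x m (by omega) z' hz'
      refine ⟨q, (hm.trans_left hq).1, ?_⟩
      have t := tri z z' q
      omega
    · obtain ⟨q, hq, hd⟩ := ih m y (by omega) z' hz'
      refine ⟨q, (hm.trans_right hq).1, ?_⟩
      have t := tri z z' q
      omega

/-- (ii) -/
theorem near_abs (h1 : 1 ≤ h) {k0 : ℕ}
    (hk0 : ∀ k, k0 ≤ k → 4 * ((k + 4) * h) + 4 * h + 2 ≤ 2 ^ k)
    (H2 : ∀ v w u, ∀ z ∈ L v w, ∃ z', (z' ∈ L v u ∨ z' ∈ L u w) ∧ d z z' ≤ h)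
    (H3 : ∀ v w, d v w ≤ 1 → ∀ z ∈ L v w, d v z ≤ h) :
    ∀ (x y : W), ∀ z ∈ L x y, ∃ q, Bt x q y ∧ d z q ≤ (k0 + 4) * h := by
  classical
  have hlog := near_log H2 H3
  -- for fixed n
  have main : ∀ n : ℕ, ∀ x y : W, d x y ≤ n → ∀ z ∈ L x y, ∃ q, Bt x q y ∧ d z q ≤ (k0 + 4) * h := by
    intro n
    have hex : ∃ D, ∀ x y : W, d x y ≤ n → ∀ z ∈ L x y, ∃ q, Bt x q y ∧ d z q ≤ D :=
      ⟨(n + 1) * h, fun x y hxy z hz => hlog n x y (hxy.trans Nat.lt_two_pow_self.le) z hz⟩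
    obtain ⟨D, hD, hmin⟩ : ∃ D, (∀ x y : W, d x y ≤ n → ∀ z ∈ L x y, ∃ q, Bt x q y ∧ d z q ≤ D) ∧
        ∀ D' < D, ¬ (∀ x y : W, d x y ≤ n → ∀ z ∈ L x y, ∃ q, Bt x q y ∧ d z q ≤ D') :=
      ⟨Nat.find hex, Nat.find_spec hex, fun D' h' => Nat.find_min hex h'⟩
    suffices hle : D ≤ (k0 + 4) * h by
      intro x y hxy z hz
      obtain ⟨q, hq, hd⟩ := hD x y hxy z hz
      exact ⟨q, hq, hd.trans hle⟩
    by_contra hlt
    push Not at hlt
    have hpos : 0 < D := lt_of_le_of_lt (Nat.zero_le _) hlt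
    have hm := hmin (D - 1) (by omega)
    push Not at hm
    obtain ⟨x, y, hxy, z, hz, hfar⟩ := hm
    obtain ⟨q, hq, hzq⟩ := hD x y hxy z hz
    have hfar' : ∀ u, Bt x u y → D ≤ d z u := fun u hu => by have := hfar u hu; omega
    -- x'
    obtain ⟨x', hx', hdx'⟩ := exists_bt' x q (k := min (2 * D + 2 * h + 1) (d x q)) (min_le_right _ _)
    obtain ⟨y', hy', hdy'⟩ := exists_bt q y (k := min (2 * D + 2 * h + 1) (d q y)) (min_le_right _ _)
    have h3h : 3 * h < D := by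
      have : (k0 + 4) * h = k0 * h + 4 * h := by ring
      have : 0 ≤ k0 * h := Nat.zero_le _
      omega
    have hq' := hq
    have hx'' := hx'
    have hy'' := hy'
    unfold Bt at hq' hx'' hy''
    have hxx'n : d x x' ≤ n := by omega
    have hyy'n : d y' y ≤ n := by omega
    obtain ⟨z1, hz1, hzz1⟩ := H2 x y x' z hz
    rcases hz1 with hz1 | hz1
    · -- case A
      obtain ⟨w, hw, hdw⟩ := hD x x' hxx'n z1 hz1
      have t1 := tri z z1 w
      have hwq := (hx'.trans_left hw).2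
      unfold Bt at hwq
      have t2 := tri w z q
      have s1 := GMet.symm w z
      by_cases hc : 2 * D + 2 * h + 1 ≤ d x q
      · rw [min_eq_left hc] at hdx'
        omega
      · rw [min_eq_right (by omega)] at hdx'
        have hxx' : d x x' = 0 := by omega
        have := eq_of_d _ _ hxx'
        subst this
        have h5 := H3 x x (by omega) z1 hz1
        have h6 := hfar' x (Bt.left _ _)
        have t3 := tri z z1 x
        have s2 := GMet.symm z1 x
        omega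
    · obtain ⟨z2, hz2, hzz2⟩ := H2 x' y y' z1 hz1
      have t0 := tri z z1 z2
      rcases hz2 with hz2 | hz2
      · -- case B
        obtain ⟨k, hk1, hk2⟩ : ∃ k, (k + 3) * h < D ∧ D ≤ (k + 4) * h := by
          have hex2 : ∃ k, D ≤ (k + 4) * h := ⟨D, by nlinarith⟩
          refine ⟨Nat.find hex2, ?_, Nat.find_spec hex2⟩
          by_cases h0 : Nat.find hex2 = 0
          · rw [h0]; omega
          · have := Nat.find_min hex2 (m := Nat.find hex2 - 1) (by omega)
            push Not at this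
            have e : Nat.find hex2 - 1 + 4 = Nat.find hex2 + 3 := by omega
            rwa [e] at this
        have hkk : k0 ≤ k := by
          by_contra hcon
          push Not at hcon
          have : (k + 4) * h ≤ (k0 + 4) * h := Nat.mul_le_mul_right _ (by omega)
          omega
        have hpw := hk0 k hkk
        have hdd : d x' y' ≤ 2 ^ k := by
          have t := tri x' q y'
          have m1 := min_le_left (2 * D + 2 * h + 1) (d x q)
          have m2 := min_le_left (2 * D + 2 * h + 1) (d q y)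
          omega
        obtain ⟨w, hw, hdw⟩ := hlog k x' y' hdd z2 hz2
        have hwb : Bt x w y := by
          have a1 := (hq.trans_left hx').2
          have a2 := (hq.trans_left hx').1
          have a3 := a1.trans_right hy'
          -- Bt x' y' y
          have a4 := a3.1.trans_left hw
          exact (a2.trans_right a4.1).1
        have h6 := hfar' w hwb
        have t3 := tri z z2 w
        have e : (k + 3) * h = (k + 1) * h + 2 * h := by ring
        omega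
      · -- case C
        obtain ⟨w, hw, hdw⟩ := hD y' y hyy'n z2 hz2
        have t1 := tri z z2 w
        have hwq := (hy'.trans_right hw).2
        unfold Bt at hwq
        have t2 := tri q z w
        have s1 := GMet.symm q z
        by_cases hc : 2 * D + 2 * h + 1 ≤ d q y
        · rw [min_eq_left hc] at hdy'
          omega
        · rw [min_eq_right (by omega)] at hdy'
          have hyy' : d y' y = 0 := by omega
          have := eq_of_d _ _ hyy'
          subst this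
          have h5 := H3 y' y' (by omega) z2 hz2
          have h6 := hfar' y' (Bt.right _ _)
          have t3 := tri z z2 y'
          have s2 := GMet.symm z2 y'
          omega
  intro x y
  exact main (d x y) x y le_rfl

/-- (iii) -/
theorem near_L {D0 : ℕ}
    (H1 : ∀ v w, v ∈ L v w ∧
      Relation.ReflTransGen (fun a b => a ∈ L v w ∧ b ∈ L v w ∧ d a b ≤ h) v w)
    (H2 : ∀ v w u, ∀ z ∈ L v w, ∃ z', (z' ∈ L v u ∨ z' ∈ L u w) ∧ d z z' ≤ h)
    (HD : ∀ (x y : W), ∀ z ∈ L x y, ∃ q, Bt x q y ∧ d z q ≤ D0) :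
    ∀ x y q : W, Bt x q y → ∃ z ∈ L x y, d q z ≤ 3 * (D0 + h) + h := by
  intro x y q hq
  obtain ⟨hx, hchain⟩ := H1 x y
  have hPQ : ∀ a ∈ L x y, (∃ u, Bt x u q ∧ d a u ≤ h + D0) ∨ (∃ u, Bt q u y ∧ d a u ≤ h + D0) := by
    intro a ha
    obtain ⟨a', ha', hd⟩ := H2 x y q a ha
    rcases ha' with ha' | ha'
    · obtain ⟨u, hu, hdu⟩ := HD x q a' ha'
      exact Or.inl ⟨u, hu, by have := tri a a' u; omega⟩
    · obtain ⟨u, hu, hdu⟩ := HD q y a' ha'
      exact Or.inr ⟨u, hu, by have := tri a a' u; omega⟩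
  have key : ∀ b, Relation.ReflTransGen (fun a b => a ∈ L x y ∧ b ∈ L x y ∧ d a b ≤ h) x b →
      b ∈ L x y ∧ ((∃ u, Bt x u q ∧ d b u ≤ h + D0) ∨
        ∃ a ∈ L x y, (∃ u, Bt x u q ∧ d a u ≤ h + D0) ∧
          ∃ a', (∃ u, Bt q u y ∧ d a' u ≤ h + D0) ∧ d a a' ≤ h) := by
    intro b hb
    induction hb with
    | refl => exact ⟨hx, Or.inl ⟨x, Bt.left _ _, by rw [d_self]; omega⟩⟩
    | tail _ hbc ih =>
      refine ⟨hbc.2.1, ?_⟩
      rcases ih.2 with hP | hr
      · rcases hPQ _ hbc.2.1 with h1 | h2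
        · exact Or.inl h1
        · exact Or.inr ⟨_, hbc.1, hP, _, h2, hbc.2.2⟩
      · exact Or.inr hr
  obtain ⟨hyL, hfin⟩ := key y hchain
  obtain ⟨a, ha, ⟨u, hu, hdu⟩, a', ⟨v, hv, hdv⟩, haa⟩ : ∃ a ∈ L x y,
      (∃ u, Bt x u q ∧ d a u ≤ h + D0) ∧
          ∃ a', (∃ u, Bt q u y ∧ d a' u ≤ h + D0) ∧ d a a' ≤ h := by
    rcases hfin with hP | hr
    · exact ⟨y, hyL, hP, y, ⟨y, Bt.right _ _, by rw [d_self]; omega⟩, by rw [d_self]; omega⟩
    · exact hr
  refine ⟨a, ha, ?_⟩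
  have b1 := (hq.trans_left hu).2
  have b2 := (b1.trans_right hv).2
  unfold Bt at b2
  have t1 := tri u a v
  have t2 := tri a a' v
  have t3 := tri q u a
  have s1 := GMet.symm u a
  have s2 := GMet.symm q u
  omega

end Bow

theorem bowditch : BowditchStmt := by
  intro h0
  obtain ⟨k0, hk0⟩ := Bow.exists_k0 (h0 + 1)
  refine ⟨(3 * ((k0 + 4) * (h0 + 1) + (h0 + 1)) + (h0 + 1)) + (h0 + 1) + (k0 + 4) * (h0 + 1),
    (k0 + 4) * (h0 + 1), ?_⟩
  intro W _ L H1 H2 H3
  have H1' : ∀ v w, v ∈ L v w ∧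
      Relation.ReflTransGen (fun a b => a ∈ L v w ∧ b ∈ L v w ∧ d a b ≤ h0 + 1) v w := by
    intro v w
    refine ⟨(H1 v w).1, ?_⟩
    refine Relation.ReflTransGen.mono ?_ _ _ (H1 v w).2
    intro a b hab
    exact ⟨hab.1, hab.2.1, by have := hab.2.2; omega⟩
  have H2' : ∀ v w u, ∀ z ∈ L v w, ∃ z', (z' ∈ L v u ∨ z' ∈ L u w) ∧ d z z' ≤ h0 + 1 := by
    intro v w u z hz
    obtain ⟨z', h1, h2⟩ := H2 v w u z hz
    exact ⟨z', h1, by omega⟩
  have H3' : ∀ v w, d v w ≤ 1 → ∀ z ∈ L v w, d v z ≤ h0 + 1 := by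
    intro v w hvw z hz
    have := H3 v w hvw z hz
    omega
  have HD := Bow.near_abs (by omega) hk0 H2' H3'
  have HL := Bow.near_L H1' H2' HD
  generalize (k0 + 4) * (h0 + 1) = D0 at *
  refine ⟨?_, HD⟩
  intro x y w z hz
  obtain ⟨a, ha, hd⟩ := HL x y z hz
  obtain ⟨a', ha', hd'⟩ := H2' x y w a ha
  rcases ha' with ha' | ha'
  · obtain ⟨u, hu, hdu⟩ := HD x w a' ha'
    refine ⟨u, Or.inl hu, ?_⟩
    have t1 := tri z a u
    have t2 := tri a a' u
    omega
  · obtain ⟨u, hu, hdu⟩ := HD w y a' ha'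
    refine ⟨u, Or.inr hu, ?_⟩
    have t1 := tri z a u
    have t2 := tri a a' u
    omega

end FrobP
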