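import Pool.Agent.Work.MP_50f8f6_al.Repro2

/-!
# Block J, `cen` for the quotient: centralizers of elements of small displacement are cyclic
-/

namespace FrobP
open GMet

/-- a subgroup contained in the image of a cyclic subgroup is cyclic -/
theorem isCyclic_of_le_map {G H : Type} [Group G] [Group H] (f : G →* H) (E : Subgroup G)
    (hE : IsCyclic E) (C : Subgroup H) (h : C ≤ E.map f) : IsCyclic C := by
  have h1 : IsCyclic (E.map f) := by
    have hs : Function.Surjective (f.subgroupMap E) := f.subgroupMap_surjective E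
    exact isCyclic_of_surjective _ hs
  exact isCyclic_of_injective (Subgroup.inclusion h) (Subgroup.inclusion_injective h)

namespace JH

variable {G V : Type} [Group G] [GMet V] [MulAction G V] [IsomAct G V]
  {δ ℓ A r p c K0 ρ R θ τ : ℕ} {hρ : 1 ≤ ρ} {hR : 1 ≤ R}

/-- centralizer in the apex case -/
theorem cen_apex (J : JH G V δ ℓ A r p c K0 ρ R θ τ hρ hR)
    (γ : G ⧸ (NN (fun E : Ax G V δ => HAx p δ E))) (hγ1 : γ ≠ 1)
    (hγ : FA (V := V) (hρ := hρ) (hR := hR) γ) : IsCyclic (Subgroup.centralizer {γ}) := by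
  obtain ⟨g, i, hg, hgi⟩ := FA.exists_lift J hγ
  subst hg
  have hgN : g ∉ (NN (fun E : Ax G V δ => HAx p δ E)) := fun h =>
    hγ1 ((QuotientGroup.eq_one_iff g).2 h)
  have hcyc : IsCyclic i.1 := by
    obtain ⟨e, he, -⟩ := i.2
    rw [he]; infer_instance
  refine isCyclic_of_le_map (QuotientGroup.mk' (NN (fun E : Ax G V δ => HAx p δ E))) i.1 hcyc _ ?_
  intro η hη
  rw [Subgroup.mem_centralizer_singleton_iff] at hη
  obtain ⟨u, rfl⟩ := QuotientGroup.mk_surjective η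
  have hfix : (QuotientGroup.mk g : G ⧸ (NN (fun E : Ax G V δ => HAx p δ E))) •
      QM.mk (NN (fun E : Ax G V δ => HAx p δ E)) (Cone.apex (axCone G V δ ρ R hρ hR) i) =
      QM.mk (NN (fun E : Ax G V δ => HAx p δ E)) (Cone.apex (axCone G V δ ρ R hρ hR) i) := by
    rw [QM.smul_mk, Cone.smul_apex, (J.norm g i).2 hgi]
  have hfix' : (QuotientGroup.mk g : G ⧸ (NN (fun E : Ax G V δ => HAx p δ E))) •
      QM.mk (NN (fun E : Ax G V δ => HAx p δ E)) (Cone.apex (axCone G V δ ρ R hρ hR) (u • i)) =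
      QM.mk (NN (fun E : Ax G V δ => HAx p δ E)) (Cone.apex (axCone G V δ ρ R hρ hR) (u • i)) := by
    have e1 : QM.mk (NN (fun E : Ax G V δ => HAx p δ E))
        (Cone.apex (axCone G V δ ρ R hρ hR) (u • i)) =
        (QuotientGroup.mk u : G ⧸ (NN (fun E : Ax G V δ => HAx p δ E))) •
        QM.mk (NN (fun E : Ax G V δ => HAx p δ E)) (Cone.apex (axCone G V δ ρ R hρ hR) i) := by
      rw [QM.smul_mk, Cone.smul_apex]
    rw [e1, ← mul_smul, ← hη, mul_smul, hfix]
  have huniq := J.apex_unique hgi hgN hfix'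
  obtain ⟨n, hn, hnv⟩ := (QM.mk_eq_iff (NN (fun E : Ax G V δ => HAx p δ E))).1 huniq
  rw [Cone.smul_apex] at hnv
  have hni : n • i = u • i := Cone.apex_inj (axCone G V δ ρ R hρ hR) hnv
  have hmem : n⁻¹ * u ∈ i.1 := by
    rw [← J.norm, mul_smul, ← hni, inv_smul_smul]
  refine ⟨n⁻¹ * u, hmem, ?_⟩
  change (QuotientGroup.mk (n⁻¹ * u) : G ⧸ (NN (fun E : Ax G V δ => HAx p δ E))) =
    QuotientGroup.mk u
  exact mk_mul_of_mem (Subgroup.inv_mem _ hn)

/-- centralizer without fixed apex -/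
theorem cen_na (J : JH G V δ ℓ A r p c K0 ρ R θ τ hρ hR)
    (γ : G ⧸ (NN (fun E : Ax G V δ => HAx p δ E))) (hγ1 : γ ≠ 1)
    (hγ : ¬ FA (V := V) (hρ := hρ) (hR := hR) γ)
    (a : (QM (NN (fun E : Ax G V δ => HAx p δ E)) (Cone (axCone G V δ ρ R hρ hR))))
    (ha : d a (γ • a) ≤ ℓ) : IsCyclic (Subgroup.centralizer {γ}) := by
  obtain ⟨v, rfl⟩ := QM.mk_surj (NN (fun E : Ax G V δ => HAx p δ E)) a
  obtain ⟨g0, rfl⟩ := QuotientGroup.mk_surjective γ
  obtain ⟨n0, hn0, hd0⟩ := exists_n_mul ha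
  have hmk : (QuotientGroup.mk (n0 * g0) : G ⧸ (NN (fun E : Ax G V δ => HAx p δ E))) =
    QuotientGroup.mk g0 := mk_mul_of_mem hn0
  set g := n0 * g0 with hgdef
  rw [← hmk] at hγ1 hγ ha ⊢
  have hg1 : g ≠ 1 := by
    intro h
    apply hγ1
    rw [h]; exact QuotientGroup.mk_one _
  refine isCyclic_of_le_map (QuotientGroup.mk' (NN (fun E : Ax G V δ => HAx p δ E)))
    (Subgroup.centralizer {g}) (J.zc g hg1) _ ?_
  intro η hη
  rw [Subgroup.mem_centralizer_singleton_iff] at hη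
  obtain ⟨u0, rfl⟩ := QuotientGroup.mk_surjective η
  obtain ⟨n, hn, hd⟩ := exists_n (hρ := hρ) (hR := hR) (p := p) v u0
  have hmku : (QuotientGroup.mk (n * u0) : G ⧸ (NN (fun E : Ax G V δ => HAx p δ E))) =
    QuotientGroup.mk u0 := mk_mul_of_mem hn
  rw [← mul_smul] at hd
  set u := n * u0 with hudef
  rw [← hmku] at hη hd ⊢
  -- tightness
  have ht : d v (u • v) = d (QM.mk (NN (fun E : Ax G V δ => HAx p δ E)) v)
      (QM.mk (NN (fun E : Ax G V δ => HAx p δ E)) (u • v)) := by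
    rw [hd, QM.smul_mk]
  have hw : d (QM.mk (NN (fun E : Ax G V δ => HAx p δ E)) (u • v))
      ((QuotientGroup.mk g : G ⧸ (NN (fun E : Ax G V δ => HAx p δ E))) •
      QM.mk (NN (fun E : Ax G V δ => HAx p δ E)) (u • v)) ≤ ℓ := by
    rw [← QM.smul_mk (NN (fun E : Ax G V δ => HAx p δ E)) u v, ← mul_smul, ← hη, mul_smul,
      IsomAct.isom]
    exact ha
  have hgu := J.na_path hγ rfl ht hd0 hw
  have hfv : ∀ j, 2 * (ℓ + 2 * δ) + 2 < d v (Cone.apex (axCone G V δ ρ R hρ hR) j) :=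
    J.na_far hγ rfl (by omega)
  have hcomm : g * u * g⁻¹ * u⁻¹ ∈ (NN (fun E : Ax G V δ => HAx p δ E)) := by
    rw [← QuotientGroup.eq_one_iff]
    have e1 : (QuotientGroup.mk (g * u * g⁻¹ * u⁻¹) :
        G ⧸ (NN (fun E : Ax G V δ => HAx p δ E))) =
        QuotientGroup.mk g * QuotientGroup.mk u * (QuotientGroup.mk g)⁻¹ *
        (QuotientGroup.mk u)⁻¹ := rfl
    rw [e1, ← hη]; group
  have hone : g * u * g⁻¹ * u⁻¹ = 1 := by
    apply J.nfree hcomm (z := (u * g) • v)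
    · have e1 : (g * u * g⁻¹ * u⁻¹) • (u * g) • v = g • u • v := by
        rw [← mul_smul, ← mul_smul]
        congr 1
        group
      rw [e1]
      have t1 := tri ((u * g) • v) (u • v) (g • u • v)
      have i1 : d ((u * g) • v) (u • v) = d v (g • v) := by
        rw [mul_smul, IsomAct.isom, GMet.symm]
      omega
    · intro j
      have := hfv ((u * g)⁻¹ • j)
      rw [← IsomAct.isom (u * g), Cone.smul_apex, smul_inv_smul] at this
      exact this
  refine ⟨u, ?_, rfl⟩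
  rw [SetLike.mem_coe, Subgroup.mem_centralizer_singleton_iff]
  have h2 : g * u = u * g := by
    have : g * u * g⁻¹ = u := by
      have := mul_eq_one_iff_eq_inv.1 hone
      rwa [inv_inv] at this
    calc g * u = (g * u * g⁻¹) * g := by group
      _ = u * g := by rw [this]
  exact h2.symm

/-- `cen` for the quotient -/
theorem cen' (J : JH G V δ ℓ A r p c K0 ρ R θ τ hρ hR)
    (γ : G ⧸ (NN (fun E : Ax G V δ => HAx p δ E))) (hγ1 : γ ≠ 1)
    (h : ∃ a : (QM (NN (fun E : Ax G V δ => HAx p δ E)) (Cone (axCone G V δ ρ R hρ hR))),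
      d a (γ • a) ≤ ℓ) : IsCyclic (Subgroup.centralizer {γ}) := by
  by_cases hγ : FA (V := V) (hρ := hρ) (hR := hR) γ
  · exact J.cen_apex γ hγ1 hγ
  · obtain ⟨a, ha⟩ := h
    exact J.cen_na γ hγ1 hγ a ha

end JH

end FrobP
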