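import Mathlib

/-!
# MP_50f8f6_al: definitions

Integer valued geodesic metric spaces, four point hyperbolicity, the class `Good` of group
actions, nearest point projections, cone-off `Cone C`, quotient space `QM`, rotation family
`Rot`, reduction relation `Red`, axes `Ax`.
-/

namespace FrobP

/-- integer valued geodesic metric space -/
class GMet (V : Type) where
  d : V → V → ℕ
  d_self : ∀ x, d x x = 0
  eq_of_d : ∀ x y, d x y = 0 → x = y
  symm : ∀ x y, d x y = d y x
  tri : ∀ x y z, d x z ≤ d x y + d y z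
  geo : ∀ x y k, k ≤ d x y → ∃ z, d x z = k ∧ k + d z y = d x y

open GMet

/-- four point condition with constant `δ` -/
def Hyp (V : Type) [GMet V] (δ : ℕ) : Prop :=
  ∀ x y z w : V, d x y + d z w ≤ max (d x z + d y w) (d x w + d y z) + 2 * δ

/-- `z` lies on a geodesic from `x` to `y` -/
def Bt {V : Type} [GMet V] (x z y : V) : Prop := d x z + d z y = d x y

/-- intervals of triangles are `s`-slim -/
def Slim (V : Type) [GMet V] (s : ℕ) : Prop :=
  ∀ x y w z : V, Bt x z y → ∃ u : V, (Bt x u w ∨ Bt w u y) ∧ d z u ≤ s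

/-- isometric action -/
class IsomAct (G V : Type) [Group G] [GMet V] [MulAction G V] : Prop where
  isom : ∀ (g : G) (x y : V), d (g • x) (g • y) = d x y

/-- minimal displacement of `g` -/
noncomputable def md {G : Type} (V : Type) [Group G] [GMet V] [MulAction G V] (g : G) : ℕ :=
  sInf {n | ∃ x : V, d x (g • x) = n}

/-- The class of actions that is reproduced by the step theorem. -/
structure Good (δ ℓ A r p : ℕ) (G V : Type) [Group G] [GMet V] [MulAction G V] : Prop where
  ne : Nonempty V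
  isom : ∀ (g : G) (x y : V), d (g • x) (g • y) = d x y
  hyp : Hyp V δ
  dich : ∀ g : G, (g ^ p = 1 ∧ ∃ x : V, ∀ k : ℕ, d x (g ^ k • x) ≤ 1) ∨
    (∀ (x : V) (m : ℕ), m ≤ r * d x (g ^ m • x))
  cb : ∀ g : G, g ≠ 1 → ∀ x y : V, d x (g • x) ≤ ℓ → d y (g • y) ≤ ℓ →
    ∃ k : ℤ, d (g ^ k • x) y ≤ A
  ac : ∀ g h : G, g ≠ 1 → h ≠ 1 → ∀ x y : V, d x (g • x) ≤ ℓ → d y (g • y) ≤ ℓ →
    d x (h • x) ≤ ℓ → d y (h • y) ≤ ℓ → A ≤ d x y → g * h = h * g
  cen : ∀ g : G, g ≠ 1 → (∃ x : V, d x (g • x) ≤ ℓ) → IsCyclic (Subgroup.centralizer {g})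

/-- `Y` is `θ`-quasiconvex -/
def QC {V : Type} [GMet V] (θ : ℕ) (Y : Set V) : Prop :=
  ∀ x ∈ Y, ∀ y ∈ Y, ∀ z, Bt x z y → ∃ w ∈ Y, d z w ≤ θ

/-- `a` is a nearest point of `x` in `Y` -/
def Pr {V : Type} [GMet V] (Y : Set V) (x a : V) : Prop := a ∈ Y ∧ ∀ b ∈ Y, d x a ≤ d x b

/-- maximal distance between nearest points of `x` and of `y` in `Y` -/
noncomputable def prd {V : Type} [GMet V] (Y : Set V) (x y : V) : ℕ :=
  sSup {n | ∃ a b, Pr Y x a ∧ Pr Y y b ∧ d a b = n}

/-- data for the cone-off -/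
structure ConeData (V ι : Type) [GMet V] where
  Y : ι → Set V
  ρ : ℕ
  R : ℕ
  hY : ∀ i, (Y i).Nonempty
  hρ : 1 ≤ ρ
  hR : 1 ≤ R

/-- a family of uniformly quasiconvex subsets with small mutual projections -/
structure Fam {V ι : Type} [GMet V] (C : ConeData V ι) (θ : ℕ) : Prop where
  one_le : 1 ≤ θ
  hyp : Hyp V θ
  qc : ∀ i, QC θ (C.Y i)
  small : ∀ i j, i ≠ j → ∀ x ∈ C.Y j, ∀ y ∈ C.Y j, prd (C.Y i) x y ≤ θ

/-- pre-vertices of the cone-off -/
inductive CV (V ι : Type) where
  | base (x : V) : CV V ι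
  | lev (i : ι) (y : V) (k : ℕ) : CV V ι
  | apex (i : ι) : CV V ι

namespace CV

variable {V ι : Type} [GMet V]

/-- valid vertices -/
def Valid (C : ConeData V ι) : CV V ι → Prop
  | base _ => True
  | lev i y k => y ∈ C.Y i ∧ 1 ≤ k ∧ k ≤ C.ρ
  | apex _ => True

/-- edges of the cone-off -/
inductive Edge (C : ConeData V ι) : CV V ι → CV V ι → Prop
  | base (x y : V) : d x y ≤ C.R → Edge C (.base x) (.base y)
  | up0 (i : ι) (y : V) : Edge C (.base y) (.lev i y 1)
  | dn0 (i : ι) (y : V) : Edge C (.lev i y 1) (.base y)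
  | hor (i : ι) (y z : V) (k : ℕ) : d y z ≤ 2 ^ k * C.R → Edge C (.lev i y k) (.lev i z k)
  | up (i : ι) (y : V) (k : ℕ) : Edge C (.lev i y k) (.lev i y (k + 1))
  | dn (i : ι) (y : V) (k : ℕ) : Edge C (.lev i y (k + 1)) (.lev i y k)
  | top (i : ι) (y : V) : Edge C (.lev i y C.ρ) (.apex i)
  | top' (i : ι) (y : V) : Edge C (.apex i) (.lev i y C.ρ)

/-- base set of a vertex -/
def Bs (C : ConeData V ι) : CV V ι → Set V
  | base x => {x}
  | lev _ y _ => {y}
  | apex i => C.Y i

theorem Edge.symm {C : ConeData V ι} {v w : CV V ι} (h : Edge C v w) : Edge C w v := by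
  cases h with
  | base x y h => exact Edge.base _ _ (by rw [GMet.symm]; exact h)
  | up0 i y => exact Edge.dn0 _ _
  | dn0 i y => exact Edge.up0 _ _
  | hor i y z k h => exact Edge.hor _ _ _ _ (by rw [GMet.symm]; exact h)
  | up i y k => exact Edge.dn _ _ _
  | dn i y k => exact Edge.up _ _ _
  | top i y => exact Edge.top' _ _
  | top' i y => exact Edge.top _ _

end CV

/-- the cone-off -/
def Cone {V ι : Type} [GMet V] (C : ConeData V ι) : Type := {v : CV V ι // v.Valid C}

namespace Cone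

variable {V ι : Type} [GMet V]

/-- the graph on the cone-off -/
def graph (C : ConeData V ι) : SimpleGraph (Cone C) where
  Adj v w := v ≠ w ∧ CV.Edge C v.1 w.1
  symm := ⟨fun _ _ h => ⟨h.1.symm, h.2.symm⟩⟩
  loopless := ⟨fun _ h => h.1 rfl⟩

/-- base vertex -/
def base (C : ConeData V ι) (x : V) : Cone C := ⟨.base x, trivial⟩
/-- apex -/
def apex (C : ConeData V ι) (i : ι) : Cone C := ⟨.apex i, trivial⟩
/-- level vertex -/
def lev (C : ConeData V ι) (i : ι) (y : V) (k : ℕ) (hy : y ∈ C.Y i) (h1 : 1 ≤ k) (h2 : k ≤ C.ρ) :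
    Cone C := ⟨.lev i y k, hy, h1, h2⟩

/-- base set -/
def Bs {C : ConeData V ι} (v : Cone C) : Set V := v.1.Bs C

end Cone


/-- the metric of a connected graph -/
@[reducible] noncomputable def GMet.ofGraph {W : Type} (Γ : SimpleGraph W) (hΓ : Γ.Preconnected) : GMet W where
  d := Γ.dist
  d_self x := SimpleGraph.dist_self
  eq_of_d x y h := by
    rcases SimpleGraph.dist_eq_zero_iff_eq_or_not_reachable.mp h with h | h
    · exact h
    · exact absurd (hΓ x y) h
  symm x y := SimpleGraph.dist_comm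
  tri x y z := by
    obtain ⟨p, hp⟩ := (hΓ x y).exists_walk_length_eq_dist
    obtain ⟨q, hq⟩ := (hΓ y z).exists_walk_length_eq_dist
    rw [← hp, ← hq, ← SimpleGraph.Walk.length_append]
    exact SimpleGraph.dist_le _
  geo x y k hk := by
    obtain ⟨p, hp⟩ := (hΓ x y).exists_walk_length_eq_dist
    refine ⟨p.getVert k, ?_⟩
    have h1 : Γ.dist x (p.getVert k) ≤ k := by
      have := SimpleGraph.dist_le (p.take k)
      rw [SimpleGraph.Walk.take_length] at this
      exact this.trans (min_le_left _ _)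
    have h2 : Γ.dist (p.getVert k) y ≤ Γ.dist x y - k := by
      have := SimpleGraph.dist_le (p.drop k)
      rw [SimpleGraph.Walk.drop_length, hp] at this
      exact this
    have h3 : Γ.dist x y ≤ Γ.dist x (p.getVert k) + Γ.dist (p.getVert k) y := by
      obtain ⟨p', hp'⟩ := (hΓ x (p.getVert k)).exists_walk_length_eq_dist
      obtain ⟨q', hq'⟩ := (hΓ (p.getVert k) y).exists_walk_length_eq_dist
      rw [← hp', ← hq', ← SimpleGraph.Walk.length_append]
      exact SimpleGraph.dist_le _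
    omega

namespace Cone
variable {V ι : Type} [GMet V]

theorem reach_of_edge (C : ConeData V ι) {v w : Cone C} (h : CV.Edge C v.1 w.1) :
    (graph C).Reachable v w := by
  by_cases hvw : v = w
  · subst hvw; exact SimpleGraph.Reachable.refl _
  · exact SimpleGraph.Adj.reachable ⟨hvw, h⟩

theorem reach_base (C : ConeData V ι) : ∀ (n : ℕ) (x y : V), d x y = n →
    (graph C).Reachable (base C x) (base C y) := by
  intro n
  induction n with
  | zero =>
    intro x y h
    rw [eq_of_d x y h]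
  | succ n ih =>
    intro x y h
    obtain ⟨z, hz1, hz2⟩ := geo x y 1 (by omega)
    have h1 : (graph C).Reachable (base C x) (base C z) :=
      reach_of_edge C (CV.Edge.base x z (by have := C.hR; omega))
    exact h1.trans (ih z y (by omega))

theorem reach_lev (C : ConeData V ι) : ∀ (k : ℕ) (i : ι) (y : V) (hy : y ∈ C.Y i) (h1 : 1 ≤ k)
    (h2 : k ≤ C.ρ), (graph C).Reachable (base C y) (lev C i y k hy h1 h2) := by
  intro k
  induction k with
  | zero => intro i y hy h1; omega
  | succ k ih =>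
    intro i y hy h1 h2
    rcases Nat.eq_zero_or_pos k with hk | hk
    · subst hk
      exact reach_of_edge C (CV.Edge.up0 i y)
    · exact (ih i y hy hk (by omega)).trans (reach_of_edge C (CV.Edge.up i y k))

theorem reach_exists_base (C : ConeData V ι) (v : Cone C) :
    ∃ x, (graph C).Reachable (base C x) v := by
  obtain ⟨v, hv⟩ := v
  cases v with
  | base x => exact ⟨x, SimpleGraph.Reachable.refl _⟩
  | lev i y k => exact ⟨y, reach_lev C k i y hv.1 hv.2.1 hv.2.2⟩
  | apex i =>
    obtain ⟨y, hy⟩ := C.hY i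
    exact ⟨y, (reach_lev C C.ρ i y hy C.hρ le_rfl).trans (reach_of_edge C (CV.Edge.top i y))⟩

theorem preconnected (C : ConeData V ι) : (graph C).Preconnected := by
  intro v w
  obtain ⟨x, hx⟩ := reach_exists_base C v
  obtain ⟨y, hy⟩ := reach_exists_base C w
  exact hx.symm.trans ((reach_base C _ x y rfl).trans hy)

noncomputable instance instGMet (C : ConeData V ι) : GMet (Cone C) :=
  GMet.ofGraph (graph C) (preconnected C)

theorem d_le_one_of_edge {C : ConeData V ι} {v w : Cone C} (h : CV.Edge C v.1 w.1) :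
    d v w ≤ 1 := by
  by_cases hvw : v = w
  · subst hvw; rw [d_self]; omega
  · exact SimpleGraph.dist_le (SimpleGraph.Adj.toWalk (G := graph C) ⟨hvw, h⟩)

theorem edge_of_d_eq_one {C : ConeData V ι} {v w : Cone C} (h : d v w = 1) :
    CV.Edge C v.1 w.1 := by
  have : (graph C).Adj v w := SimpleGraph.dist_eq_one_iff_adj.mp h
  exact this.2

end Cone

section act
variable {G V ι : Type} [Group G] [GMet V] [MulAction G V] [MulAction G ι]

/-- action on pre-vertices -/
def CV.smul (g : G) : CV V ι → CV V ι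
  | .base x => .base (g • x)
  | .lev i y k => .lev (g • i) (g • y) k
  | .apex i => .apex (g • i)

instance CV.instMulAction : MulAction G (CV V ι) where
  smul g v := CV.smul g v
  one_smul v := by
    cases v with
    | base x => change CV.base _ = CV.base _; rw [one_smul]
    | lev i y k => change CV.lev _ _ _ = CV.lev _ _ _; rw [one_smul, one_smul]
    | apex i => change CV.apex _ = CV.apex _; rw [one_smul]
  mul_smul g h v := by
    cases v with
    | base x => change CV.base _ = CV.base _; rw [mul_smul]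
    | lev i y k => change CV.lev _ _ _ = CV.lev _ _ _; rw [mul_smul, mul_smul]
    | apex i => change CV.apex _ = CV.apex _; rw [mul_smul]

omit [GMet V] in
@[simp] theorem CV.smul_base (g : G) (x : V) : g • (CV.base x : CV V ι) = .base (g • x) := rfl
omit [GMet V] in
@[simp] theorem CV.smul_lev (g : G) (i : ι) (y : V) (k : ℕ) :
    g • (CV.lev i y k : CV V ι) = .lev (g • i) (g • y) k := rfl
omit [GMet V] in
@[simp] theorem CV.smul_apex (g : G) (i : ι) : g • (CV.apex i : CV V ι) = .apex (g • i) := rfl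

/-- the family is equivariant -/
class ConeAct (G : Type) {V ι : Type} [Group G] [GMet V] [MulAction G V] [MulAction G ι]
    (C : ConeData V ι) : Prop where
  mem : ∀ (g : G) (i : ι) (y : V), y ∈ C.Y i → g • y ∈ C.Y (g • i)

theorem CV.Valid.smul {C : ConeData V ι} [ConeAct G C] (g : G) {v : CV V ι} (hv : v.Valid C) :
    (g • v).Valid C := by
  cases v with
  | base x => exact trivial
  | lev i y k => exact ⟨ConeAct.mem g i y hv.1, hv.2⟩
  | apex i => exact trivial

instance Cone.instMulAction (C : ConeData V ι) [ConeAct G C] : MulAction G (Cone C) where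
  smul g v := ⟨g • v.1, v.2.smul g⟩
  one_smul v := Subtype.ext (one_smul G v.1)
  mul_smul g h v := Subtype.ext (mul_smul g h v.1)

@[simp] theorem Cone.smul_val (C : ConeData V ι) [ConeAct G C] (g : G) (v : Cone C) :
    (g • v).1 = g • v.1 := rfl
@[simp] theorem Cone.smul_base (C : ConeData V ι) [ConeAct G C] (g : G) (x : V) :
    g • Cone.base C x = Cone.base C (g • x) := rfl
@[simp] theorem Cone.smul_apex (C : ConeData V ι) [ConeAct G C] (g : G) (i : ι) :
    g • Cone.apex C i = Cone.apex C (g • i) := rfl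

theorem CV.Edge.smul {C : ConeData V ι} [IsomAct G V] (g : G) {v w : CV V ι}
    (h : CV.Edge C v w) : CV.Edge C (g • v) (g • w) := by
  cases h with
  | base x y h => exact Edge.base _ _ (by rw [IsomAct.isom]; exact h)
  | up0 i y => exact Edge.up0 _ _
  | dn0 i y => exact Edge.dn0 _ _
  | hor i y z k h => exact Edge.hor _ _ _ _ (by rw [IsomAct.isom]; exact h)
  | up i y k => exact Edge.up _ _ _
  | dn i y k => exact Edge.dn _ _ _
  | top i y => exact Edge.top _ _
  | top' i y => exact Edge.top' _ _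

theorem Cone.d_smul_le (C : ConeData V ι) [ConeAct G C] [IsomAct G V] (g : G) :
    ∀ (n : ℕ) (v w : Cone C), d v w = n → d (g • v) (g • w) ≤ n := by
  intro n
  induction n with
  | zero => intro v w h; rw [eq_of_d v w h, d_self]
  | succ n ih =>
    intro v w h
    obtain ⟨z, hz1, hz2⟩ := geo v w 1 (by omega)
    have h1 : d (g • v) (g • z) ≤ 1 :=
      Cone.d_le_one_of_edge (CV.Edge.smul g (Cone.edge_of_d_eq_one hz1))
    have h2 := ih z w (by omega)
    have := tri (g • v) (g • z) (g • w)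
    omega

instance Cone.instIsomAct (C : ConeData V ι) [ConeAct G C] [IsomAct G V] :
    IsomAct G (Cone C) where
  isom g v w := by
    apply le_antisymm (Cone.d_smul_le C g _ v w rfl)
    have := Cone.d_smul_le C g⁻¹ _ (g • v) (g • w) rfl
    rwa [inv_smul_smul, inv_smul_smul] at this

end act

section quot
variable {G W : Type} [Group G] [GMet W] [MulAction G W]

/-- quotient of `W` by the action of the subgroup `N` -/
def QM (N : Subgroup G) (W : Type) [MulAction G W] : Type :=
  Quotient (MulAction.orbitRel N W)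

/-- projection to the quotient -/
def QM.mk (N : Subgroup G) (v : W) : QM N W := Quotient.mk (MulAction.orbitRel N W) v

omit [GMet W] in
theorem QM.mk_eq_iff (N : Subgroup G) {v w : W} :
    QM.mk N v = QM.mk N w ↔ ∃ n ∈ N, n • v = w := by
  have key : QM.mk N v = QM.mk N w ↔ v ∈ MulAction.orbit N w :=
    (Quotient.eq (r := MulAction.orbitRel N W)).trans MulAction.orbitRel_apply
  rw [key]
  constructor
  · rintro ⟨⟨n, hn⟩, h⟩
    refine ⟨n⁻¹, N.inv_mem hn, ?_⟩
    have h' : n • w = v := h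
    rw [← h', inv_smul_smul]
  · rintro ⟨n, hn, h⟩
    refine ⟨⟨n⁻¹, N.inv_mem hn⟩, ?_⟩
    change n⁻¹ • w = v
    rw [← h, inv_smul_smul]

omit [GMet W] in
theorem QM.mk_smul (N : Subgroup G) {n : G} (hn : n ∈ N) (v : W) :
    QM.mk N (n • v) = QM.mk N v := ((QM.mk_eq_iff N).2 ⟨n, hn, rfl⟩).symm

omit [GMet W] in
theorem QM.mk_surj (N : Subgroup G) (a : QM N W) : ∃ v, QM.mk N v = a :=
  Quotient.exists_rep a

/-- quotient distance -/
noncomputable def QM.dist (N : Subgroup G) (a b : QM N W) : ℕ :=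
  sInf {n | ∃ v w : W, QM.mk N v = a ∧ QM.mk N w = b ∧ d v w = n}

theorem QM.dist_le (N : Subgroup G) (v w : W) : QM.dist N (QM.mk N v) (QM.mk N w) ≤ d v w :=
  Nat.sInf_le ⟨v, w, rfl, rfl, rfl⟩

variable [IsomAct G W]

theorem QM.exists_lift (N : Subgroup G) (v : W) (b : QM N W) :
    ∃ w, QM.mk N w = b ∧ d v w = QM.dist N (QM.mk N v) b := by
  obtain ⟨w0, hw0⟩ := QM.mk_surj N b
  have hne : {n | ∃ v' w' : W, QM.mk N v' = QM.mk N v ∧ QM.mk N w' = b ∧ d v' w' = n}.Nonempty :=
    ⟨_, v, w0, rfl, hw0, rfl⟩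
  obtain ⟨v', w', h1, h2, h3⟩ := Nat.sInf_mem hne
  obtain ⟨n, hn, h⟩ := (QM.mk_eq_iff N).1 h1
  refine ⟨n • w', ?_, ?_⟩
  · rw [QM.mk_smul N hn, h2]
  · rw [← h, IsomAct.isom, h3]; rw [h]; rfl

theorem QM.dist_tri (N : Subgroup G) (a b c : QM N W) :
    QM.dist N a c ≤ QM.dist N a b + QM.dist N b c := by
  obtain ⟨v, rfl⟩ := QM.mk_surj N a
  obtain ⟨w, hw, hd⟩ := QM.exists_lift N v b
  subst hw
  obtain ⟨u, hu, hd'⟩ := QM.exists_lift N w c
  subst hu
  rw [← hd, ← hd']
  exact (QM.dist_le N v u).trans (tri v w u)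

noncomputable instance QM.instGMet (N : Subgroup G) : GMet (QM N W) where
  d := QM.dist N
  d_self a := by
    obtain ⟨v, rfl⟩ := QM.mk_surj N a
    have := QM.dist_le N v v
    rw [d_self] at this
    omega
  eq_of_d a b h := by
    obtain ⟨v, rfl⟩ := QM.mk_surj N a
    obtain ⟨w, hw, hd⟩ := QM.exists_lift N v b
    rw [h] at hd
    rw [← hw, eq_of_d v w hd]
  symm a b := by
    have key : ∀ a b : QM N W, QM.dist N a b ≤ QM.dist N b a := by
      intro a b
      obtain ⟨w, rfl⟩ := QM.mk_surj N b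
      obtain ⟨v, hv, hd⟩ := QM.exists_lift N w a
      rw [← hd, ← hv, GMet.symm]
      exact QM.dist_le N v w
    exact le_antisymm (key a b) (key b a)
  tri := QM.dist_tri N
  geo a b k hk := by
    obtain ⟨v, rfl⟩ := QM.mk_surj N a
    obtain ⟨w, hw, hd⟩ := QM.exists_lift N v b
    subst hw
    obtain ⟨z, hz1, hz2⟩ := geo v w k (by rw [hd]; exact hk)
    refine ⟨QM.mk N z, ?_⟩
    have h1 := QM.dist_le N v z
    have h2 := QM.dist_le N z w
    have h3 := QM.dist_tri N (QM.mk N v) (QM.mk N z) (QM.mk N w)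
    omega

theorem QM.d_mk_le (N : Subgroup G) (v w : W) : d (QM.mk N v) (QM.mk N w) ≤ d v w :=
  QM.dist_le N v w

/-- every class has a representative at the quotient distance -/
theorem QM.exists_tight (N : Subgroup G) (v : W) (b : QM N W) :
    ∃ w, QM.mk N w = b ∧ d v w = d (QM.mk N v) b := QM.exists_lift N v b

variable (N : Subgroup G) [N.Normal]

/-- action of `G ⧸ N` on `QM N W` -/
instance QM.instMulAction : MulAction (G ⧸ N) (QM N W) where
  smul := Quotient.map₂ (fun g v => g • v) (by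
    intro g g' hg v v' hv
    have hg' : g⁻¹ * g' ∈ N := QuotientGroup.leftRel_apply.mp hg
    obtain ⟨n, hn, h⟩ := (QM.mk_eq_iff N).1 (Quotient.sound (s := MulAction.orbitRel N W) hv :
      QM.mk N v = QM.mk N v')
    refine Quotient.exact (s := MulAction.orbitRel N W) ((QM.mk_eq_iff N).2
      ⟨g' * n * g⁻¹, ?_, ?_⟩)
    · have : g' * n * g⁻¹ = (g * (g⁻¹ * g') * g⁻¹) * (g * n * g⁻¹) := by group
      rw [this]
      exact N.mul_mem (Subgroup.Normal.conj_mem ‹_› _ hg' _) (Subgroup.Normal.conj_mem ‹_› _ hn _)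
    · rw [← h, mul_smul, mul_smul, inv_smul_smul])
  one_smul a := by
    obtain ⟨v, rfl⟩ := QM.mk_surj N a
    change QM.mk N ((1 : G) • v) = _
    rw [one_smul]
  mul_smul a b c := by
    obtain ⟨g, rfl⟩ := QuotientGroup.mk_surjective a
    obtain ⟨h, rfl⟩ := QuotientGroup.mk_surjective b
    obtain ⟨v, rfl⟩ := QM.mk_surj N c
    change QM.mk N ((g * h : G) • v) = QM.mk N (g • (h • v))
    rw [mul_smul]

omit [GMet W] [IsomAct G W] in
@[simp] theorem QM.smul_mk (g : G) (v : W) :
    (QuotientGroup.mk g : G ⧸ N) • QM.mk N v = QM.mk N (g • v) := rfl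

instance QM.instIsomAct : IsomAct (G ⧸ N) (QM N W) where
  isom a b c := by
    have key : ∀ (g : G) (b c : QM N W),
        d ((QuotientGroup.mk g : G ⧸ N) • b) ((QuotientGroup.mk g : G ⧸ N) • c) ≤ d b c := by
      intro g b c
      obtain ⟨v, rfl⟩ := QM.mk_surj N b
      obtain ⟨w, hw, hd⟩ := QM.exists_tight N v c
      subst hw
      rw [QM.smul_mk, QM.smul_mk, ← hd, ← IsomAct.isom g v w]
      exact QM.d_mk_le N _ _
    obtain ⟨g, rfl⟩ := QuotientGroup.mk_surjective a
    refine le_antisymm (key g b c) ?_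
    have := key g⁻¹ ((QuotientGroup.mk g : G ⧸ N) • b) ((QuotientGroup.mk g : G ⧸ N) • c)
    rwa [QuotientGroup.mk_inv, inv_smul_smul, inv_smul_smul] at this

end quot

section rot
variable {G V ι : Type} [Group G] [GMet V] [MulAction G V] [MulAction G ι]

/-- rotation family: `H i` rotates about `Y i`, all displacements at least `T` -/
structure Rot (G : Type) {V ι : Type} [Group G] [GMet V] [MulAction G V] [MulAction G ι]
    (C : ConeData V ι) (H : ι → Subgroup G) (θ T : ℕ) : Prop where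
  fam : Fam C θ
  conj : ∀ (g : G) (i : ι) (h : G), h ∈ H i → g * h * g⁻¹ ∈ H (g • i)
  fix : ∀ (i : ι) (h : G), h ∈ H i → h • i = i
  big : ∀ (i : ι) (h : G), h ∈ H i → h ≠ 1 → ∀ x : V, T ≤ d x (h • x)

/-- the normal closure of the rotation subgroups -/
def NN (H : ι → Subgroup G) : Subgroup G := Subgroup.closure (⋃ i, (H i : Set G))

/-- `Red Y H S τ x n`: the element `n` can be unrotated to `1`, each time rotating about some
`i ∈ S` such that the projection distance of `x` and `n • x` to `Y i` is at least `τ`. -/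
inductive Red (Y : ι → Set V) (H : ι → Subgroup G) (S : Set ι) (τ : ℕ) (x : V) : G → Prop
  | one : Red Y H S τ x 1
  | step (n h : G) (i : ι) : i ∈ S → h ∈ H i → τ ≤ prd (Y i) x (n • x) →
      Red Y H S τ x (h * n) → Red Y H S τ x n

/-- every element of `NN H` is reducible from every point -/
def AllRed (C : ConeData V ι) (H : ι → Subgroup G) (τ : ℕ) : Prop :=
  ∀ n ∈ NN H, ∀ x : V, Red C.Y H Set.univ τ x n

/-- if the apex `i` is not between `v` and `w` then the angle at `i` is at most `K0 * 2^ρ * R` -/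
def E2 {V ι : Type} [GMet V] (C : ConeData V ι) (K0 : ℕ) : Prop :=
  ∀ (i : ι) (v w : Cone C), v ≠ Cone.apex C i → w ≠ Cone.apex C i → ¬ Bt v (Cone.apex C i) w →
    ∀ x ∈ v.Bs, ∀ y ∈ w.Bs, prd (C.Y i) x y ≤ K0 * (2 ^ C.ρ * C.R)

end rot

section axes
variable {G : Type} [Group G]

/-- axis subgroups: infinite cyclic, equal to the centralizer of the generator, with small
displacement of the generator -/
def IsAx (V : Type) [GMet V] [MulAction G V] (δ : ℕ) (E : Subgroup G) : Prop :=
  ∃ e : G, E = Subgroup.zpowers e ∧ Subgroup.centralizer {e} = E ∧ ¬ IsOfFinOrder e ∧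
    ∃ x : V, d x (e • x) ≤ 106 * δ

/-- the type of axis subgroups -/
def Ax (G V : Type) [Group G] [GMet V] [MulAction G V] (δ : ℕ) : Type :=
  {E : Subgroup G // IsAx V δ E}

variable {V : Type} [GMet V] [MulAction G V] [IsomAct G V]

theorem IsAx.conj {δ : ℕ} {E : Subgroup G} (h : IsAx V δ E) (g : G) :
    IsAx V δ (E.map (MulAut.conj g).toMonoidHom) := by
  obtain ⟨e, h1, h2, h3, x, hx⟩ := h
  refine ⟨g * e * g⁻¹, ?_, ?_, ?_, g • x, ?_⟩
  · rw [h1, MonoidHom.map_zpowers]; rfl
  · ext a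
    rw [Subgroup.mem_centralizer_singleton_iff, Subgroup.mem_map]
    constructor
    · intro ha
      refine ⟨g⁻¹ * a * g, ?_, ?_⟩
      · rw [← h2, Subgroup.mem_centralizer_singleton_iff]
        have h5 : g⁻¹ * (a * (g * e * g⁻¹)) * g = g⁻¹ * (g * e * g⁻¹ * a) * g := by rw [ha]
        have h6 : g⁻¹ * a * g * e = g⁻¹ * (a * (g * e * g⁻¹)) * g := by group
        have h7 : e * (g⁻¹ * a * g) = g⁻¹ * (g * e * g⁻¹ * a) * g := by group
        rw [h6, h7, h5]
      · change g * (g⁻¹ * a * g) * g⁻¹ = a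
        group
    · rintro ⟨b, hb, rfl⟩
      rw [← h2, Subgroup.mem_centralizer_singleton_iff] at hb
      change g * b * g⁻¹ * (g * e * g⁻¹) = g * e * g⁻¹ * (g * b * g⁻¹)
      have h6 : g * b * g⁻¹ * (g * e * g⁻¹) = g * (b * e) * g⁻¹ := by group
      have h7 : g * e * g⁻¹ * (g * b * g⁻¹) = g * (e * b) * g⁻¹ := by group
      rw [h6, h7, hb]
  · intro hf
    apply h3
    rw [isOfFinOrder_iff_pow_eq_one] at hf ⊢
    obtain ⟨n, hn, h⟩ := hf
    refine ⟨n, hn, ?_⟩
    rw [conj_pow] at h
    have : e ^ n = g⁻¹ * (g * e ^ n * g⁻¹) * g := by group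
    rw [this, h]; group
  · rw [← mul_smul]
    have : g * e * g⁻¹ * g = g * e := by group
    rw [this, mul_smul, IsomAct.isom]
    exact hx

instance Ax.instMulAction (δ : ℕ) : MulAction G (Ax G V δ) where
  smul g E := ⟨E.1.map (MulAut.conj g).toMonoidHom, E.2.conj g⟩
  one_smul E := by
    apply Subtype.ext
    change E.1.map (MulAut.conj 1).toMonoidHom = E.1
    rw [map_one]
    exact Subgroup.map_id _
  mul_smul g h E := by
    apply Subtype.ext
    change E.1.map (MulAut.conj (g * h)).toMonoidHom =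
      (E.1.map (MulAut.conj h).toMonoidHom).map (MulAut.conj g).toMonoidHom
    rw [Subgroup.map_map, map_mul]
    rfl

theorem Ax.smul_val (δ : ℕ) (g : G) (E : Ax G V δ) :
    (g • E).1 = E.1.map (MulAut.conj g).toMonoidHom := rfl

omit [IsomAct G V] in
/-- the tube around the axis -/
def YAx (δ : ℕ) (E : Ax G V δ) : Set V :=
  {x | ∃ e : G, E.1 = Subgroup.zpowers e ∧ d x (e • x) ≤ 150 * δ}

omit [IsomAct G V] in
/-- the `p`-th powers of the axis subgroup -/
def HAx (p δ : ℕ) (E : Ax G V δ) : Subgroup G := Subgroup.closure {h | ∃ e ∈ E.1, h = e ^ p}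

omit [IsomAct G V] in
/-- cone data of the axes -/
def axCone (G V : Type) [Group G] [GMet V] [MulAction G V] (δ ρ R : ℕ) (hρ : 1 ≤ ρ)
    (hR : 1 ≤ R) : ConeData V (Ax G V δ) where
  Y := YAx δ
  ρ := ρ
  R := R
  hY := by
    rintro ⟨E, e, h1, h2, h3, x, hx⟩
    exact ⟨x, e, h1, hx.trans (by omega)⟩
  hρ := hρ
  hR := hR

instance axCone.instConeAct (δ ρ R : ℕ) (hρ : 1 ≤ ρ) (hR : 1 ≤ R) :
    ConeAct G (axCone G V δ ρ R hρ hR) where
  mem g E y hy := by
    obtain ⟨e, h1, h2⟩ := hy
    refine ⟨g * e * g⁻¹, ?_, ?_⟩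
    · rw [Ax.smul_val, h1, MonoidHom.map_zpowers]; rfl
    · rw [← mul_smul]
      have : g * e * g⁻¹ * g = g * e := by group
      rw [this, mul_smul, IsomAct.isom]
      exact h2

end axes

end FrobP
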