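import Pool.Agent.Work.MP_50f8f6_al.ConeGeo2

/-!
# Block J: reproduction of the class (section 9 of the blueprint)
-/

namespace FrobP
open GMet

section general
variable {G V ι : Type} [Group G] [GMet V] [MulAction G V] [MulAction G ι]

omit [GMet V] [MulAction G V] in
theorem NN_normal {H : ι → Subgroup G} (h : ∀ (g : G) (i : ι) (a : G), a ∈ H i →
    g * a * g⁻¹ ∈ H (g • i)) : (NN H).Normal := by
  constructor
  intro n hn g
  unfold NN at *
  induction hn using Subgroup.closure_induction with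
  | mem x hx =>
    obtain ⟨i, hi⟩ := Set.mem_iUnion.1 hx
    exact Subgroup.subset_closure (Set.mem_iUnion.2 ⟨g • i, h g i x hi⟩)
  | one => rw [mul_one, mul_inv_cancel]; exact Subgroup.one_mem _
  | mul x y _ _ hx hy =>
    have : g * (x * y) * g⁻¹ = (g * x * g⁻¹) * (g * y * g⁻¹) := by group
    rw [this]; exact Subgroup.mul_mem _ hx hy
  | inv x _ hx =>
    have : g * x⁻¹ * g⁻¹ = (g * x * g⁻¹)⁻¹ := by group
    rw [this]; exact Subgroup.inv_mem _ hx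

variable [IsomAct G V]

theorem HAx_conj (p δ : ℕ) (g : G) (E : Ax G V δ) (h : G) (hh : h ∈ HAx p δ E) :
    g * h * g⁻¹ ∈ HAx p δ (g • E) := by
  unfold HAx at *
  induction hh using Subgroup.closure_induction with
  | mem x hx =>
    obtain ⟨e, he, rfl⟩ := hx
    refine Subgroup.subset_closure ⟨g * e * g⁻¹, ?_, ?_⟩
    · rw [Ax.smul_val]; exact ⟨e, he, rfl⟩
    · rw [conj_pow]
  | one => rw [mul_one, mul_inv_cancel]; exact Subgroup.one_mem _
  | mul x y _ _ hx hy =>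
    have : g * (x * y) * g⁻¹ = (g * x * g⁻¹) * (g * y * g⁻¹) := by group
    rw [this]; exact Subgroup.mul_mem _ hx hy
  | inv x _ hx =>
    have : g * x⁻¹ * g⁻¹ = (g * x * g⁻¹)⁻¹ := by group
    rw [this]; exact Subgroup.inv_mem _ hx

instance NN_HAx_normal (p δ : ℕ) : (NN (fun E : Ax G V δ => HAx p δ E)).Normal :=
  NN_normal (fun g i a ha => HAx_conj p δ g i a ha)

end general

/-- All the facts used for the reproduction of the class, for `C = axCone`. -/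
structure JH (G V : Type) [Group G] [GMet V] [MulAction G V] [IsomAct G V]
    (δ ℓ A r p c K0 ρ R θ τ : ℕ) (hρ : 1 ≤ ρ) (hR : 1 ≤ R) : Prop where
  good : Good δ ℓ A r p G V
  fam : Fam (axCone G V δ ρ R hρ hR) θ
  e2 : E2 (axCone G V δ ρ R hρ hR) K0
  hyp' : Hyp (QM (NN (fun E : Ax G V δ => HAx p δ E)) (Cone (axCone G V δ ρ R hρ hR))) δ
  stabN : ∀ n ∈ NN (fun E : Ax G V δ => HAx p δ E), ∀ i : Ax G V δ, n • i = i → n ∈ HAx p δ i
  disp : ∀ n ∈ NN (fun E : Ax G V δ => HAx p δ E), n ≠ 1 → ∀ x : V, τ ≤ d x (n • x) + 16 * θ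
  sa : ∀ x y : V, (∀ i, prd ((axCone G V δ ρ R hρ hR).Y i) x y + K0 * (2 ^ ρ * R) < τ) →
    ∀ n ∈ NN (fun E : Ax G V δ => HAx p δ E),
    d (Cone.base (axCone G V δ ρ R hρ hR) x) (Cone.base (axCone G V δ ρ R hρ hR) y) ≤
    d (Cone.base (axCone G V δ ρ R hρ hR) x) (Cone.base (axCone G V δ ρ R hρ hR) (n • y))
  cb : ∀ (D : ℕ) (g : G), g ≠ 1 → ∀ x y : V, d x (g • x) ≤ D → d y (g • y) ≤ D →
    ∃ k : ℤ, d (g ^ k • x) y ≤ c * (D + A)
  gac : ∀ (D : ℕ) (g h : G), g ≠ 1 → h ≠ 1 → ∀ x y : V, d x (g • x) ≤ D → d y (g • y) ≤ D →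
    d x (h • x) ≤ D → d y (h • y) ≤ D → c * (D + A) ≤ d x y → g * h = h * g
  zc : ∀ g : G, g ≠ 1 → IsCyclic (Subgroup.centralizer {g})
  far : ∀ (D : ℕ) (E : Ax G V δ) (e : G), e ∈ E.1 → e ≠ 1 → ∀ u : V, d u (e • u) ≤ D →
    ∃ y ∈ YAx δ E, d u y ≤ c * (D + A)
  small : ∀ g : G, g ^ p ≠ 1 → (∃ x : V, d x (g • x) ≤ 100 * δ) → ∃ E : Ax G V δ, g ∈ E.1
  cent : ∀ (E : Ax G V δ) (e : G), e ∈ E.1 → e ≠ 1 → Subgroup.centralizer {e} = E.1
  norm : ∀ (g : G) (E : Ax G V δ), g • E = E ↔ g ∈ E.1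
  pow : ∀ (E : Ax G V δ) (h : G), h ∈ HAx p δ E ↔ ∃ e ∈ E.1, h = e ^ p
  hp : p.Prime
  hδ : 1 ≤ δ
  hℓ : ℓ = 200 * δ
  hρℓ : 16 * (ℓ + 2 * δ + 2) ≤ ρ
  hRA : A ≤ R
  hRθ : 36 * θ ≤ R
  hA : 6 * ρ + 8 + 2 * (c * ((ℓ + 2 * δ) * 2 ^ ρ + 1)) ≤ A
  hτ1 : (2 * (ℓ + 2 * δ) + 2) * (2 ^ ρ * R) + 16 * θ < τ
  hτ2 : c * ((ℓ + 2 * δ) * (2 ^ ρ * R) + 152 * δ + 36 * θ + A) + 8 * θ + K0 * (2 ^ ρ * R) < τ
  hr : c * ((ℓ + 2 * δ) * (2 ^ ρ * R) + 152 * δ + 36 * θ + A) + 8 * θ +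
    2 * (K0 * (2 ^ ρ * R)) + 2 ^ ρ * R ≤ r

namespace JH

variable {G V : Type} [Group G] [GMet V] [MulAction G V] [IsomAct G V]
  {δ ℓ A r p c K0 ρ R θ τ : ℕ} {hρ : 1 ≤ ρ} {hR : 1 ≤ R}


/-- elements of `N` moving a point far from apices by little are trivial -/
theorem nfree (J : JH G V δ ℓ A r p c K0 ρ R θ τ hρ hR) {n : G} (hn : n ∈ (NN (fun E : Ax G V δ => HAx p δ E))) {z : Cone (axCone G V δ ρ R hρ hR)}
    (hz : d z (n • z) ≤ 2 * (ℓ + 2 * δ) + 2)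
    (hfar : ∀ j, 2 * (ℓ + 2 * δ) + 2 < d z (Cone.apex (axCone G V δ ρ R hρ hR) j)) : n = 1 := by
  by_contra hne
  obtain ⟨x, hx⟩ := Cone.bs_nonempty (axCone G V δ ρ R hρ hR) z
  have hnx : n • x ∈ (n • z).Bs := by
    obtain ⟨z, hzv⟩ := z
    cases z with
    | base y => have h : x = y := hx; subst h; rfl
    | lev i y k => have h : x = y := hx; subst h; rfl
    | apex i => exact ConeAct.mem n i x hx
  have e1 := Cone.avoid (axCone G V δ ρ R hρ hR) hz hfar hx hnx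
  have e2 := J.disp n hn hne x
  have e3 := J.hτ1
  have e4 : (2 * (ℓ + 2 * δ) + 2) * (2 ^ (axCone G V δ ρ R hρ hR).ρ * (axCone G V δ ρ R hρ hR).R) = (2 * (ℓ + 2 * δ) + 2) * (2 ^ ρ * R) := rfl
  omega

/-- displacement in the quotient -/
theorem exists_n (v : Cone (axCone G V δ ρ R hρ hR)) (g : G) :
    ∃ n ∈ (NN (fun E : Ax G V δ => HAx p δ E)), d v (n • g • v) = d (QM.mk (NN (fun E : Ax G V δ => HAx p δ E)) v) ((QuotientGroup.mk g : G ⧸ (NN (fun E : Ax G V δ => HAx p δ E))) • QM.mk (NN (fun E : Ax G V δ => HAx p δ E)) v) := by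
  obtain ⟨w, hw, hd⟩ := QM.exists_tight (NN (fun E : Ax G V δ => HAx p δ E)) v ((QuotientGroup.mk g : G ⧸ (NN (fun E : Ax G V δ => HAx p δ E))) • QM.mk (NN (fun E : Ax G V δ => HAx p δ E)) v)
  rw [QM.smul_mk] at hw
  obtain ⟨n, hn, h⟩ := (QM.mk_eq_iff (NN (fun E : Ax G V δ => HAx p δ E))).1 hw.symm
  exact ⟨n, hn, by rw [h, hd]⟩

/-- ladder lemma -/
theorem ladder (J : JH G V δ ℓ A r p c K0 ρ R θ τ hρ hR) (z : ℕ → Cone (axCone G V δ ρ R hρ hR)) (g : G) (a : ℕ) :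
    ∀ b, a ≤ b → (∀ t, a ≤ t → t < b → d (z t) (z (t + 1)) ≤ 1) →
    (∀ t, a ≤ t → t ≤ b → ∀ j, 2 * (ℓ + 2 * δ) + 2 < d (z t) (Cone.apex (axCone G V δ ρ R hρ hR) j)) →
    (∀ t, a ≤ t → t ≤ b → ∃ n ∈ (NN (fun E : Ax G V δ => HAx p δ E)), d (z t) (n • g • z t) ≤ ℓ + 2 * δ) →
    d (z a) (g • z a) ≤ ℓ + 2 * δ → d (z b) (g • z b) ≤ ℓ + 2 * δ := by
  intro b hab
  induction b, hab using Nat.le_induction with
  | base => intro _ _ _ h; exact h
  | succ b hab ih =>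
    intro h1 h2 h3 h4
    have e1 := ih (fun t ht ht' => h1 t ht (by omega)) (fun t ht ht' => h2 t ht (by omega))
      (fun t ht ht' => h3 t ht (by omega)) h4
    obtain ⟨n, hn, hd⟩ := h3 (b + 1) (by omega) le_rfl
    have hstep := h1 b hab (by omega)
    have hn1 : n = 1 := by
      apply J.nfree hn (z := g • z b)
      · have t1 := tri (g • z b) (z b) (n • g • z b)
        have t2 := tri (z b) (z (b + 1)) (n • g • z b)
        have t3 := tri (z (b + 1)) (n • g • z (b + 1)) (n • g • z b)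
        have i1 : d (n • g • z (b + 1)) (n • g • z b) = d (z (b + 1)) (z b) := by
          rw [IsomAct.isom, IsomAct.isom]
        have s1 := GMet.symm (g • z b) (z b)
        have s2 := GMet.symm (z (b + 1)) (z b)
        omega
      · intro j
        have := h2 b hab (by omega) (g⁻¹ • j)
        rw [← IsomAct.isom g, Cone.smul_apex, smul_inv_smul] at this
        exact this
    rw [hn1, one_smul] at hd
    exact hd

/-- an element moving a point near an apex by little fixes the apex -/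
theorem fix_apex {g : G} {z : Cone (axCone G V δ ρ R hρ hR)} {i : Ax G V δ} {m : ℕ} (h1 : d z (g • z) ≤ m)
    (h2 : 2 * d z (Cone.apex (axCone G V δ ρ R hρ hR) i) + m < 2 * ρ + 2) : g • i = i := by
  by_contra hne
  have e1 := Cone.apex_apex (axCone G V δ ρ R hρ hR) hne
  have t1 := tri (Cone.apex (axCone G V δ ρ R hρ hR) (g • i)) (g • z) (Cone.apex (axCone G V δ ρ R hρ hR) i)
  have t2 := tri (g • z) z (Cone.apex (axCone G V δ ρ R hρ hR) i)
  have i1 : d (Cone.apex (axCone G V δ ρ R hρ hR) (g • i)) (g • z) = d (Cone.apex (axCone G V δ ρ R hρ hR) i) z := by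
    rw [← Cone.smul_apex, IsomAct.isom]
  have s1 := GMet.symm (Cone.apex (axCone G V δ ρ R hρ hR) i) z
  have s2 := GMet.symm (g • z) z
  have e2 : (axCone G V δ ρ R hρ hR).ρ = ρ := rfl
  rw [e2] at e1
  omega

end JH

end FrobP
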