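import Pool.Agent.Work.MP_50f8f6_al.Repro
import Pool.Agent.Work.MP_50f8f6_al.Toolkit

/-!
# Block J, part 2: apex case, uniqueness of the fixed apex, lifting without fixed apex
-/

namespace FrobP
open GMet

/-- a tight geodesic projects to a geodesic -/
theorem QM.tight_path {G W : Type} [Group G] [GMet W] [MulAction G W] [IsomAct G W]
    (N : Subgroup G) {v w : W} (h : d v w = d (QM.mk N v) (QM.mk N w)) {z : W} (hz : Bt v z w) :
    Bt (QM.mk N v) (QM.mk N z) (QM.mk N w) ∧ d v z = d (QM.mk N v) (QM.mk N z) ∧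
      d z w = d (QM.mk N z) (QM.mk N w) := by
  have e1 := QM.d_mk_le N v z
  have e2 := QM.d_mk_le N z w
  have t := tri (QM.mk N v) (QM.mk N z) (QM.mk N w)
  unfold Bt at *
  omega

namespace JH

variable {G V : Type} [Group G] [GMet V] [MulAction G V] [IsomAct G V]
  {δ ℓ A r p c K0 ρ R θ τ : ℕ} {hρ : 1 ≤ ρ} {hR : 1 ≤ R}


theorem ladder_step (J : JH G V δ ℓ A r p c K0 ρ R θ τ hρ hR) {z z' : Cone (axCone G V δ ρ R hρ hR)} {g : G}
    (hzz : d z z' ≤ 1) (hfar : ∀ j, 2 * (ℓ + 2 * δ) + 2 < d z (Cone.apex (axCone G V δ ρ R hρ hR) j))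
    (hg : d z (g • z) ≤ ℓ + 2 * δ) (hn : ∃ n ∈ (NN (fun E : Ax G V δ => HAx p δ E)), d z' (n • g • z') ≤ ℓ + 2 * δ) :
    d z' (g • z') ≤ ℓ + 2 * δ := by
  obtain ⟨n, hn, hd⟩ := hn
  have hn1 : n = 1 := by
    apply J.nfree hn (z := g • z)
    · have t1 := tri (g • z) z (n • g • z)
      have t2 := tri z z' (n • g • z)
      have t3 := tri z' (n • g • z') (n • g • z)
      have i1 : d (n • g • z') (n • g • z) = d z' z := by
        rw [IsomAct.isom, IsomAct.isom]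
      have s1 := GMet.symm (g • z) z
      have s2 := GMet.symm z' z
      omega
    · intro j
      have := hfar (g⁻¹ • j)
      rw [← IsomAct.isom g, Cone.smul_apex, smul_inv_smul] at this
      exact this
  rw [hn1, one_smul] at hd
  exact hd

/-- same lift of the same displacement -/
theorem exists_n_mul {v : Cone (axCone G V δ ρ R hρ hR)} {g : G} {m : ℕ}
    (h : d (QM.mk (NN (fun E : Ax G V δ => HAx p δ E)) v) ((QuotientGroup.mk g : G ⧸ (NN (fun E : Ax G V δ => HAx p δ E))) • QM.mk (NN (fun E : Ax G V δ => HAx p δ E)) v) ≤ m) :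
    ∃ n ∈ (NN (fun E : Ax G V δ => HAx p δ E)), d v ((n * g) • v) ≤ m := by
  obtain ⟨n, hn, hd⟩ := exists_n (hρ := hρ) (hR := hR) (p := p) v g
  exact ⟨n, hn, by rw [mul_smul, hd]; exact h⟩

theorem mk_mul_of_mem {n g : G} (hn : n ∈ (NN (fun E : Ax G V δ => HAx p δ E))) :
    (QuotientGroup.mk (n * g) : G ⧸ (NN (fun E : Ax G V δ => HAx p δ E))) = QuotientGroup.mk g := by
  rw [QuotientGroup.mk_mul, (QuotientGroup.eq_one_iff n).2 hn, one_mul]

/-- elements of two different axis groups are trivial -/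
theorem ax_inter (J : JH G V δ ℓ A r p c K0 ρ R θ τ hρ hR) {i j : Ax G V δ} {g : G}
    (hi : g ∈ i.1) (hj : g ∈ j.1) (hne : g ≠ 1) : i = j := by
  apply Subtype.ext
  rw [← J.cent i g hi hne, ← J.cent j g hj hne]

/-- walking away from a fixed apex -/
theorem apex_walk (J : JH G V δ ℓ A r p c K0 ρ R θ τ hρ hR) {g : G} {i : Ax G V δ}
    (hg : g ∈ i.1) (hgN : g ∉ (NN (fun E : Ax G V δ => HAx p δ E))) {v : Cone (axCone G V δ ρ R hρ hR)}
    (ht : d (Cone.apex (axCone G V δ ρ R hρ hR) i) v = d (QM.mk (NN (fun E : Ax G V δ => HAx p δ E)) (Cone.apex (axCone G V δ ρ R hρ hR) i)) (QM.mk (NN (fun E : Ax G V δ => HAx p δ E)) v))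
    (hm : d (QM.mk (NN (fun E : Ax G V δ => HAx p δ E)) v) ((QuotientGroup.mk g : G ⧸ (NN (fun E : Ax G V δ => HAx p δ E))) • QM.mk (NN (fun E : Ax G V δ => HAx p δ E)) v) ≤ ℓ)
    (hq : ρ / 2 + 1 ≤ d (Cone.apex (axCone G V δ ρ R hρ hR) i) v) :
    ∃ g' ∈ i.1, g' ≠ 1 ∧ d v (g' • v) ≤ ℓ + 2 * δ ∧
      ∀ j, 2 * (ℓ + 2 * δ) + 2 < d v (Cone.apex (axCone G V δ ρ R hρ hR) j) := by
  obtain ⟨z, hz0, hzq, hz⟩ := exists_path _ (Cone.apex (axCone G V δ ρ R hρ hR) i) v rfl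
  set q := d (Cone.apex (axCone G V δ ρ R hρ hR) i) v with hqdef
  have hρℓ := J.hρℓ
  have hbt : ∀ t, t ≤ q → Bt (Cone.apex (axCone G V δ ρ R hρ hR) i) (z t) v := by
    intro t ht'
    have h1 := hz 0 t (by omega) ht'
    have h2 := hz t q ht' le_rfl
    rw [hz0] at h1
    rw [hzq] at h2
    unfold Bt
    omega
  -- displacement of the classes
  have hfix : (QuotientGroup.mk g : G ⧸ (NN (fun E : Ax G V δ => HAx p δ E))) • QM.mk (NN (fun E : Ax G V δ => HAx p δ E)) (Cone.apex (axCone G V δ ρ R hρ hR) i) =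
      QM.mk (NN (fun E : Ax G V δ => HAx p δ E)) (Cone.apex (axCone G V δ ρ R hρ hR) i) := by
    rw [QM.smul_mk, Cone.smul_apex, (J.norm g i).2 hg]
  have hmove : ∀ t, t ≤ q → d (QM.mk (NN (fun E : Ax G V δ => HAx p δ E)) (z t))
      ((QuotientGroup.mk g : G ⧸ (NN (fun E : Ax G V δ => HAx p δ E))) • QM.mk (NN (fun E : Ax G V δ => HAx p δ E)) (z t)) ≤ ℓ + 2 * δ := by
    intro t ht'
    refine J.hyp'.l3 ?_ hm (QM.tight_path (NN (fun E : Ax G V δ => HAx p δ E)) ht (hbt t ht')).1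
    rw [hfix, d_self]; omega
  -- the lift at `t0`
  obtain ⟨n0, hn0, hd0⟩ := exists_n_mul (hmove (ρ / 2 + 1) hq)
  have hdist : d (z (ρ / 2 + 1)) (Cone.apex (axCone G V δ ρ R hρ hR) i) = ρ / 2 + 1 := by
    have h1 := hz 0 (ρ / 2 + 1) (by omega) hq
    rw [hz0] at h1
    rw [GMet.symm]; omega
  have hfix0 : (n0 * g) • i = i := by
    refine fix_apex (hρ := hρ) (hR := hR) hd0 ?_
    rw [hdist]; omega
  have hg'i : n0 * g ∈ i.1 := (J.norm _ _).1 hfix0
  have hg'1 : n0 * g ≠ 1 := by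
    intro h
    apply hgN
    have : g = n0⁻¹ := eq_inv_of_mul_eq_one_right h
    rw [this]
    exact Subgroup.inv_mem _ hn0
  have hmk : (QuotientGroup.mk (n0 * g) : G ⧸ (NN (fun E : Ax G V δ => HAx p δ E))) = QuotientGroup.mk g := mk_mul_of_mem hn0
  have key : ∀ t, ρ / 2 + 1 ≤ t → t ≤ q → d (z t) ((n0 * g) • z t) ≤ ℓ + 2 * δ ∧
      ∀ j, 2 * (ℓ + 2 * δ) + 2 < d (z t) (Cone.apex (axCone G V δ ρ R hρ hR) j) := by
    intro t ht0
    induction t, ht0 using Nat.le_induction with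
    | base =>
      intro htq
      refine ⟨hd0, fun j => ?_⟩
      by_contra hlt
      have hgj : (n0 * g) • j = j := by
        refine fix_apex (hρ := hρ) (hR := hR) hd0 ?_
        omega
      have hij : i = j := J.ax_inter hg'i ((J.norm _ _).1 hgj) hg'1
      subst hij
      omega
    | succ t ht0 ih =>
      intro htq
      have hih := ih (by omega)
      have hstep : d (z t) (z (t + 1)) ≤ 1 := by
        have := hz t (t + 1) (by omega) htq
        omega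
      have hex : ∃ n ∈ (NN (fun E : Ax G V δ => HAx p δ E)), d (z (t + 1)) (n • (n0 * g) • z (t + 1)) ≤ ℓ + 2 * δ := by
        have h1 := hmove (t + 1) htq
        rw [← hmk] at h1
        obtain ⟨n, hn, hd⟩ := exists_n_mul h1
        exact ⟨n, hn, by rw [← mul_smul]; exact hd⟩
      have hd := J.ladder_step hstep hih.2 hih.1 hex
      refine ⟨hd, fun j => ?_⟩
      by_contra hlt
      have hgj : (n0 * g) • j = j := by
        refine fix_apex (hρ := hρ) (hR := hR) hd ?_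
        omega
      have hij : i = j := J.ax_inter hg'i ((J.norm _ _).1 hgj) hg'1
      subst hij
      have h1 := hz 0 (t + 1) (by omega) htq
      rw [hz0, GMet.symm] at h1
      omega
  have hk := key q hq le_rfl
  rw [hzq] at hk
  exact ⟨n0 * g, hg'i, hg'1, hk.1, hk.2⟩

omit [IsomAct G V] in
/-- base points: distance moved in `V` -/
theorem base_moved {v w : Cone (axCone G V δ ρ R hρ hR)} {m : ℕ} (h : d v w ≤ m)
    (hfar : ∀ j, 2 * (ℓ + 2 * δ) + 2 < d v (Cone.apex (axCone G V δ ρ R hρ hR) j)) (hm : m ≤ ℓ + 2 * δ)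
    {x y : V} (hx : x ∈ v.Bs) (hy : y ∈ w.Bs) : d x y ≤ m * (2 ^ ρ * R) :=
  Cone.avoid (axCone G V δ ρ R hρ hR) h (fun j => by have := hfar j; omega) hx hy

theorem bs_smul (g : G) {v : Cone (axCone G V δ ρ R hρ hR)} {x : V} (hx : x ∈ v.Bs) : g • x ∈ (g • v).Bs := by
  obtain ⟨z, hzv⟩ := v
  cases z with
  | base y => have h : x = y := hx; subst h; rfl
  | lev i y k => have h : x = y := hx; subst h; rfl
  | apex i => exact ConeAct.mem g i x hx

/-- distances in the cone-off from distances in `V` -/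
theorem cone_dist (J : JH G V δ ℓ A r p c K0 ρ R θ τ hρ hR) {v w : Cone (axCone G V δ ρ R hρ hR)}
    (hv : ∀ j, v ≠ Cone.apex (axCone G V δ ρ R hρ hR) j) (hw : ∀ j, w ≠ Cone.apex (axCone G V δ ρ R hρ hR) j) {x y : V} (hx : x ∈ v.Bs)
    (hy : y ∈ w.Bs) (hxy : d x y ≤ c * ((ℓ + 2 * δ) * (2 ^ ρ * R) + A)) :
    d v w ≤ 2 * ρ + c * ((ℓ + 2 * δ) * 2 ^ ρ + 1) := by
  have e1 := Cone.d_base_le (axCone G V δ ρ R hρ hR) hv hx
  have e2 := Cone.d_base_le (axCone G V δ ρ R hρ hR) hw hy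
  have e3 : d (Cone.base (axCone G V δ ρ R hρ hR) x) (Cone.base (axCone G V δ ρ R hρ hR) y) ≤ c * ((ℓ + 2 * δ) * 2 ^ ρ + 1) := by
    apply Cone.base_le
    have h1 : c * ((ℓ + 2 * δ) * 2 ^ ρ + 1) * R = c * ((ℓ + 2 * δ) * (2 ^ ρ * R) + R) := by ring
    change d x y ≤ c * ((ℓ + 2 * δ) * 2 ^ ρ + 1) * R
    rw [h1]
    exact hxy.trans (Nat.mul_le_mul_left _ (Nat.add_le_add_left J.hRA _))
  have e4 : (axCone G V δ ρ R hρ hR).ρ = ρ := rfl
  rw [e4] at e1 e2
  have t1 := tri v (Cone.base (axCone G V δ ρ R hρ hR) x) w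
  have t2 := tri (Cone.base (axCone G V δ ρ R hρ hR) x) (Cone.base (axCone G V δ ρ R hρ hR) y) w
  have s1 := GMet.symm w (Cone.base (axCone G V δ ρ R hρ hR) y)
  omega

/-- points moved little by an element fixing an apex are close to that apex -/
theorem apex_dist (J : JH G V δ ℓ A r p c K0 ρ R θ τ hρ hR) {g : G} {i : Ax G V δ}
    (hg : g ∈ i.1) (hgN : g ∉ (NN (fun E : Ax G V δ => HAx p δ E))) (a : (QM (NN (fun E : Ax G V δ => HAx p δ E)) (Cone (axCone G V δ ρ R hρ hR))))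
    (hm : d a ((QuotientGroup.mk g : G ⧸ (NN (fun E : Ax G V δ => HAx p δ E))) • a) ≤ ℓ) :
    2 * d (QM.mk (NN (fun E : Ax G V δ => HAx p δ E)) (Cone.apex (axCone G V δ ρ R hρ hR) i)) a < A := by
  obtain ⟨v, hv, ht⟩ := QM.exists_tight (NN (fun E : Ax G V δ => HAx p δ E)) (Cone.apex (axCone G V δ ρ R hρ hR) i) a
  subst hv
  have hA := J.hA
  by_cases hq : ρ / 2 + 1 ≤ d (Cone.apex (axCone G V δ ρ R hρ hR) i) v
  · obtain ⟨g', hg', hg'1, hmv, hfar⟩ := J.apex_walk hg hgN ht hm hq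
    have hva : ∀ j, v ≠ Cone.apex (axCone G V δ ρ R hρ hR) j := by
      intro j hj
      have := hfar j
      rw [hj, d_self] at this
      omega
    obtain ⟨x, hx⟩ := Cone.bs_nonempty (axCone G V δ ρ R hρ hR) v
    have e1 := base_moved hmv hfar le_rfl hx (bs_smul g' hx)
    obtain ⟨y, hy, hxy⟩ := J.far _ i g' hg' hg'1 x e1
    have e2 := J.cone_dist hva (w := Cone.base (axCone G V δ ρ R hρ hR) y)
      (fun j h => by have := congrArg Subtype.val h; simp [Cone.base, Cone.apex] at this) hx rfl hxy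
    have e3 : d (Cone.base (axCone G V δ ρ R hρ hR) y) (Cone.apex (axCone G V δ ρ R hρ hR) i) ≤ ρ + 1 := Cone.base_apex (axCone G V δ ρ R hρ hR) hy
    have t1 := tri (Cone.apex (axCone G V δ ρ R hρ hR) i) (Cone.base (axCone G V δ ρ R hρ hR) y) v
    have s1 := GMet.symm (Cone.apex (axCone G V δ ρ R hρ hR) i) (Cone.base (axCone G V δ ρ R hρ hR) y)
    have s2 := GMet.symm v (Cone.base (axCone G V δ ρ R hρ hR) y)
    omega
  · omega

/-- uniqueness of the fixed apex -/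
theorem apex_unique (J : JH G V δ ℓ A r p c K0 ρ R θ τ hρ hR) {g : G} {i : Ax G V δ}
    (hg : g ∈ i.1) (hgN : g ∉ (NN (fun E : Ax G V δ => HAx p δ E))) {j : Ax G V δ}
    (hj : (QuotientGroup.mk g : G ⧸ (NN (fun E : Ax G V δ => HAx p δ E))) • QM.mk (NN (fun E : Ax G V δ => HAx p δ E)) (Cone.apex (axCone G V δ ρ R hρ hR) j) = QM.mk (NN (fun E : Ax G V δ => HAx p δ E)) (Cone.apex (axCone G V δ ρ R hρ hR) j)) :
    QM.mk (NN (fun E : Ax G V δ => HAx p δ E)) (Cone.apex (axCone G V δ ρ R hρ hR) i) = QM.mk (NN (fun E : Ax G V δ => HAx p δ E)) (Cone.apex (axCone G V δ ρ R hρ hR) j) := by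
  obtain ⟨v, hv, ht⟩ := QM.exists_tight (NN (fun E : Ax G V δ => HAx p δ E)) (Cone.apex (axCone G V δ ρ R hρ hR) i) (QM.mk (NN (fun E : Ax G V δ => HAx p δ E)) (Cone.apex (axCone G V δ ρ R hρ hR) j))
  obtain ⟨n, hn, hnv⟩ := (QM.mk_eq_iff (NN (fun E : Ax G V δ => HAx p δ E))).1 hv.symm
  rw [Cone.smul_apex] at hnv
  subst hnv
  by_cases hij : i = n • j
  · rw [hij]; exact hv
  · exfalso
    have h1 := Cone.apex_apex (axCone G V δ ρ R hρ hR) hij
    have e4 : (axCone G V δ ρ R hρ hR).ρ = ρ := rfl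
    rw [e4] at h1
    rw [← hv] at ht
    obtain ⟨g', -, -, -, hfar⟩ := J.apex_walk (v := Cone.apex (axCone G V δ ρ R hρ hR) (n • j)) hg hgN ht
      (by rw [hv, hj, d_self]; omega) (by omega)
    have := hfar (n • j)
    rw [d_self] at this
    omega

/-- `γ` fixes the class of an apex -/
def FA (γ : G ⧸ (NN (fun E : Ax G V δ => HAx p δ E))) : Prop :=
  ∃ j : Ax G V δ, γ • QM.mk (NN (fun E : Ax G V δ => HAx p δ E)) (Cone.apex (axCone G V δ ρ R hρ hR) j) = QM.mk (NN (fun E : Ax G V δ => HAx p δ E)) (Cone.apex (axCone G V δ ρ R hρ hR) j)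

theorem FA.exists_lift (J : JH G V δ ℓ A r p c K0 ρ R θ τ hρ hR) {γ : G ⧸ (NN (fun E : Ax G V δ => HAx p δ E))}
    (h : FA (V := V) (hρ := hρ) (hR := hR) γ) : ∃ (g : G) (i : Ax G V δ), QuotientGroup.mk g = γ ∧ g ∈ i.1 := by
  obtain ⟨j, hj⟩ := h
  obtain ⟨g, rfl⟩ := QuotientGroup.mk_surjective γ
  rw [QM.smul_mk] at hj
  obtain ⟨n, hn, hnv⟩ := (QM.mk_eq_iff (NN (fun E : Ax G V δ => HAx p δ E))).1 hj
  refine ⟨n * g, j, mk_mul_of_mem hn, ?_⟩
  rw [← mul_smul, Cone.smul_apex] at hnv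
  exact (J.norm _ _).1 (Cone.apex_inj (axCone G V δ ρ R hρ hR) hnv)

/-- without fixed apex, points moved little are far from the apices -/
theorem na_far {γ : G ⧸ (NN (fun E : Ax G V δ => HAx p δ E))} (J : JH G V δ ℓ A r p c K0 ρ R θ τ hρ hR)
    (hγ : ¬ FA (V := V) (hρ := hρ) (hR := hR) γ) {g : G} (hg : (QuotientGroup.mk g : G ⧸ (NN (fun E : Ax G V δ => HAx p δ E))) = γ)
    {z : Cone (axCone G V δ ρ R hρ hR)} (hz : d z (g • z) ≤ ℓ + 2 * δ) (j : Ax G V δ) :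
    2 * (ℓ + 2 * δ) + 2 < d z (Cone.apex (axCone G V δ ρ R hρ hR) j) := by
  by_contra hlt
  have hρℓ := J.hρℓ
  apply hγ
  have hgj : g • j = j := fix_apex (hρ := hρ) (hR := hR) hz (by omega)
  exact ⟨j, by rw [← hg, QM.smul_mk, Cone.smul_apex, hgj]⟩

/-- without fixed apex, the lift of the displacement is constant along a tight geodesic -/
theorem na_path {γ : G ⧸ (NN (fun E : Ax G V δ => HAx p δ E))} (J : JH G V δ ℓ A r p c K0 ρ R θ τ hρ hR)
    (hγ : ¬ FA (V := V) (hρ := hρ) (hR := hR) γ) {g : G} (hg : (QuotientGroup.mk g : G ⧸ (NN (fun E : Ax G V δ => HAx p δ E))) = γ)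
    {v w : Cone (axCone G V δ ρ R hρ hR)} (ht : d v w = d (QM.mk (NN (fun E : Ax G V δ => HAx p δ E)) v) (QM.mk (NN (fun E : Ax G V δ => HAx p δ E)) w)) (hv : d v (g • v) ≤ ℓ)
    (hw : d (QM.mk (NN (fun E : Ax G V δ => HAx p δ E)) w) (γ • QM.mk (NN (fun E : Ax G V δ => HAx p δ E)) w) ≤ ℓ) :
    d w (g • w) ≤ ℓ + 2 * δ := by
  obtain ⟨z, hz0, hzq, hz⟩ := exists_path _ v w rfl
  have hbt : ∀ t, t ≤ d v w → Bt v (z t) w := by
    intro t ht'
    have h1 := hz 0 t (by omega) ht'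
    have h2 := hz t (d v w) ht' le_rfl
    rw [hz0] at h1
    rw [hzq] at h2
    unfold Bt
    omega
  have hmove : ∀ t, t ≤ d v w → d (QM.mk (NN (fun E : Ax G V δ => HAx p δ E)) (z t)) (γ • QM.mk (NN (fun E : Ax G V δ => HAx p δ E)) (z t)) ≤ ℓ + 2 * δ := by
    intro t ht'
    refine J.hyp'.l3 ?_ hw (QM.tight_path (NN (fun E : Ax G V δ => HAx p δ E)) ht (hbt t ht')).1
    rw [← hg, QM.smul_mk]
    exact (QM.d_mk_le (NN (fun E : Ax G V δ => HAx p δ E)) _ _).trans hv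
  have hfar : ∀ t, t ≤ d v w → ∀ j, 2 * (ℓ + 2 * δ) + 2 < d (z t) (Cone.apex (axCone G V δ ρ R hρ hR) j) := by
    intro t ht' j
    have h1 := hmove t ht'
    rw [← hg] at h1
    obtain ⟨n, hn, hd⟩ := exists_n_mul h1
    exact J.na_far hγ (by rw [mk_mul_of_mem hn]; exact hg) hd j
  have key : ∀ t, t ≤ d v w → d (z t) (g • z t) ≤ ℓ + 2 * δ := by
    intro t
    induction t with
    | zero => intro _; rw [hz0]; omega
    | succ t ih =>
      intro htq
      refine J.ladder_step (z := z t) ?_ (hfar t (by omega)) (ih (by omega)) ?_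
      · have := hz t (t + 1) (by omega) htq
        omega
      · have h1 := hmove (t + 1) htq
        rw [← hg] at h1
        obtain ⟨n, hn, hd⟩ := exists_n_mul h1
        exact ⟨n, hn, by rw [← mul_smul]; exact hd⟩
  have := key _ le_rfl
  rwa [hzq] at this

end JH

end FrobP
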