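import Pool.Agent.Work.MP_50f8f6_al.Repro2

/-!
# Block J, part 3: `cb` and `ac` for the quotient
-/

namespace FrobP
open GMet

namespace JH

variable {G V : Type} [Group G] [GMet V] [MulAction G V] [IsomAct G V]
  {δ ℓ A r p c K0 ρ R θ τ : ℕ} {hρ : 1 ≤ ρ} {hR : 1 ≤ R}


theorem mk_ne_one {g : G} (h : (QuotientGroup.mk g : G ⧸ (NN (fun E : Ax G V δ => HAx p δ E))) ≠ 1) : g ∉ (NN (fun E : Ax G V δ => HAx p δ E)) := fun hg =>
  h ((QuotientGroup.eq_one_iff g).2 hg)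

theorem mk_ne_one' {g : G} (h : (QuotientGroup.mk g : G ⧸ (NN (fun E : Ax G V δ => HAx p δ E))) ≠ 1) : g ≠ 1 := by
  rintro rfl
  exact h (QuotientGroup.mk_one _)

/-- distance bound in the apex case -/
theorem apex_pair (J : JH G V δ ℓ A r p c K0 ρ R θ τ hρ hR) {γ : G ⧸ (NN (fun E : Ax G V δ => HAx p δ E))} (hγ1 : γ ≠ 1)
    (hγ : FA (V := V) (hρ := hρ) (hR := hR) γ) (a b : (QM (NN (fun E : Ax G V δ => HAx p δ E)) (Cone (axCone G V δ ρ R hρ hR)))) (ha : d a (γ • a) ≤ ℓ)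
    (hb : d b (γ • b) ≤ ℓ) : d a b < A := by
  obtain ⟨g, i, hg, hgi⟩ := FA.exists_lift J hγ
  subst hg
  have hgN := mk_ne_one hγ1
  have e1 := J.apex_dist hgi hgN a ha
  have e2 := J.apex_dist hgi hgN b hb
  have t := tri a (QM.mk (NN (fun E : Ax G V δ => HAx p δ E)) (Cone.apex (axCone G V δ ρ R hρ hR) i)) b
  have s := GMet.symm a (QM.mk (NN (fun E : Ax G V δ => HAx p δ E)) (Cone.apex (axCone G V δ ρ R hρ hR) i))
  omega

/-- common lifts in the case without fixed apex -/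
theorem na_lift (J : JH G V δ ℓ A r p c K0 ρ R θ τ hρ hR) {γ : G ⧸ (NN (fun E : Ax G V δ => HAx p δ E))}
    (hγ : ¬ FA (V := V) (hρ := hρ) (hR := hR) γ) {v w : Cone (axCone G V δ ρ R hρ hR)}
    (ht : d v w = d (QM.mk (NN (fun E : Ax G V δ => HAx p δ E)) v) (QM.mk (NN (fun E : Ax G V δ => HAx p δ E)) w))
    (hv : d (QM.mk (NN (fun E : Ax G V δ => HAx p δ E)) v) (γ • QM.mk (NN (fun E : Ax G V δ => HAx p δ E)) v) ≤ ℓ) (hw : d (QM.mk (NN (fun E : Ax G V δ => HAx p δ E)) w) (γ • QM.mk (NN (fun E : Ax G V δ => HAx p δ E)) w) ≤ ℓ) :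
    ∃ g : G, QuotientGroup.mk g = γ ∧ d v (g • v) ≤ ℓ + 2 * δ ∧ d w (g • w) ≤ ℓ + 2 * δ ∧
      (∀ j, 2 * (ℓ + 2 * δ) + 2 < d v (Cone.apex (axCone G V δ ρ R hρ hR) j)) ∧
      (∀ j, 2 * (ℓ + 2 * δ) + 2 < d w (Cone.apex (axCone G V δ ρ R hρ hR) j)) ∧
      (∀ x ∈ v.Bs, d x (g • x) ≤ (ℓ + 2 * δ) * (2 ^ ρ * R)) ∧
      (∀ x ∈ w.Bs, d x (g • x) ≤ (ℓ + 2 * δ) * (2 ^ ρ * R)) := by
  obtain ⟨g0, rfl⟩ := QuotientGroup.mk_surjective γ
  obtain ⟨n, hn, hd⟩ := exists_n_mul hv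
  have hmk : (QuotientGroup.mk (n * g0) : G ⧸ (NN (fun E : Ax G V δ => HAx p δ E))) = QuotientGroup.mk g0 := mk_mul_of_mem hn
  have hw' := J.na_path hγ hmk ht hd hw
  have hfv : ∀ j, 2 * (ℓ + 2 * δ) + 2 < d v (Cone.apex (axCone G V δ ρ R hρ hR) j) :=
    J.na_far hγ hmk (by omega)
  have hfw : ∀ j, 2 * (ℓ + 2 * δ) + 2 < d w (Cone.apex (axCone G V δ ρ R hρ hR) j) := J.na_far hγ hmk hw'
  refine ⟨n * g0, hmk, by omega, hw', hfv, hfw, ?_, ?_⟩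
  · intro x hx
    exact base_moved (by omega : d v ((n * g0) • v) ≤ ℓ + 2 * δ) hfv le_rfl hx (bs_smul _ hx)
  · intro x hx
    exact base_moved hw' hfw le_rfl hx (bs_smul _ hx)

theorem ne_apex_of_far {v : Cone (axCone G V δ ρ R hρ hR)} {m : ℕ} (h : ∀ j, m < d v (Cone.apex (axCone G V δ ρ R hρ hR) j)) :
    ∀ j, v ≠ Cone.apex (axCone G V δ ρ R hρ hR) j := by
  intro j hj
  have := h j
  rw [hj, d_self] at this
  omega

theorem mk_zpow_smul (g : G) (k : ℤ) (v : Cone (axCone G V δ ρ R hρ hR)) :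
    (QuotientGroup.mk g : G ⧸ (NN (fun E : Ax G V δ => HAx p δ E))) ^ k • QM.mk (NN (fun E : Ax G V δ => HAx p δ E)) v = QM.mk (NN (fun E : Ax G V δ => HAx p δ E)) (g ^ k • v) := by
  rw [← QuotientGroup.mk_zpow, QM.smul_mk]

theorem cb' (J : JH G V δ ℓ A r p c K0 ρ R θ τ hρ hR) (γ : G ⧸ (NN (fun E : Ax G V δ => HAx p δ E))) (hγ1 : γ ≠ 1) (a b : (QM (NN (fun E : Ax G V δ => HAx p δ E)) (Cone (axCone G V δ ρ R hρ hR))))
    (ha : d a (γ • a) ≤ ℓ) (hb : d b (γ • b) ≤ ℓ) : ∃ k : ℤ, d (γ ^ k • a) b ≤ A := by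
  by_cases hγ : FA (V := V) (hρ := hρ) (hR := hR) γ
  · refine ⟨0, ?_⟩
    rw [zpow_zero, one_smul]
    exact (J.apex_pair hγ1 hγ a b ha hb).le
  · obtain ⟨v, rfl⟩ := QM.mk_surj (NN (fun E : Ax G V δ => HAx p δ E)) a
    obtain ⟨w, hw, ht⟩ := QM.exists_tight (NN (fun E : Ax G V δ => HAx p δ E)) v b
    subst hw
    obtain ⟨g, rfl, -, -, hfv, hfw, hx, hy⟩ := J.na_lift hγ ht ha hb
    obtain ⟨x, hxv⟩ := Cone.bs_nonempty (axCone G V δ ρ R hρ hR) v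
    obtain ⟨y, hyw⟩ := Cone.bs_nonempty (axCone G V δ ρ R hρ hR) w
    obtain ⟨k, hk⟩ := J.cb _ g (mk_ne_one' hγ1) x y (hx x hxv) (hy y hyw)
    refine ⟨k, ?_⟩
    rw [mk_zpow_smul]
    refine (QM.d_mk_le (NN (fun E : Ax G V δ => HAx p δ E)) _ _).trans ?_
    have hfv' : ∀ j, 2 * (ℓ + 2 * δ) + 2 < d (g ^ k • v) (Cone.apex (axCone G V δ ρ R hρ hR) j) := by
      intro j
      have := hfv ((g ^ k)⁻¹ • j)
      rw [← IsomAct.isom (g ^ k), Cone.smul_apex, smul_inv_smul] at this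
      exact this
    have e1 := J.cone_dist (ne_apex_of_far hfv') (ne_apex_of_far hfw) (bs_smul (g ^ k) hxv) hyw hk
    have hA := J.hA
    omega

theorem ac' (J : JH G V δ ℓ A r p c K0 ρ R θ τ hρ hR) (γ η : G ⧸ (NN (fun E : Ax G V δ => HAx p δ E))) (hγ1 : γ ≠ 1) (hη1 : η ≠ 1)
    (a b : (QM (NN (fun E : Ax G V δ => HAx p δ E)) (Cone (axCone G V δ ρ R hρ hR)))) (ha : d a (γ • a) ≤ ℓ) (hb : d b (γ • b) ≤ ℓ) (ha' : d a (η • a) ≤ ℓ)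
    (hb' : d b (η • b) ≤ ℓ) (hab : A ≤ d a b) : γ * η = η * γ := by
  have hγ : ¬ FA (V := V) (hρ := hρ) (hR := hR) γ := by
    intro h
    have := J.apex_pair hγ1 h a b ha hb
    omega
  have hη : ¬ FA (V := V) (hρ := hρ) (hR := hR) η := by
    intro h
    have := J.apex_pair hη1 h a b ha' hb'
    omega
  obtain ⟨v, rfl⟩ := QM.mk_surj (NN (fun E : Ax G V δ => HAx p δ E)) a
  obtain ⟨w, hw, ht⟩ := QM.exists_tight (NN (fun E : Ax G V δ => HAx p δ E)) v b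
  subst hw
  obtain ⟨g, rfl, -, -, hfv, hfw, hx, hy⟩ := J.na_lift hγ ht ha hb
  obtain ⟨h, rfl, -, -, -, -, hx', hy'⟩ := J.na_lift hη ht ha' hb'
  obtain ⟨x, hxv⟩ := Cone.bs_nonempty (axCone G V δ ρ R hρ hR) v
  obtain ⟨y, hyw⟩ := Cone.bs_nonempty (axCone G V δ ρ R hρ hR) w
  have key : g * h = h * g := by
    refine J.gac _ g h (mk_ne_one' hγ1) (mk_ne_one' hη1) x y (hx x hxv) (hy y hyw) (hx' x hxv)
      (hy' y hyw) ?_
    by_contra hlt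
    have e1 := J.cone_dist (ne_apex_of_far hfv) (ne_apex_of_far hfw) hxv hyw (by omega)
    have hA := J.hA
    rw [← ht] at hab
    omega
  rw [← QuotientGroup.mk_mul, ← QuotientGroup.mk_mul, key]

end JH

end FrobP
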