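import Pool.Agent.Work.MP_50f8f6_al.Repro3
import Pool.Agent.Work.MP_50f8f6_al.Cen
import Pool.Agent.Work.MP_50f8f6_al_helper63.Dich

/-!
# Block J, part 4: the quotient action is `Good` again
-/

namespace FrobP
open GMet

theorem JH.good' {G V : Type} [Group G] [GMet V] [MulAction G V] [IsomAct G V]
    {δ ℓ A r p c K0 ρ R θ τ : ℕ} {hρ : 1 ≤ ρ} {hR : 1 ≤ R}
    (J : JH G V δ ℓ A r p c K0 ρ R θ τ hρ hR) :
    Good δ ℓ A r p (G ⧸ (NN (fun E : Ax G V δ => HAx p δ E)))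
      (QM (NN (fun E : Ax G V δ => HAx p δ E)) (Cone (axCone G V δ ρ R hρ hR))) where
  ne := by
    obtain ⟨x⟩ := J.good.ne
    exact ⟨QM.mk _ (Cone.base _ x)⟩
  isom := IsomAct.isom
  hyp := J.hyp'
  dich := J.dich'
  cb := J.cb'
  ac := J.ac'
  cen := J.cen'

end FrobP
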