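import Pool.Agent.Work.MP_50f8f6_al.ConeGeo2

/-!
# Block S1: definitions for the guessing geodesics in the cone-off and the sub-blocks
(see section 5 of the blueprint)
-/

namespace FrobP
open GMet

namespace S1
variable {V ι : Type} [GMet V] (C : ConeData V ι)

/-- chosen nearest point projection to `Y i` -/
noncomputable def pj (i : ι) (x : V) : V := (exists_pr (C.hY i) x).choose

theorem pj_spec (i : ι) (x : V) : Pr (C.Y i) x (pj C i x) := (exists_pr (C.hY i) x).choose_spec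

theorem pj_mem (i : ι) (x : V) : pj C i x ∈ C.Y i := (pj_spec C i x).1

theorem pj_of_mem {i : ι} {x : V} (hx : x ∈ C.Y i) : pj C i x = x := (pj_spec C i x).eq_of_mem hx

/-- chosen base point -/
noncomputable def be (v : Cone C) : V :=
  match v.1 with
  | .base x => x
  | .lev _ y _ => y
  | .apex i => (C.hY i).choose

theorem be_mem (v : Cone C) : be C v ∈ v.Bs := by
  obtain ⟨v, hv⟩ := v
  cases v with
  | base x => rfl
  | lev i y k => rfl
  | apex i => exact (C.hY i).choose_spec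

open Classical in
/-- level of `v` in the cone `i` (`0` if `v` is not in the cone, `ρ+1` for the apex) -/
noncomputable def lv (i : ι) (v : Cone C) : ℕ :=
  match v.1 with
  | .base _ => 0
  | .lev j _ k => if j = i then k else 0
  | .apex j => if j = i then C.ρ + 1 else 0

/-- projection of `v` to `Y i` -/
noncomputable def av (i : ι) (v : Cone C) : V := pj C i (be C v)

theorem av_mem (i : ι) (v : Cone C) : av C i v ∈ C.Y i := pj_mem C i _

open Classical in
/-- the vertex of the cone `i` above `y` at level `k` (`0` = base, `≥ ρ+1` = apex) -/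
noncomputable def vl (i : ι) (y : V) (hy : y ∈ C.Y i) (k : ℕ) : Cone C :=
  if h0 : k = 0 then Cone.base C y
  else if h1 : k ≤ C.ρ then Cone.lev C i y k hy (Nat.one_le_iff_ne_zero.2 h0) h1
  else Cone.apex C i

/-- the arch of `(v,w)` in the cone `i` reaches level `k` -/
def InArch (i : ι) (v w : Cone C) (k : ℕ) : Prop :=
  1 ≤ k ∧ k ≤ C.ρ + 1 ∧
    (k ≤ lv C i v ∨ k ≤ lv C i w ∨ 2 ^ (k - 1) * C.R < d (av C i v) (av C i w))

/-- the base point `z` is visible with respect to `i` -/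
def VisI (i : ι) (v w : Cone C) (z : V) : Prop :=
  (lv C i v = 0 ∧ d (pj C i z) (av C i v) ≤ 2 * C.R) ∨
  (lv C i w = 0 ∧ d (pj C i z) (av C i w) ≤ 2 * C.R)

/-- `z` is a visible base point of `(v,w)` -/
def Vis (v w : Cone C) (z : V) : Prop :=
  Bt (be C v) z (be C w) ∧ ∀ i, InArch C i v w 1 → VisI C i v w z

/-- guessed geodesics -/
def LL (v w : Cone C) : Set (Cone C) :=
  {u | (∃ z, Vis C v w z ∧ u = Cone.base C z) ∨
    (∃ i k, InArch C i v w k ∧ lv C i v ≤ k ∧ u = vl C i (av C i v) (av_mem C i v) k) ∨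
    (∃ i k, InArch C i v w k ∧ lv C i w ≤ k ∧ u = vl C i (av C i w) (av_mem C i w) k)}

end S1

/-- (F1) a point of `[βv,βw]` shadowed by `i` is close to `Y i` -/
def S1.F1Stmt : Prop := ∀ (V ι : Type) [GMet V] (C : ConeData V ι) (θ : ℕ), Fam C θ →
  100 * θ ≤ C.R → ∀ (i : ι) (v w : Cone C) (z : V), Bt (S1.be C v) z (S1.be C w) →
  ¬ S1.VisI C i v w z → d z (S1.pj C i z) ≤ 16 * θ

/-- (F2) adjacent shadowed points are shadowed by the same cone -/
def S1.F2Stmt : Prop := ∃ K : ℕ, ∀ (V ι : Type) [GMet V] (C : ConeData V ι) (θ : ℕ), Fam C θ →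
  K * θ ≤ C.R → ∀ (i j : ι) (v w : Cone C) (z z' : V), Bt (S1.be C v) z (S1.be C w) →
  Bt (S1.be C v) z' (S1.be C w) → d z z' ≤ 1 → ¬ S1.VisI C i v w z → ¬ S1.VisI C j v w z' → i = j

/-- (B0) connectivity of the guessed geodesics -/
def S1.B0Stmt : Prop := ∃ K h : ℕ, ∀ (V ι : Type) [GMet V] (C : ConeData V ι) (θ : ℕ), Fam C θ →
  K * θ ≤ C.R → ∀ (v w : Cone C), v ∈ S1.LL C v w ∧
    Relation.ReflTransGen (fun a b => a ∈ S1.LL C v w ∧ b ∈ S1.LL C v w ∧ d a b ≤ h) v w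

/-- (B1b) thin triangles: visible base points -/
def S1.B1bStmt : Prop := ∃ K h : ℕ, ∀ (V ι : Type) [GMet V] (C : ConeData V ι) (θ : ℕ), Fam C θ →
  K * θ ≤ C.R → ∀ (v w u : Cone C) (z : V), S1.Vis C v w z →
  ∃ z', (z' ∈ S1.LL C v u ∨ z' ∈ S1.LL C u w) ∧ d (Cone.base C z) z' ≤ h

/-- (B1a) thin triangles: arch points over `av i v` (the other case is symmetric) -/
def S1.B1aStmt : Prop := ∃ K h : ℕ, ∀ (V ι : Type) [GMet V] (C : ConeData V ι) (θ : ℕ), Fam C θ →
  K * θ ≤ C.R → ∀ (v w u : Cone C) (i : ι) (k : ℕ), S1.InArch C i v w k → S1.lv C i v ≤ k →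
  ∃ z', (z' ∈ S1.LL C v u ∨ z' ∈ S1.LL C u w) ∧ d (S1.vl C i (S1.av C i v) (S1.av_mem C i v) k) z' ≤ h

/-- (B2) guessed geodesics of adjacent vertices are bounded -/
def S1.B2Stmt : Prop := ∃ K h : ℕ, ∀ (V ι : Type) [GMet V] (C : ConeData V ι) (θ : ℕ), Fam C θ →
  K * θ ≤ C.R → ∀ (v w : Cone C), d v w ≤ 1 → ∀ z ∈ S1.LL C v w, d v z ≤ h

/-- (E2) from the conclusion of Bowditch's criterion -/
def S1.E2Stmt : Prop := ∀ s D : ℕ, ∃ K K0 : ℕ, ∀ (V ι : Type) [GMet V] (C : ConeData V ι) (θ : ℕ),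
  Fam C θ → K * θ ≤ C.R → Slim (Cone C) s →
  (∀ v w, ∀ z ∈ S1.LL C v w, ∃ q, Bt v q w ∧ d z q ≤ D) → E2 C K0

end FrobP
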