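import Pool.Agent.Work.MP_50f8f6_al.S1Defs
import Pool.Agent.Work.MP_50f8f6_al.Bowditch

/-!
# Block S1: assembly from the sub-blocks
-/

namespace FrobP
open GMet

namespace S1
variable {V ι : Type} [GMet V] (C : ConeData V ι)

theorem InArch.symm {i : ι} {v w : Cone C} {k : ℕ} (h : InArch C i v w k) : InArch C i w v k := by
  obtain ⟨h1, h2, h3⟩ := h
  refine ⟨h1, h2, ?_⟩
  rcases h3 with h3 | h3 | h3
  · exact Or.inr (Or.inl h3)
  · exact Or.inl h3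
  · exact Or.inr (Or.inr (by rw [GMet.symm]; exact h3))

theorem VisI.symm {i : ι} {v w : Cone C} {z : V} (h : VisI C i v w z) : VisI C i w v z := Or.symm h

theorem Vis.symm {v w : Cone C} {z : V} (h : Vis C v w z) : Vis C w v z :=
  ⟨h.1.symm', fun i hi => (h.2 i (InArch.symm C hi)).symm⟩

theorem LLm_symm {v w u : Cone C} (h : u ∈ LL C v w) : u ∈ LL C w v := by
  rcases h with ⟨z, hz, rfl⟩ | ⟨i, k, h1, h2, rfl⟩ | ⟨i, k, h1, h2, rfl⟩
  · exact Or.inl ⟨z, Vis.symm C hz, rfl⟩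
  · exact Or.inr (Or.inr ⟨i, k, InArch.symm C h1, h2, rfl⟩)
  · exact Or.inr (Or.inl ⟨i, k, InArch.symm C h1, h2, rfl⟩)

end S1

theorem s1_of (B0 : S1.B0Stmt) (B1a : S1.B1aStmt) (B1b : S1.B1bStmt) (B2 : S1.B2Stmt)
    (E : S1.E2Stmt) : S1Stmt := by
  obtain ⟨k0, h0, H0⟩ := B0
  obtain ⟨ka, ha, Ha⟩ := B1a
  obtain ⟨kb, hb, Hb⟩ := B1b
  obtain ⟨k2, h2, H2⟩ := B2
  obtain ⟨s, D, hB⟩ := bowditch (h0 + ha + hb + h2)
  obtain ⟨kE, K0, hE⟩ := E s D
  refine ⟨s, k0 + ka + kb + k2 + kE, K0, ?_⟩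
  intro V ι _ C θ hF hR
  have e0 : k0 * θ ≤ C.R := le_trans (Nat.mul_le_mul_right _ (by omega)) hR
  have ea : ka * θ ≤ C.R := le_trans (Nat.mul_le_mul_right _ (by omega)) hR
  have eb : kb * θ ≤ C.R := le_trans (Nat.mul_le_mul_right _ (by omega)) hR
  have e2 : k2 * θ ≤ C.R := le_trans (Nat.mul_le_mul_right _ (by omega)) hR
  have eE : kE * θ ≤ C.R := le_trans (Nat.mul_le_mul_right _ (by omega)) hR
  have H0' := H0 V ι C θ hF e0
  have Ha' := Ha V ι C θ hF ea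
  have Hb' := Hb V ι C θ hF eb
  have H2' := H2 V ι C θ hF e2
  have key := hB (Cone C) (S1.LL C) ?_ ?_ ?_
  · exact ⟨key.1, hE V ι C θ hF eE key.1 key.2⟩
  · intro v w
    refine ⟨(H0' v w).1, ?_⟩
    refine Relation.ReflTransGen.mono ?_ _ _ (H0' v w).2
    intro a b hab
    exact ⟨hab.1, hab.2.1, by have := hab.2.2; omega⟩
  · intro v w u z hz
    rcases hz with ⟨z, hz, rfl⟩ | ⟨i, k, h1, h2, rfl⟩ | ⟨i, k, h1, h2, rfl⟩
    · obtain ⟨z', hz', hd⟩ := Hb' v w u z hz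
      exact ⟨z', hz', by omega⟩
    · obtain ⟨z', hz', hd⟩ := Ha' v w u i k h1 h2
      exact ⟨z', hz', by omega⟩
    · obtain ⟨z', hz', hd⟩ := Ha' w v u i k (S1.InArch.symm C h1) h2
      refine ⟨z', ?_, by omega⟩
      rcases hz' with hz' | hz'
      · exact Or.inr (S1.LLm_symm C hz')
      · exact Or.inl (S1.LLm_symm C hz')
  · intro v w hvw z hz
    have := H2' v w hvw z hz
    omega

end FrobP
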