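import Pool.Agent.Work.MP_50f8f6_al.Repro4

/-!
# Block J, part 5: constants and the step theorem
-/

namespace FrobP
open GMet

theorem step_of (hS1 : S1Stmt) (hS2 : S2Stmt) (hS3a : S3aStmt) (hS3b : S3bStmt) (hS3c : S3cStmt)
    (hS3d : S3dStmt) (hC : ClassStmt) (hA : AxesStmt) : StepStmt := by
  obtain ⟨s, K, K0, hS1⟩ := hS1
  obtain ⟨K2, hS2⟩ := hS2
  obtain ⟨c1, hC⟩ := hC
  obtain ⟨c2, hA⟩ := hA
  obtain ⟨δ, hδ⟩ : ∃ δ, δ = 3 * s + 1 := ⟨_, rfl⟩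
  obtain ⟨ℓ, hℓ⟩ : ∃ ℓ, ℓ = 200 * δ := ⟨_, rfl⟩
  obtain ⟨ρ, hρ'⟩ : ∃ ρ, ρ = 16 * (ℓ + 2 * δ + 2) := ⟨_, rfl⟩
  obtain ⟨c, hc⟩ : ∃ c, c = c1 + c2 := ⟨_, rfl⟩
  obtain ⟨A, hA'⟩ : ∃ A, A = 6 * ρ + 8 + 2 * (c * ((ℓ + 2 * δ) * 2 ^ ρ + 1)) + 4 * ℓ + 4 :=
    ⟨_, rfl⟩
  obtain ⟨θ, hθ⟩ : ∃ θ, θ = c2 * A := ⟨_, rfl⟩
  obtain ⟨R, hR'⟩ : ∃ R, R = K * θ + 36 * θ + A := ⟨_, rfl⟩
  obtain ⟨B, hB⟩ : ∃ B, B = 2 ^ ρ * R := ⟨_, rfl⟩
  obtain ⟨U, hU⟩ : ∃ U, U = c * ((ℓ + 2 * δ) * B + 152 * δ + 36 * θ + A) := ⟨_, rfl⟩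
  obtain ⟨X, hX⟩ : ∃ X, X = (2 * (ℓ + 2 * δ) + 2) * B := ⟨_, rfl⟩
  obtain ⟨Z, hZ⟩ : ∃ Z, Z = K0 * B := ⟨_, rfl⟩
  obtain ⟨τ0, hτ0⟩ : ∃ τ0, τ0 = X + U + 5 * Z + 50 * θ + 6 := ⟨_, rfl⟩
  obtain ⟨τ, hτ⟩ : ∃ τ, τ = τ0 + K2 * θ := ⟨_, rfl⟩
  obtain ⟨T, hT⟩ : ∃ T, T = 4 * τ := ⟨_, rfl⟩
  obtain ⟨r, hr⟩ : ∃ r, r = U + 8 * θ + 2 * Z + B + 1 := ⟨_, rfl⟩
  have hρ : 1 ≤ ρ := by omega
  have hR : 1 ≤ R := by omega
  have hR2 : 2 ≤ R := by omega
  have hT4 : T / 4 = τ := by omega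
  refine ⟨δ, ℓ, A, r, r * T + 3, by omega, by omega, by omega, by omega, ?_⟩
  intro p hp hp0 G V _ _ _ hG
  have : IsomAct G V := ⟨hG.isom⟩
  obtain ⟨c1a, c1b, c1c⟩ := hC δ ℓ A r p G V (by omega) (by omega) (by omega) hp (by omega) hG
  obtain ⟨a1, a2, a3, a4, a5, a6, a7⟩ := hA δ ℓ A r p G V (by omega) (by omega) (by omega) hp
    (by omega) hG
  have hFam : Fam (axCone G V δ ρ R hρ hR) θ := by rw [hθ]; exact a1 ρ R hρ hR
  have hCR : (axCone G V δ ρ R hρ hR).R = R := rfl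
  have hCρ : (axCone G V δ ρ R hρ hR).ρ = ρ := rfl
  obtain ⟨hSlim, hE2⟩ := hS1 V (Ax G V δ) (axCone G V δ ρ R hρ hR) θ hFam (by rw [hCR]; omega)
  have hsub : ∀ (E : Ax G V δ) (h : G), h ∈ HAx p δ E → h ∈ E.1 := by
    intro E h hh
    obtain ⟨e, he, rfl⟩ := (a6 E h).1 hh
    exact Subgroup.pow_mem _ he p
  have hRot : Rot G (axCone G V δ ρ R hρ hR) (fun E : Ax G V δ => HAx p δ E) θ T :=
    { fam := hFam
      conj := fun g i h hh => HAx_conj p δ g i h hh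
      fix := fun i h hh => (a5 h i).2 (hsub i h hh)
      big := fun i h hh hne x => a7 T i h (by omega) hh hne x }
  have hAll : AllRed (axCone G V δ ρ R hρ hR) (fun E : Ax G V δ => HAx p δ E) τ := by
    have := hS2 G V (Ax G V δ) (axCone G V δ ρ R hρ hR) (fun E : Ax G V δ => HAx p δ E) θ T hRot
      (by omega)
    rwa [hT4] at this
  have hQ := hS3a G V (Ax G V δ) (axCone G V δ ρ R hρ hR) (fun E : Ax G V δ => HAx p δ E) θ T τ s K0
    hRot hAll hE2 hSlim (by rw [hCR, hCρ, ← hB, ← hZ]; omega)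
  have hstab := hS3b G V (Ax G V δ) (axCone G V δ ρ R hρ hR) (fun E : Ax G V δ => HAx p δ E) θ T τ
    hRot hAll (by omega)
  have hdisp := hS3c G V (Ax G V δ) (axCone G V δ ρ R hρ hR) (fun E : Ax G V δ => HAx p δ E) θ T τ
    hRot hAll
  have hsa := hS3d G V (Ax G V δ) (axCone G V δ ρ R hρ hR) (fun E : Ax G V δ => HAx p δ E) θ T τ K0
    hRot hAll hE2
  have hcc1 : ∀ m, c1 * m ≤ c * m := fun m => Nat.mul_le_mul_right _ (by omega)
  have hcc2 : ∀ m, c2 * m ≤ c * m := fun m => Nat.mul_le_mul_right _ (by omega)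
  have J : JH G V δ ℓ A r p c K0 ρ R θ τ hρ hR :=
    { good := hG
      fam := hFam
      e2 := hE2
      hyp' := by rw [hδ] at hQ ⊢; exact hQ.hyp
      stabN := hstab
      disp := hdisp
      sa := hsa
      cb := fun D g hg x y hx hy => by
        obtain ⟨k, hk⟩ := c1a D g hg x y hx hy
        exact ⟨k, hk.trans (hcc1 _)⟩
      gac := fun D g h hg hh x y h1 h2 h3 h4 h5 =>
        c1b D g h hg hh x y h1 h2 h3 h4 ((hcc1 _).trans h5)
      zc := c1c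
      far := fun D E e he hne u hu => by
        obtain ⟨y, hy, hd⟩ := a2 D E e he hne u hu
        exact ⟨y, hy, hd.trans (hcc2 _)⟩
      small := a3
      cent := a4
      norm := a5
      pow := a6
      hp := hp
      hδ := by omega
      hℓ := hℓ
      hρℓ := by omega
      hRA := by omega
      hRθ := by omega
      hA := by omega
      hτ1 := by rw [← hB, ← hX]; omega
      hτ2 := by rw [← hB, ← hU, ← hZ]; omega
      hr := by rw [← hB, ← hU, ← hZ]; omega }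
  refine ⟨G ⧸ (NN (fun E : Ax G V δ => HAx p δ E)),
    QM (NN (fun E : Ax G V δ => HAx p δ E)) (Cone (axCone G V δ ρ R hρ hR)), inferInstance,
    inferInstance, inferInstance, QuotientGroup.mk' _,
    fun x => QM.mk _ (Cone.base (axCone G V δ ρ R hρ hR) x), QuotientGroup.mk'_surjective _,
    J.good', ?_, ?_, ?_, ?_, ?_⟩
  · intro g x
    rfl
  · intro x y
    have h1 : d (Cone.base (axCone G V δ ρ R hρ hR) x) (Cone.base (axCone G V δ ρ R hρ hR) y) ≤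
        (d x y + 1) / 2 := by
      apply Cone.base_le
      rw [hCR]
      have h2 : (d x y + 1) / 2 * 2 ≤ (d x y + 1) / 2 * R := Nat.mul_le_mul_left _ hR2
      omega
    have h3 := QM.d_mk_le (NN (fun E : Ax G V δ => HAx p δ E))
      (Cone.base (axCone G V δ ρ R hρ hR) x) (Cone.base (axCone G V δ ρ R hρ hR) y)
    change 2 * d (QM.mk (NN (fun E : Ax G V δ => HAx p δ E))
      (Cone.base (axCone G V δ ρ R hρ hR) x)) (QM.mk (NN (fun E : Ax G V δ => HAx p δ E))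
      (Cone.base (axCone G V δ ρ R hρ hR) y)) ≤ d x y + 1
    omega
  · intro g hg hne x
    have hgN : g ∈ NN (fun E : Ax G V δ => HAx p δ E) := (QuotientGroup.eq_one_iff g).1 hg
    have := hdisp g hgN hne x
    omega
  · intro g x hx
    rw [← map_pow]
    by_cases hgp : g ^ p = 1
    · rw [hgp, map_one]
    · obtain ⟨E, hE⟩ := a3 g hgp ⟨x, by omega⟩
      refine (QuotientGroup.eq_one_iff _).2 ?_
      exact Subgroup.subset_closure (Set.mem_iUnion.2 ⟨E, (a6 E _).2 ⟨g, hE, rfl⟩⟩)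
  · intro g hg
    have hgN : g ∈ NN (fun E : Ax G V δ => HAx p δ E) := (QuotientGroup.eq_one_iff g).1 hg
    have hle : NN (fun E : Ax G V δ => HAx p δ E) ≤
        Subgroup.closure (Set.range fun x : G => x ^ p) := by
      unfold NN
      rw [Subgroup.closure_le]
      intro h hh
      obtain ⟨E, hE⟩ := Set.mem_iUnion.1 hh
      obtain ⟨e, -, rfl⟩ := (a6 E h).1 hE
      exact Subgroup.subset_closure ⟨e, rfl⟩
    exact hle hgN

end FrobP
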